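import Pool.Agent.KS6_39.HB.Cert

/-! # Two maps joined by a bridge -/

set_option autoImplicit false

namespace Pool.Agent.KS6_39.HB

open Equiv TH482.HT Pool.Agent.N398.HT

section cyc

variable {D : Type} [Finite D] {σ : Perm D}

theorem closed_zpow {s : Set D} (hs : ∀ d ∈ s, σ d ∈ s) (n : ℤ) {a : D} (ha : a ∈ s) :
    (σ ^ n) a ∈ s := by
  have hi : ∀ d ∈ s, σ⁻¹ d ∈ s := perm_closed σ s hs
  induction n using Int.induction_on with
  | zero => simpa using ha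
  | succ n ih =>
    have : σ ^ ((n : ℤ) + 1) = σ * σ ^ (n : ℤ) := by rw [add_comm, zpow_add, zpow_one]
    rw [this, Perm.mul_apply]
    exact hs _ ih
  | pred n ih =>
    have : σ ^ (-(n : ℤ) - 1) = σ⁻¹ * σ ^ (-(n : ℤ)) := by
      rw [sub_eq_add_neg, add_comm, zpow_add, zpow_neg_one]
    rw [this, Perm.mul_apply]
    exact hi _ ih

/-- A closed set contains with a dart its whole cycle. -/
theorem closed_cycle {s : Set D} (hs : ∀ d ∈ s, σ d ∈ s) {a b : D} (h : σ.SameCycle a b)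
    (ha : a ∈ s) : b ∈ s := by
  obtain ⟨n, rfl⟩ := h
  exact closed_zpow hs n ha

/-- A set that contains `σ e` and is closed under `σ` except perhaps at `e` contains `e`. -/
theorem closed_of_skip {S : Set D} {e : D} (h1 : σ e ∈ S) (h2 : ∀ y ∈ S, y ≠ e → σ y ∈ S) :
    e ∈ S := by
  by_contra he
  have hc : ∀ y ∈ S, σ y ∈ S := fun y hy => h2 y hy (fun h => he (h ▸ hy))
  have := perm_closed σ S hc _ h1
  have h3 : σ⁻¹ (σ e) = e := σ.symm_apply_apply e
  rw [h3] at this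
  exact he this

omit [Finite D] in
theorem same_step (a : D) : σ.SameCycle a (σ a) := ⟨1, by simp⟩

/-- The number of cycles is the cardinality of a set of labels. -/
theorem numOrbits_eq_card {A : Type} (Ψ : A → Quotient (Perm.SameCycle.setoid σ))
    (h : Function.Bijective Ψ) : numOrbits σ = Nat.card A :=
  (Nat.card_congr (Equiv.ofBijective Ψ h)).symm

end cyc

abbrev Q {D : Type} (σ : Perm D) : Type := Quotient (Perm.SameCycle.setoid σ)

instance finD (M : SurfaceMap) : Finite M.D := @Finite.of_fintype _ M.fin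

theorem mk_eq_iff {D : Type} {σ : Perm D} {a b : D} :
    (Quotient.mk (Perm.SameCycle.setoid σ) a = Quotient.mk _ b) ↔ σ.SameCycle a b :=
  Quotient.eq (r := Perm.SameCycle.setoid σ)

/-- The map `M` consists of the maps `M₁` and `M₂` and one more edge, with the darts `p` and
`rev p`: the dart `p` follows the dart `c₁` of `M₁`, and `rev p` follows the dart `c₂` of `M₂`. -/
structure Bridge (M M₁ M₂ : SurfaceMap) (c₁ : M₁.D) (c₂ : M₂.D) where
  i₁ : M₁.D → M.D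
  i₂ : M₂.D → M.D
  p : M.D
  inj₁ : Function.Injective i₁
  inj₂ : Function.Injective i₂
  ne12 : ∀ x y, i₁ x ≠ i₂ y
  np1 : ∀ x, i₁ x ≠ p
  np2 : ∀ y, i₂ y ≠ M.rev p
  cover : ∀ d, (∃ x, i₁ x = d) ∨ (∃ y, i₂ y = d) ∨ d = p ∨ d = M.rev p
  rev1 : ∀ x, M.rev (i₁ x) = i₁ (M₁.rev x)
  rev2 : ∀ x, M.rev (i₂ x) = i₂ (M₂.rev x)
  rot1 : ∀ x, x ≠ c₁ → M.rot (i₁ x) = i₁ (M₁.rot x)
  rotc1 : M.rot (i₁ c₁) = p
  rotp1 : M.rot p = i₁ (M₁.rot c₁)
  rot2 : ∀ x, x ≠ c₂ → M.rot (i₂ x) = i₂ (M₂.rot x)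
  rotc2 : M.rot (i₂ c₂) = M.rev p
  rotp2 : M.rot (M.rev p) = i₂ (M₂.rot c₂)

namespace Bridge

variable {M M₁ M₂ : SurfaceMap} {c₁ : M₁.D} {c₂ : M₂.D} (B : Bridge M M₁ M₂ c₁ c₂)

/-- The two sides exchanged. -/
def symm : Bridge M M₂ M₁ c₂ c₁ where
  i₁ := B.i₂
  i₂ := B.i₁
  p := M.rev B.p
  inj₁ := B.inj₂
  inj₂ := B.inj₁
  ne12 := fun x y h => B.ne12 y x h.symm
  np1 := B.np2
  np2 := fun y => by rw [M.rev_rev]; exact B.np1 y
  cover := fun d => by
    rw [M.rev_rev]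
    rcases B.cover d with h | h | h | h
    · exact Or.inr (Or.inl h)
    · exact Or.inl h
    · exact Or.inr (Or.inr (Or.inr h))
    · exact Or.inr (Or.inr (Or.inl h))
  rev1 := B.rev2
  rev2 := B.rev1
  rot1 := B.rot2
  rotc1 := B.rotc2
  rotp1 := B.rotp2
  rot2 := B.rot1
  rotc2 := by rw [M.rev_rev]; exact B.rotc1
  rotp2 := by rw [M.rev_rev]; exact B.rotp1

include B

theorem nq1 (x : M₁.D) : B.i₁ x ≠ M.rev B.p := by
  intro h
  apply B.np1 (M₁.rev x)
  rw [← B.rev1, h, M.rev_rev]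

theorem nq2 (x : M₂.D) : B.i₂ x ≠ B.p := by
  have := B.symm.nq1 x
  change B.i₂ x ≠ M.rev (M.rev B.p) at this
  rwa [M.rev_rev] at this

/-! ### Vertices -/

theorem rot_same_step (x : M₁.D) : M.rot.SameCycle (B.i₁ x) (B.i₁ (M₁.rot x)) := by
  by_cases hx : x = c₁
  · subst hx
    have h1 : M.rot.SameCycle (B.i₁ x) B.p := ⟨1, by rw [zpow_one, B.rotc1]⟩
    exact h1.trans ⟨1, by rw [zpow_one, B.rotp1]⟩
  · exact ⟨1, by rw [zpow_one, B.rot1 x hx]⟩

theorem rot_same {x x' : M₁.D} (h : M₁.rot.SameCycle x x') :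
    M.rot.SameCycle (B.i₁ x) (B.i₁ x') := by
  exact closed_cycle (s := {z | M.rot.SameCycle (B.i₁ x) (B.i₁ z)})
    (fun z hz => Perm.SameCycle.trans hz (B.rot_same_step z)) h (Perm.SameCycle.refl _ _)

/-- the darts at the vertices that have a dart in `s` -/
def starV (s : Set M₁.D) : Set M.D := {d | (∃ x ∈ s, B.i₁ x = d) ∨ (d = B.p ∧ c₁ ∈ s)}

theorem starV_closed {s : Set M₁.D} (hs : ∀ x ∈ s, M₁.rot x ∈ s) :
    ∀ d ∈ B.starV s, M.rot d ∈ B.starV s := by
  rintro d (⟨x, hx, rfl⟩ | ⟨rfl, hc⟩)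
  · by_cases h : x = c₁
    · subst h
      exact Or.inr ⟨B.rotc1, hx⟩
    · exact Or.inl ⟨_, hs x hx, (B.rot1 x h).symm⟩
  · exact Or.inl ⟨_, hs _ hc, B.rotp1.symm⟩

theorem mem_starV {s : Set M₁.D} {x : M₁.D} : B.i₁ x ∈ B.starV s ↔ x ∈ s := by
  constructor
  · rintro (⟨z, hz, h⟩ | ⟨h, _⟩)
    · rwa [← B.inj₁ h]
    · exact absurd h (B.np1 x)
  · intro h
    exact Or.inl ⟨x, h, rfl⟩

theorem rot_reflect {x x' : M₁.D} (h : M.rot.SameCycle (B.i₁ x) (B.i₁ x')) :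
    M₁.rot.SameCycle x x' := by
  have h1 := closed_cycle (s := B.starV {z | M₁.rot.SameCycle x z})
    (B.starV_closed (fun z hz => Perm.SameCycle.trans hz (same_step z))) h
    (B.mem_starV.2 (Perm.SameCycle.refl _ _))
  exact B.mem_starV.1 h1

theorem rot_cross (x : M₁.D) (y : M₂.D) : ¬ M.rot.SameCycle (B.i₁ x) (B.i₂ y) := by
  intro h
  have h1 := closed_cycle (s := B.starV Set.univ) (B.starV_closed (fun _ _ => trivial)) h
    (B.mem_starV.2 trivial)
  rcases h1 with ⟨z, _, hz⟩ | ⟨hz, _⟩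
  · exact B.ne12 _ _ hz
  · exact B.nq2 _ hz

theorem rot_p : M.rot.SameCycle (B.i₁ c₁) B.p := ⟨1, by rw [zpow_one, B.rotc1]⟩

theorem numOrbits_rot : numOrbits M.rot = numOrbits M₁.rot + numOrbits M₂.rot := by
  let Ψ : Q M₁.rot ⊕ Q M₂.rot → Q M.rot := Sum.elim
    (Quotient.lift (fun x => Quotient.mk _ (B.i₁ x)) (fun a b h => mk_eq_iff.2 (B.rot_same h)))
    (Quotient.lift (fun x => Quotient.mk _ (B.i₂ x)) (fun a b h => mk_eq_iff.2
      (B.symm.rot_same h)))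
  have hΨ : Function.Bijective Ψ := by
    constructor
    · rintro (a | a) (b | b) h <;> induction a using Quotient.ind <;> induction b using Quotient.ind
      · exact congrArg Sum.inl (mk_eq_iff.2 (B.rot_reflect (mk_eq_iff.1 h)))
      · exact absurd (mk_eq_iff.1 h) (B.rot_cross _ _)
      · exact absurd (mk_eq_iff.1 h).symm (B.rot_cross _ _)
      · exact congrArg Sum.inr (mk_eq_iff.2 (B.symm.rot_reflect (mk_eq_iff.1 h)))
    · intro q
      induction q using Quotient.ind with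
      | _ d =>
        rcases B.cover d with ⟨x, rfl⟩ | ⟨y, rfl⟩ | rfl | rfl
        · exact ⟨Sum.inl (Quotient.mk _ x), rfl⟩
        · exact ⟨Sum.inr (Quotient.mk _ y), rfl⟩
        · exact ⟨Sum.inl (Quotient.mk _ c₁), mk_eq_iff.2 B.rot_p⟩
        · exact ⟨Sum.inr (Quotient.mk _ c₂), mk_eq_iff.2 B.symm.rot_p⟩
  rw [numOrbits_eq_card Ψ hΨ, Nat.card_sum]
  rfl

/-! ### Edges -/

theorem rev_same {x x' : M₁.D} (h : M₁.rev.SameCycle x x') :
    M.rev.SameCycle (B.i₁ x) (B.i₁ x') := by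
  refine closed_cycle (s := {z | M.rev.SameCycle (B.i₁ x) (B.i₁ z)})
    (fun z hz => Perm.SameCycle.trans hz ?_) h (Perm.SameCycle.refl _ _)
  exact ⟨1, by rw [zpow_one, B.rev1]⟩

theorem rev_reflect {x x' : M₁.D} (h : M.rev.SameCycle (B.i₁ x) (B.i₁ x')) :
    M₁.rev.SameCycle x x' := by
  have h1 := closed_cycle (s := B.i₁ '' {z | M₁.rev.SameCycle x z})
    (by
      rintro _ ⟨z, hz, rfl⟩
      exact ⟨_, Perm.SameCycle.trans hz (same_step z), (B.rev1 z).symm⟩) h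
    ⟨x, Perm.SameCycle.refl _ _, rfl⟩
  obtain ⟨z, hz, he⟩ := h1
  rwa [← B.inj₁ he]

theorem rev_cross (x : M₁.D) {d : M.D} (h : M.rev.SameCycle (B.i₁ x) d) : ∃ z, B.i₁ z = d := by
  exact closed_cycle (s := Set.range B.i₁)
    (by
      rintro _ ⟨z, rfl⟩
      exact ⟨_, (B.rev1 z).symm⟩) h ⟨x, rfl⟩

theorem numOrbits_rev : numOrbits M.rev = numOrbits M₁.rev + numOrbits M₂.rev + 1 := by
  let Ψ : (Q M₁.rev ⊕ Q M₂.rev) ⊕ Unit → Q M.rev := Sum.elim (Sum.elim
    (Quotient.lift (fun x => Quotient.mk _ (B.i₁ x)) (fun a b h => mk_eq_iff.2 (B.rev_same h)))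
    (Quotient.lift (fun x => Quotient.mk _ (B.i₂ x)) (fun a b h => mk_eq_iff.2
      (B.symm.rev_same h)))) (fun _ => Quotient.mk _ B.p)
  have hΨ : Function.Bijective Ψ := by
    constructor
    · rintro ((a | a) | a) ((b | b) | b) h
      · induction a using Quotient.ind
        induction b using Quotient.ind
        exact congrArg (Sum.inl ∘ Sum.inl) (mk_eq_iff.2 (B.rev_reflect (mk_eq_iff.1 h)))
      · induction a using Quotient.ind
        induction b using Quotient.ind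
        obtain ⟨z, hz⟩ := B.rev_cross _ (mk_eq_iff.1 h)
        exact absurd hz (B.ne12 _ _)
      · induction a using Quotient.ind
        obtain ⟨z, hz⟩ := B.rev_cross _ (mk_eq_iff.1 h)
        exact absurd hz (B.np1 _)
      · induction a using Quotient.ind
        induction b using Quotient.ind
        obtain ⟨z, hz⟩ := B.rev_cross _ (mk_eq_iff.1 h).symm
        exact absurd hz (B.ne12 _ _)
      · induction a using Quotient.ind
        induction b using Quotient.ind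
        exact congrArg (Sum.inl ∘ Sum.inr) (mk_eq_iff.2 (B.symm.rev_reflect (mk_eq_iff.1 h)))
      · induction a using Quotient.ind
        obtain ⟨z, hz⟩ := B.symm.rev_cross _ (mk_eq_iff.1 h)
        exact absurd hz (B.nq2 _)
      · induction b using Quotient.ind
        obtain ⟨z, hz⟩ := B.rev_cross _ (mk_eq_iff.1 h).symm
        exact absurd hz (B.np1 _)
      · induction b using Quotient.ind
        obtain ⟨z, hz⟩ := B.symm.rev_cross _ (mk_eq_iff.1 h).symm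
        exact absurd hz (B.nq2 _)
      · rfl
    · intro q
      induction q using Quotient.ind with
      | _ d =>
        rcases B.cover d with ⟨x, rfl⟩ | ⟨y, rfl⟩ | rfl | rfl
        · exact ⟨Sum.inl (Sum.inl (Quotient.mk _ x)), rfl⟩
        · exact ⟨Sum.inl (Sum.inr (Quotient.mk _ y)), rfl⟩
        · exact ⟨Sum.inr (), rfl⟩
        · exact ⟨Sum.inr (), mk_eq_iff.2 (same_step _)⟩
  rw [numOrbits_eq_card Ψ hΨ, Nat.card_sum, Nat.card_sum, Nat.card_unique (α := Unit)]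
  rfl

/-! ### Faces -/

/-- The dart after which the face of the bridge begins. -/
def e₁ (_ : Bridge M M₁ M₂ c₁ c₂) : M₁.D := M₁.rev c₁

theorem face1 {x : M₁.D} (h : x ≠ B.e₁) :
    (M.rot * M.rev) (B.i₁ x) = B.i₁ ((M₁.rot * M₁.rev) x) := by
  rw [Perm.mul_apply, Perm.mul_apply, B.rev1]
  apply B.rot1
  intro h2
  apply h
  rw [e₁, ← h2, M₁.rev_rev]

theorem face_e : (M.rot * M.rev) (B.i₁ B.e₁) = B.p := by
  rw [Perm.mul_apply, B.rev1, e₁, M₁.rev_rev, B.rotc1]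

theorem face_q : (M.rot * M.rev) (M.rev B.p) = B.i₁ ((M₁.rot * M₁.rev) B.e₁) := by
  rw [Perm.mul_apply, Perm.mul_apply, M.rev_rev, B.rotp1, e₁, M₁.rev_rev]

theorem face_p : (M.rot * M.rev) B.p = B.i₂ ((M₂.rot * M₂.rev) B.symm.e₁) := by
  have := B.symm.face_q
  change (M.rot * M.rev) (M.rev (M.rev B.p)) = _ at this
  rwa [M.rev_rev] at this

theorem face_e2 : (M.rot * M.rev) (B.i₂ B.symm.e₁) = M.rev B.p := B.symm.face_e

/-- from the bridge to `e₂` -/
theorem face_p_e2 : (M.rot * M.rev).SameCycle B.p (B.i₂ B.symm.e₁) := by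
  exact closed_of_skip (σ := M₂.rot * M₂.rev) (e := B.symm.e₁)
    (S := {y | (M.rot * M.rev).SameCycle B.p (B.i₂ y)})
    (⟨1, by rw [zpow_one, B.face_p]⟩)
    (fun y hy hne => Perm.SameCycle.trans hy ⟨1, by rw [zpow_one]; exact B.symm.face1 hne⟩)

theorem face_p_q : (M.rot * M.rev).SameCycle B.p (M.rev B.p) :=
  B.face_p_e2.trans ⟨1, by rw [zpow_one, B.face_e2]⟩

theorem face_e1_p : (M.rot * M.rev).SameCycle (B.i₁ B.e₁) B.p :=
  ⟨1, by rw [zpow_one, B.face_e]⟩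

theorem face_same_step (x : M₁.D) :
    (M.rot * M.rev).SameCycle (B.i₁ x) (B.i₁ ((M₁.rot * M₁.rev) x)) := by
  by_cases hx : x = B.e₁
  · subst hx
    exact B.face_e1_p.trans (B.face_p_q.trans ⟨1, by rw [zpow_one, B.face_q]⟩)
  · exact ⟨1, by rw [zpow_one, B.face1 hx]⟩

theorem face_same {x x' : M₁.D} (h : (M₁.rot * M₁.rev).SameCycle x x') :
    (M.rot * M.rev).SameCycle (B.i₁ x) (B.i₁ x') := by
  exact closed_cycle (s := {z | (M.rot * M.rev).SameCycle (B.i₁ x) (B.i₁ z)})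
    (fun z hz => Perm.SameCycle.trans hz (B.face_same_step z)) h (Perm.SameCycle.refl _ _)

/-- the darts of the face of `x` -/
def faceSet (x : M₁.D) : Set M.D :=
  {d | (∃ z, (M₁.rot * M₁.rev).SameCycle x z ∧ B.i₁ z = d) ∨
    ((M₁.rot * M₁.rev).SameCycle x B.e₁ ∧ (d = B.p ∨ d = M.rev B.p ∨
      ∃ w, (M₂.rot * M₂.rev).SameCycle B.symm.e₁ w ∧ B.i₂ w = d))}

theorem faceSet_closed (x : M₁.D) : ∀ d ∈ B.faceSet x, (M.rot * M.rev) d ∈ B.faceSet x := by
  rintro d (⟨z, hz, rfl⟩ | ⟨hx, rfl | rfl | ⟨w, hw, rfl⟩⟩)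
  · by_cases h : z = B.e₁
    · subst h
      exact Or.inr ⟨hz, Or.inl B.face_e⟩
    · exact Or.inl ⟨_, hz.trans (same_step z), (B.face1 h).symm⟩
  · exact Or.inr ⟨hx, Or.inr (Or.inr ⟨_, same_step _, B.face_p.symm⟩)⟩
  · exact Or.inl ⟨_, hx.trans (same_step _), B.face_q.symm⟩
  · refine Or.inr ⟨hx, Or.inr ?_⟩
    by_cases h : w = B.symm.e₁
    · subst h
      exact Or.inl B.face_e2
    · exact Or.inr ⟨_, hw.trans (same_step w), (B.symm.face1 h).symm⟩

theorem face_reflect {x x' : M₁.D} (h : (M.rot * M.rev).SameCycle (B.i₁ x) (B.i₁ x')) :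
    (M₁.rot * M₁.rev).SameCycle x x' := by
  have h1 := closed_cycle (B.faceSet_closed x) h (Or.inl ⟨x, Perm.SameCycle.refl _ _, rfl⟩)
  rcases h1 with ⟨z, hz, he⟩ | ⟨_, he | he | ⟨w, _, he⟩⟩
  · rwa [← B.inj₁ he]
  · exact absurd he (B.np1 _)
  · exact absurd he (B.nq1 _)
  · exact absurd he.symm (B.ne12 _ _)

theorem face_cross {x : M₁.D} {y : M₂.D} (h : (M.rot * M.rev).SameCycle (B.i₁ x) (B.i₂ y)) :
    (M₂.rot * M₂.rev).SameCycle B.symm.e₁ y := by
  have h1 := closed_cycle (B.faceSet_closed x) h (Or.inl ⟨x, Perm.SameCycle.refl _ _, rfl⟩)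
  rcases h1 with ⟨z, hz, he⟩ | ⟨_, he | he | ⟨w, hw, he⟩⟩
  · exact absurd he (B.ne12 _ _)
  · exact absurd he (B.nq2 _)
  · exact absurd he (B.np2 _)
  · rwa [← B.inj₂ he]

theorem numOrbits_face : numOrbits (M.rot * M.rev) + 1 =
    numOrbits (M₁.rot * M₁.rev) + numOrbits (M₂.rot * M₂.rev) := by
  classical
  let q₂ : Q (M₂.rot * M₂.rev) := Quotient.mk _ B.symm.e₁
  let Ψ₂ : Q (M₂.rot * M₂.rev) → Q (M.rot * M.rev) :=
    Quotient.lift (fun x => Quotient.mk _ (B.i₂ x)) (fun a b h => mk_eq_iff.2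
      (B.symm.face_same h))
  let Ψ : Q (M₁.rot * M₁.rev) ⊕ {q : Q (M₂.rot * M₂.rev) // q ≠ q₂} → Q (M.rot * M.rev) :=
    Sum.elim (Quotient.lift (fun x => Quotient.mk _ (B.i₁ x))
      (fun a b h => mk_eq_iff.2 (B.face_same h))) (fun q => Ψ₂ q.1)
  have hΨ : Function.Bijective Ψ := by
    constructor
    · rintro (a | ⟨a, ha⟩) (b | ⟨b, hb⟩) h <;> induction a using Quotient.ind <;>
        induction b using Quotient.ind
      · exact congrArg Sum.inl (mk_eq_iff.2 (B.face_reflect (mk_eq_iff.1 h)))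
      · exact absurd (mk_eq_iff.2 (B.face_cross (mk_eq_iff.1 h)).symm) hb
      · exact absurd (mk_eq_iff.2 (B.face_cross (mk_eq_iff.1 h).symm).symm) ha
      · exact congrArg Sum.inr (Subtype.ext (mk_eq_iff.2 (B.symm.face_reflect (mk_eq_iff.1 h))))
    · intro q
      induction q using Quotient.ind with
      | _ d =>
        rcases B.cover d with ⟨x, rfl⟩ | ⟨y, rfl⟩ | rfl | rfl
        · exact ⟨Sum.inl (Quotient.mk _ x), rfl⟩
        · by_cases hy : (Quotient.mk _ y : Q (M₂.rot * M₂.rev)) = q₂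
          · refine ⟨Sum.inl (Quotient.mk _ B.e₁), mk_eq_iff.2 ?_⟩
            have h1 : (M₂.rot * M₂.rev).SameCycle y B.symm.e₁ := mk_eq_iff.1 hy
            exact B.face_e1_p.trans (B.face_p_e2.trans (B.symm.face_same h1.symm))
          · exact ⟨Sum.inr ⟨Quotient.mk _ y, hy⟩, rfl⟩
        · exact ⟨Sum.inl (Quotient.mk _ B.e₁), mk_eq_iff.2 B.face_e1_p⟩
        · exact ⟨Sum.inl (Quotient.mk _ B.e₁), mk_eq_iff.2 (B.face_e1_p.trans B.face_p_q)⟩
  have hfin : Fintype (Q (M₂.rot * M₂.rev)) := Fintype.ofFinite _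
  have hcard : Nat.card {q : Q (M₂.rot * M₂.rev) // q ≠ q₂} + 1 = numOrbits (M₂.rot * M₂.rev) := by
    rw [Nat.card_eq_fintype_card, Fintype.card_subtype_compl, Fintype.card_subtype_eq]
    have hpos : 0 < Fintype.card (Q (M₂.rot * M₂.rev)) := Fintype.card_pos_iff.2 ⟨q₂⟩
    have : numOrbits (M₂.rot * M₂.rev) = Fintype.card (Q (M₂.rot * M₂.rev)) :=
      Nat.card_eq_fintype_card
    omega
  rw [numOrbits_eq_card Ψ hΨ, Nat.card_sum, add_assoc, hcard]
  rfl

/-- The Euler characteristic of a map with a bridge. -/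
theorem euler : M.euler = M₁.euler + M₂.euler - 2 := by
  have h1 := B.numOrbits_rot
  have h2 := B.numOrbits_rev
  have h3 := B.numOrbits_face
  unfold SurfaceMap.euler
  omega

end Bridge

end Pool.Agent.KS6_39.HB
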