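import Pool.Agent.KS6_39.HB.GlueP
import Pool.Agent.KS6_39.HB.W14

/-! # Grid graphs with a drawing given by a table -/

set_option autoImplicit false

namespace Pool.Agent.KS6_39.HB

open Equiv TH482.HT Pool.Agent.N398.HT TH482.HT.GoodTab

section emb

/-- The Euler characteristic of every embedding of the grid graph is small. -/
theorem euler_le {N k : ℕ} (D : WData N k) {M g : ℕ} (hN : 3 ≤ N)
    (hm : 3 * (g + 1) ≤ M + 1)
    (hel : 2 * (g + 1) ≤ elim (2 * (g + 1)) ((List.range (2 * (g + 1))).map TH482.HT.hrow))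
    (hf : finalB D.nc D.np (2 * (g + 1)) D.sm D.nb D.pidx = true)
    (ℰ : Drawing (gridGraph M D.w)) (hE : ℰ.IsEmbedding) :
    ℰ.toSurfaceMap.euler ≤ - 2 * (g : ℤ) := by
  have := ℰ.fin
  have hadj : ∀ d : Ed N M × Bool, (gridGraph M D.w).Adj (tail D.w d) (tail D.w (TH482.HT.flip d)) :=
    fun d => ⟨d, rfl, rfl⟩
  choose f hf1 hf2 using fun d : Ed N M × Bool => ℰ.start _ _ (hadj d)
  have hfs : ∀ d, ℰ.src (f d) = tail D.w d := fun d => (hf1 d).1
  have hft : ∀ d, ℰ.tgt (f d) = tail D.w (TH482.HT.flip d) := fun d => (hf1 d).2.1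
  have hbij : Function.Bijective f := by
    constructor
    · intro d d' h
      apply ends_inj D.w
      · rw [← hfs, ← hfs, h]
      · rw [← hft, ← hft, h]
    · intro e
      obtain ⟨d, h1, h2⟩ := ℰ.adj e
      exact ⟨d, (hf2 d e ⟨h1.symm, h2.symm, hE e⟩).symm⟩
  let φ : Ed N M × Bool ≃ ℰ.D := Equiv.ofBijective f hbij
  have hφ : ∀ d, φ d = f d := fun d => rfl
  let rot' : Perm (Ed N M × Bool) := φ.trans (ℰ.rot.trans φ.symm)
  have hrot : ∀ d, φ (rot' d) = ℰ.rot (φ d) := by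
    intro d
    exact φ.apply_symm_apply _
  have hflip : ∀ d, φ (TH482.HT.flip d) = ℰ.rev (φ d) := by
    intro d
    symm
    refine hf2 (TH482.HT.flip d) _ ⟨?_, ?_, hE _⟩
    · rw [ℰ.src_rev, hφ, hft]
    · rw [← ℰ.src_rev, ℰ.rev_rev, hφ, hfs]
      simp
  have hT : IsTail rot' (tail D.w) := by
    constructor
    · intro d
      rw [← hfs, ← hfs, ← hφ, ← hφ, hrot]
      exact (ℰ.vertex _ (hE _)).2
    · intro d d' h
      rw [sameCycle_congr φ hrot]
      refine ℰ.vertex_cyclic _ _ (hE _) (hE _) ?_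
      rw [hφ, hφ, hfs, hfs, h]
  have hC : Conn rot' := by
    intro F hF1 hF2 d d'
    have huniv := ℰ.conn {e | F (φ.symm e) = F d'} ⟨φ d', by simp⟩ (by
      intro e he
      constructor
      · have h1 := hF1 (φ.symm e)
        have h2 : φ.symm (ℰ.rot e) = rot' (φ.symm e) := by
          rw [Equiv.symm_apply_eq, hrot, Equiv.apply_symm_apply]
        simp only [Set.mem_setOf_eq] at he ⊢
        rw [h2, h1, he]
      · have h1 := hF2 (φ.symm e)
        have h2 : φ.symm (ℰ.rev e) = TH482.HT.flip (φ.symm e) := by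
          rw [Equiv.symm_apply_eq, hflip, Equiv.apply_symm_apply]
        simp only [Set.mem_setOf_eq] at he ⊢
        rw [h2, h1, he])
    have : φ d ∈ (Set.univ : Set ℰ.D) := Set.mem_univ _
    rw [← huniv] at this
    simpa using this
  have h1 := D.genus_bound hT hC hN (g + 1) hm hel hf
  have o1 : numOrbits rot' = numOrbits ℰ.rot := numOrbits_congr φ hrot
  have o2 : numOrbits (rot' * TH482.HT.flip) = numOrbits (ℰ.rot * ℰ.rev) := by
    apply numOrbits_congr φ
    intro d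
    rw [Perm.mul_apply, Perm.mul_apply, hrot, hflip]
  have o3 : numOrbits (TH482.HT.flip : Perm (Ed N M × Bool)) = numOrbits ℰ.rev :=
    numOrbits_congr φ hflip
  have o4 : Fintype.card (Ed N M) ≤ numOrbits (TH482.HT.flip : Perm (Ed N M × Bool)) :=
    le_numOrbits TH482.HT.flip (fun d => d.1) (fun d => rfl) (fun e => ⟨(e, false), rfl⟩)
  change (numOrbits ℰ.rot : ℤ) - (numOrbits ℰ.rev : ℤ) + (numOrbits (ℰ.rot * ℰ.rev) : ℤ) ≤ _
  rw [o1, o2] at h1
  rw [o3] at o4
  omega


end emb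

section tab

variable {N M k : ℕ} [NeZero N] {w : Fin (N + 1) → Fin k} {t : Tab} (h : GoodTab N M k w t)

theorem adj_in_disc_avoid (IDX : ℕ) (hV : allB (2 * t.En) (chkV t) = true)
    (hR : allB (2 * t.En) (chkR t) = true) (hF : allB (2 * t.En) (chkF t IDX) = true)
    (hT : allB (2 * t.En) (chkT t) = true)
    (cert : ℕ → ℕ → List ℕ × List ℕ × List ℕ) (hP : allB t.Vn (pairsB t cert) = true)
    (e : Fin t.En × Bool) (he : ∀ x y, get t.FACE (t.enc e) ∉ (cert x y).2.2) :
    AdjInDiscAvoid (tabDrawing h) e := by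
  have hv7 : ∀ v < t.Vn, get t.VREP v < 2 * t.En ∧ get t.VLAB (get t.VREP v) = v := by
    intro v hv
    obtain ⟨b1, b2⟩ := Tab.bnd_spec (allB_spec h.c7 v hv)
    exact ⟨GoodTab.blt_eq b1, GoodTab.beq_eq b2⟩
  have hex := rot_exact h hV hR (fun v hv => (hv7 v hv).1)
  intro u v v' hv hv' hne
  obtain ⟨x, ⟨hx1, hx2, hx3⟩, _⟩ := (tabDrawing h).start u v hv
  obtain ⟨y, ⟨hy1, hy2, hy3⟩, _⟩ := (tabDrawing h).start u v' hv'
  have hcyc := (tabDrawing h).vertex_cyclic x y hx3 hy3 (hx1.trans hy1.symm)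
  change Fin t.En × Bool at x y
  have hlab : get t.VLAB (t.enc x) = get t.VLAB (t.enc y) := (hex x y).1 hcyc
  obtain ⟨d0, r1, i, hi, r2⟩ := rot_same h x hV (fun v hv => (hv7 v hv).1) hR
  obtain ⟨d0', r1', j, hj, r2'⟩ := rot_same h y hV (fun v hv => (hv7 v hv).1) hR
  have hdd : d0 = d0' := enc_inj h.pos (by rw [r1, r1', hlab])
  subst hdd
  have hvlt : get t.VLAB (t.enc x) < t.Vn :=
    GoodTab.blt_eq (Tab.bnd_spec (allB_spec hR _ (t.enc_lt x))).1
  have hpx : t.enc x = (get t.ROT)^[i] (get t.VREP (get t.VLAB (t.enc x))) := by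
    conv_lhs => rw [← r2]
    rw [pow_enc, r1]
  have hpy : t.enc y = (get t.ROT)^[j] (get t.VREP (get t.VLAB (t.enc x))) := by
    conv_lhs => rw [← r2']
    rw [pow_enc, r1]
  -- the vertex is not a crossing
  have hpos0 : get t.POS (get t.VREP (get t.VLAB (t.enc x))) = 0 := by
    rw [← r1]
    by_contra hne0
    have hp : ∀ n : ℕ, 0 < get t.POS (t.enc (((rotP h) ^ n) d0)) := by
      intro n
      induction n with
      | zero => exact Nat.pos_of_ne_zero hne0
      | succ n ih =>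
        rw [pow_succ', Perm.mul_apply, enc_rotP]
        exact (h.s4b (t.enc_lt _) ih).1
    have := hp i
    rw [r2] at this
    have hx3' : get t.POS (t.enc x) = 0 := hx3
    omega
  have hx : (labP x : Ed N M × Bool) ≠ labP y := by
    intro he
    apply hne
    have e1 : tail w (flip (labP x : Ed N M × Bool)) = v := hx2
    have e2 : tail w (flip (labP y : Ed N M × Bool)) = v' := hy2
    rw [← e1, ← e2, he]
  have hxl : get t.LAB (t.enc x) ≠ get t.LAB (t.enc y) := by
    intro he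
    apply hx
    apply encL_inj
    rw [encL_labP h, encL_labP h, he]
  have hc := allB_spec hP _ hvlt
  unfold pairsB at hc
  rw [hpos0] at hc
  have hz : Nat.beq 0 0 = true := rfl
  rw [hz, cond_true] at hc
  have hc1 := allB_spec (allB_spec hc i hi) j hj
  rw [← hpx, ← hpy] at hc1
  rcases beq_cases (get t.LAB (t.enc x)) (get t.LAB (t.enc y)) with ⟨_, c2⟩ | ⟨c1, _⟩
  · exact absurd c2 hxl
  rw [c1, cond_false] at hc1
  unfold pairB at hc1
  obtain ⟨p1, hc1⟩ := Tab.bnd_spec hc1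
  obtain ⟨p2, p3⟩ := Tab.bnd_spec hc1
  have sp := discB_spec p1
  refine ⟨subOf h _ _ _ sp.2.2.2.2.2.2.1 sp.2.2.2.2.2.2.2.1,
    subOf_isDisc h IDX hV hR hF _ _ _ p1 _ _, he _ _, ?_⟩
  intro d hd
  change Fin t.En × Bool at d
  change t.enc d / 2 ∈ (cert (t.enc x) (t.enc y)).2.1
  have htr : t.enc d ∈ trail t (get t.LAB (t.enc d)) :=
    memB_iff.1 (allB_spec hT _ (t.enc_lt d))
  obtain ⟨q1, q2⟩ := hd
  have ends : ∀ z : Fin t.En × Bool, tail w (labP z : Ed N M × Bool) = u →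
      tail w (flip (labP d : Ed N M × Bool)) = tail w (flip (labP z : Ed N M × Bool)) →
      get t.LAB (t.enc d) = get t.LAB (t.enc z) := by
    intro z hz1 hz2
    have : (labP d : Ed N M × Bool) = labP z := ends_inj w (q1.trans hz1.symm) hz2
    rw [← encL_labP h, ← encL_labP h, this]
  rcases q2 with q2 | q2
  · rw [ends x hx1 (q2.trans hx2.symm)] at htr
    exact memB_iff.1 (List.all_eq_true.1 p2 _ htr)
  · rw [ends y hy1 (q2.trans hy2.symm)] at htr
    exact memB_iff.1 (List.all_eq_true.1 p3 _ htr)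


end tab

/-- Data that give a good graph. -/
theorem Good.of_tab {N M k : ℕ} [NeZero N] (D : WData N k) {t : Tab} (h : GoodTab N M k D.w t)
    (IDX : ℕ) (hV : allB (2 * t.En) (chkV t) = true)
    (hR : allB (2 * t.En) (chkR t) = true) (hF : allB (2 * t.En) (chkF t IDX) = true)
    (hT : allB (2 * t.En) (chkT t) = true)
    (cert : ℕ → ℕ → List ℕ × List ℕ × List ℕ) (hP : allB t.Vn (pairsB t cert) = true)
    (hE : allB (2 * t.En) (chkE D.w M t) = true) {g : ℕ} (hN : 3 ≤ N)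
    (hm : 3 * (g + 1) ≤ M + 1)
    (hel : 2 * (g + 1) ≤ elim (2 * (g + 1)) ((List.range (2 * (g + 1))).map TH482.HT.hrow))
    (hf : finalB D.nc D.np (2 * (g + 1)) D.sm D.nb D.pidx = true)
    (c : Fin t.En × Bool) (hc : get t.POS (t.enc c) = 0)
    (hsrc : tail D.w (decL N M (get t.LAB (t.enc c))) = Sum.inl (0, 0))
    (hface : ∀ x y, get t.FACE (Tab.oth (t.enc c)) ∉ (cert x y).2.2) (g' : ℤ)
    (hg' : (t.Vn : ℤ) - (t.En : ℤ) + (t.Fn : ℤ) = 2 - 2 * g') : Good g' g := by
  refine ⟨Vt N M k, inferInstance, gridGraph M D.w, gridGraph_connected D.w D.bcol D.hb,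
    ⟨tabDrawing h, c, ?_, tab_even h hE, hc, ?_, ?_⟩, fun ℰ hℰ => euler_le D hN hm hel hf ℰ hℰ⟩
  · rw [exact_euler h IDX hV hR hF, hg']
  · apply adj_in_disc_avoid h IDX hV hR hF hT cert hP
    intro x y
    have h1 : t.enc ((tabDrawing h).rev c) = Tab.oth (t.enc c) := t.enc_flip c
    rw [h1]
    exact hface x y
  · have hs : (tabDrawing h).src c = Sum.inl (0, 0) := hsrc
    have hN0 : 0 < N := by omega
    have hM0 : 1 < M + 1 := by omega
    have a1 : (gridGraph M D.w).Adj (Sum.inl (0, 0)) (Sum.inl (1, 0)) := by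
      refine ⟨(Sum.inl (⟨0, hN0⟩, 0), false), ?_, ?_⟩
      · rw [tail_R]
        rfl
      · change tail D.w (Sum.inl (⟨0, hN0⟩, 0), true) = _
        rw [tail_L]
        congr 2
        apply Fin.ext
        simp [Fin.val_one', Nat.mod_eq_of_lt (by omega : 1 < N + 1)]
    have a2 : (gridGraph M D.w).Adj (Sum.inl (0, 0)) (Sum.inl (0, ⟨1, hM0⟩)) := by
      refine ⟨(Sum.inr (0, 0), false), ?_, ?_⟩
      · rw [tail_U]
      · change tail D.w (Sum.inr (0, 0), true) = _
        rw [tail_D' D.w 0 0 (by simpa using hM0)]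
        congr 2
    intro v
    rw [hs]
    by_cases hv : v = Sum.inl (1, 0)
    · refine ⟨_, ?_, a2⟩
      rw [hv]
      intro h0
      have h1 := Sum.inl.inj h0
      have h2 := congrArg (fun p => (Prod.snd p).val) h1
      simp at h2
    · exact ⟨_, fun h0 => hv h0.symm, a1⟩

end Pool.Agent.KS6_39.HB
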