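import Mathlib
import Pool.Agent.KS6_39.HB.Ord

/-! # The grid with letter vertices -/

namespace TH482.HT

open Equiv Module

/-- horizontal edges `(c, r) - (c+1, r)`, and vertical edges `(c, r) - (c, r+1)`; the vertical edge
of the last row goes to the letter vertex of the column -/
abbrev Ed (N M : ℕ) := (Fin N × Fin (M + 1)) ⊕ (Fin (N + 1) × Fin (M + 1))

abbrev Vt (N M k : ℕ) := (Fin (N + 1) × Fin (M + 1)) ⊕ Fin k

variable {N M k : ℕ}

/-- starting point of a dart -/
def tail (w : Fin (N + 1) → Fin k) : Ed N M × Bool → Vt N M k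
  | (Sum.inl (c, r), false) => Sum.inl (c.castSucc, r)
  | (Sum.inl (c, r), true) => Sum.inl (c.succ, r)
  | (Sum.inr (c, r), false) => Sum.inl (c, r)
  | (Sum.inr (c, r), true) => if h : r.val + 1 < M + 1 then Sum.inl (c, ⟨r.val + 1, h⟩)
      else Sum.inr (w c)

theorem tail_R (w : Fin (N + 1) → Fin k) (c : Fin N) (r : Fin (M + 1)) :
    tail w (Sum.inl (c, r), false) = Sum.inl (c.castSucc, r) := rfl
theorem tail_L (w : Fin (N + 1) → Fin k) (c : Fin N) (r : Fin (M + 1)) :
    tail w (Sum.inl (c, r), true) = Sum.inl (c.succ, r) := rfl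
theorem tail_U (w : Fin (N + 1) → Fin k) (c : Fin (N + 1)) (r : Fin (M + 1)) :
    tail w (Sum.inr (c, r), false) = Sum.inl (c, r) := rfl
theorem tail_D (w : Fin (N + 1) → Fin k) (c : Fin (N + 1)) (r : Fin (M + 1)) :
    tail w (Sum.inr (c, r), true) = if h : r.val + 1 < M + 1 then Sum.inl (c, ⟨r.val + 1, h⟩)
      else Sum.inr (w c) := rfl
theorem tail_D' (w : Fin (N + 1) → Fin k) (c : Fin (N + 1)) (r : Fin (M + 1))
    (h : r.val + 1 < M + 1) :
    tail w (Sum.inr (c, r), true) = Sum.inl (c, ⟨r.val + 1, h⟩) := by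
  rw [tail_D, dif_pos h]
theorem tail_T (w : Fin (N + 1) → Fin k) (c : Fin (N + 1)) :
    tail w (Sum.inr (c, Fin.last M), true) = Sum.inr (w c) := by
  rw [tail_D, dif_neg]; simp

theorem sum_ite_unique {ι : Type} [Fintype ι] [DecidableEq ι] {P : ι → Prop} [DecidablePred P]
    (F : ι → K) (x0 : ι) (h : ∀ x, P x ↔ x = x0) : (∑ x, if P x then F x else 0) = F x0 := by
  simp [h]

theorem sum_ite_none {ι : Type} [Fintype ι] {P : ι → Prop} [DecidablePred P]
    (F : ι → K) (h : ∀ x, ¬ P x) : (∑ x, if P x then F x else 0) = 0 := by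
  simp [h]

theorem sum_Ed (F : Ed N M × Bool → K) :
    ∑ d, F d = ((∑ x : Fin N × Fin (M + 1), F (Sum.inl x, false)) +
      (∑ x : Fin N × Fin (M + 1), F (Sum.inl x, true))) +
      ((∑ x : Fin (N + 1) × Fin (M + 1), F (Sum.inr x, false)) +
      (∑ x : Fin (N + 1) × Fin (M + 1), F (Sum.inr x, true))) := by
  rw [← sum_darts, Fintype.sum_sum_type, Finset.sum_add_distrib, Finset.sum_add_distrib]

theorem at_grid (w : Fin (N + 1) → Fin k) (F : Ed N M × Bool → K) (c : Fin (N + 1))
    (r : Fin (M + 1)) :
    (∑ d, if tail w d = Sum.inl (c, r) then F d else 0) =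
      ((if h : c.val < N then F (Sum.inl (⟨c.val, h⟩, r), false) else 0) +
      (if h : 0 < c.val then F (Sum.inl (⟨c.val - 1, by omega⟩, r), true) else 0)) +
      (F (Sum.inr (c, r), false) +
      (if h : 0 < r.val then F (Sum.inr (c, ⟨r.val - 1, by omega⟩), true) else 0)) := by
  rw [sum_Ed (fun d => if tail w d = Sum.inl (c, r) then F d else 0)]
  congr 1
  · congr 1
    · by_cases h : c.val < N
      · rw [dif_pos h]
        refine sum_ite_unique (fun x => F (Sum.inl x, false)) (⟨c.val, h⟩, r) ?_
        rintro ⟨c', r'⟩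
        rw [tail_R, Sum.inl.injEq, Prod.mk.injEq, Prod.mk.injEq, Fin.ext_iff, Fin.ext_iff]
        simp [Fin.ext_iff]
      · rw [dif_neg h]
        refine sum_ite_none (fun x => F (Sum.inl x, false)) ?_
        rintro ⟨c', r'⟩ he
        rw [tail_R, Sum.inl.injEq, Prod.mk.injEq, Fin.ext_iff] at he
        have := c'.2
        simp only [Fin.val_castSucc] at he
        omega
    · by_cases h : 0 < c.val
      · rw [dif_pos h]
        refine sum_ite_unique (fun x => F (Sum.inl x, true)) (⟨c.val - 1, by omega⟩, r) ?_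
        rintro ⟨c', r'⟩
        rw [tail_L, Sum.inl.injEq, Prod.mk.injEq, Prod.mk.injEq, Fin.ext_iff, Fin.ext_iff,
          Fin.ext_iff, Fin.val_succ]
        constructor <;> rintro ⟨h1, h2⟩ <;> refine ⟨?_, h2⟩ <;> simp only at * <;> omega
      · rw [dif_neg h]
        refine sum_ite_none (fun x => F (Sum.inl x, true)) ?_
        rintro ⟨c', r'⟩ he
        rw [tail_L, Sum.inl.injEq, Prod.mk.injEq, Fin.ext_iff, Fin.val_succ] at he
        omega
  · congr 1
    · refine sum_ite_unique (fun x => F (Sum.inr x, false)) (c, r) ?_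
      rintro ⟨c', r'⟩
      rw [tail_U, Sum.inl.injEq]
    · by_cases h : 0 < r.val
      · rw [dif_pos h]
        refine sum_ite_unique (fun x => F (Sum.inr x, true)) (c, ⟨r.val - 1, by omega⟩) ?_
        rintro ⟨c', r'⟩
        by_cases h' : r'.val + 1 < M + 1
        · rw [tail_D' w c' r' h', Sum.inl.injEq, Prod.mk.injEq, Prod.mk.injEq]
          constructor
          · rintro ⟨h1, h2⟩
            refine ⟨h1, ?_⟩
            have h3 := congrArg Fin.val h2
            apply Fin.ext
            (try simp only at h3 ⊢)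
            omega
          · rintro ⟨h1, h2⟩
            refine ⟨h1, ?_⟩
            have h3 := congrArg Fin.val h2
            apply Fin.ext
            (try simp only at h3 ⊢)
            omega
        · rw [tail_D, dif_neg h']
          constructor
          · intro he; exact absurd he (by simp)
          · intro he
            rw [Prod.mk.injEq] at he
            have h3 : r'.val = r.val - 1 := congrArg Fin.val he.2
            have := r.2
            omega
      · rw [dif_neg h]
        refine sum_ite_none (fun x => F (Sum.inr x, true)) ?_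
        rintro ⟨c', r'⟩ he
        by_cases h' : r'.val + 1 < M + 1
        · rw [tail_D' w c' r' h', Sum.inl.injEq, Prod.mk.injEq, Fin.ext_iff, Fin.ext_iff] at he
          (try simp only at he)
          omega
        · rw [tail_D, dif_neg h'] at he
          exact absurd he (by simp)

theorem at_letter (w : Fin (N + 1) → Fin k) (F : Ed N M × Bool → K) (l : Fin k) :
    (∑ d, if tail w d = Sum.inr l then F d else 0) =
      ∑ c : Fin (N + 1), if w c = l then F (Sum.inr (c, Fin.last M), true) else 0 := by
  rw [sum_Ed (fun d => if tail w d = Sum.inr l then F d else 0)]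
  rw [sum_ite_none (fun x => F (Sum.inl x, false)), sum_ite_none (fun x => F (Sum.inl x, true)),
    sum_ite_none (fun x => F (Sum.inr x, false)), zero_add, zero_add, zero_add]
  · rw [Fintype.sum_prod_type]
    apply Finset.sum_congr rfl
    intro c _
    have : ∀ r : Fin (M + 1), (if tail w (Sum.inr (c, r), true) = Sum.inr l then
        F (Sum.inr (c, r), true) else 0) = if r = Fin.last M ∧ w c = l then
        F (Sum.inr (c, r), true) else 0 := by
      intro r
      by_cases h' : r.val + 1 < M + 1
      · rw [tail_D' w c r h', if_neg (by simp), if_neg]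
        rintro ⟨h1, _⟩
        rw [h1] at h'
        simp at h'
      · have hr : r = Fin.last M := by
          apply Fin.ext
          have := r.2
          simp only [Fin.val_last]
          omega
        subst hr
        by_cases h : w c = l
        · simp [tail_T, h]
        · simp [tail_T, h]
    rw [Finset.sum_congr rfl (fun r _ => this r)]
    by_cases h : w c = l
    · simp [h]
    · simp [h]
  · rintro ⟨c, r⟩; rw [tail_U]; simp
  · rintro ⟨c, r⟩; rw [tail_L]; simp
  · rintro ⟨c, r⟩; rw [tail_R]; simp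

/-- comparison of darts in the order -/
def cmp (ord : Ed N M × Bool → ℕ) (d' d : Ed N M × Bool) : K := if ord d' < ord d then 1 else 0

theorem cmp_self (ord : Ed N M × Bool → ℕ) (d : Ed N M × Bool) : cmp ord d d = 0 := by
  simp [cmp]

theorem cmp_swap {rot : Perm (Ed N M × Bool)} {w : Fin (N + 1) → Fin k}
    {ord : Ed N M × Bool → ℕ} (ho : IsOrd rot (tail w) ord) {d d' : Ed N M × Bool}
    (ht : tail w d = tail w d') (hne : d ≠ d') : cmp ord d d' = 1 + cmp ord d' d := by
  have h1 : ord d ≠ ord d' := fun h => hne (ho.inj _ _ ht h)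
  rcases Nat.lt_or_ge (ord d) (ord d') with h | h
  · have h2 : ¬ ord d' < ord d := by omega
    simp [cmp, h, h2]
  · have h3 : ord d' < ord d := by omega
    have h2 : ¬ ord d < ord d' := by omega
    simp only [cmp, h3, h2, if_true, if_false]
    rfl

theorem bb_grid (w : Fin (N + 1) → Fin k) (ord : Ed N M × Bool → ℕ) (y : Ed N M → K)
    (d : Ed N M × Bool) (c : Fin (N + 1)) (r : Fin (M + 1)) (hd : tail w d = Sum.inl (c, r)) :
    bb (tail w) ord y d =
      ((if h : c.val < N then cmp ord (Sum.inl (⟨c.val, h⟩, r), false) d *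
          y (Sum.inl (⟨c.val, h⟩, r)) else 0) +
      (if h : 0 < c.val then cmp ord (Sum.inl (⟨c.val - 1, by omega⟩, r), true) d *
          y (Sum.inl (⟨c.val - 1, by omega⟩, r)) else 0)) +
      (cmp ord (Sum.inr (c, r), false) d * y (Sum.inr (c, r)) +
      (if h : 0 < r.val then cmp ord (Sum.inr (c, ⟨r.val - 1, by omega⟩), true) d *
          y (Sum.inr (c, ⟨r.val - 1, by omega⟩)) else 0)) := by
  rw [← at_grid w (fun d' => cmp ord d' d * y d'.1) c r, bb]
  apply Finset.sum_congr rfl
  intro d' _
  rw [hd]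
  by_cases h : tail w d' = Sum.inl (c, r)
  · by_cases h2 : ord d' < ord d
    · simp [h, h2, cmp]
    · simp [h, h2, cmp]
  · simp [h]

theorem bb_letter (w : Fin (N + 1) → Fin k) (ord : Ed N M × Bool → ℕ) (y : Ed N M → K)
    (c : Fin (N + 1)) :
    bb (tail w) ord y (Sum.inr (c, Fin.last M), true) =
      ∑ c' : Fin (N + 1), if w c' = w c then
        cmp ord (Sum.inr (c', Fin.last M), true) (Sum.inr (c, Fin.last M), true) *
          y (Sum.inr (c', Fin.last M)) else 0 := by
  rw [← at_letter w (fun d' => cmp ord d' (Sum.inr (c, Fin.last M), true) * y d'.1) (w c), bb]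
  apply Finset.sum_congr rfl
  intro d' _
  rw [tail_T]
  by_cases h : tail w d' = Sum.inr (w c)
  · by_cases h2 : ord d' < ord (Sum.inr (c, Fin.last M), true)
    · simp [h, h2, cmp]
    · simp [h, h2, cmp]
  · simp [h]

theorem isEven_of (w : Fin (N + 1) → Fin k) (y : Ed N M → K)
    (h1 : ∀ (c : Fin (N + 1)) (r : Fin (M + 1)),
      ((if h : c.val < N then y (Sum.inl (⟨c.val, h⟩, r)) else 0) +
      (if h : 0 < c.val then y (Sum.inl (⟨c.val - 1, by omega⟩, r)) else 0)) +
      (y (Sum.inr (c, r)) +
      (if h : 0 < r.val then y (Sum.inr (c, ⟨r.val - 1, by omega⟩)) else 0)) = 0)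
    (h2 : ∀ l, (∑ c : Fin (N + 1), if w c = l then y (Sum.inr (c, Fin.last M)) else 0) = 0) :
    IsEven (tail w) y := by
  intro v
  rcases v with ⟨c, r⟩ | l
  · rw [at_grid w (fun d => y d.1) c r]
    exact h1 c r
  · rw [at_letter w (fun d => y d.1) l]
    exact h2 l

end TH482.HT
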