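import Mathlib
import Pool.Agent.KS6_39.HB.Grid

/-! # Rectangles in the grid; a strip that is not flat carries a handle -/

namespace TH482.HT

open Equiv Module

variable {N M k : ℕ}

/-- boundary of the rectangle with corners `(c1, r1)` and `(c2, r2)` -/
def rect (c1 c2 r1 r2 : ℕ) : Ed N M → K
  | Sum.inl (c, r) => if c1 ≤ c.val ∧ c.val < c2 ∧ (r.val = r1 ∨ r.val = r2) then 1 else 0
  | Sum.inr (c, r) => if r1 ≤ r.val ∧ r.val < r2 ∧ (c.val = c1 ∨ c.val = c2) then 1 else 0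

theorem rect_inl (c1 c2 r1 r2 : ℕ) (c : Fin N) (r : Fin (M + 1)) :
    (rect c1 c2 r1 r2 : Ed N M → K) (Sum.inl (c, r)) =
      if c1 ≤ c.val ∧ c.val < c2 ∧ (r.val = r1 ∨ r.val = r2) then 1 else 0 := rfl

theorem rect_inr (c1 c2 r1 r2 : ℕ) (c : Fin (N + 1)) (r : Fin (M + 1)) :
    (rect c1 c2 r1 r2 : Ed N M → K) (Sum.inr (c, r)) =
      if r1 ≤ r.val ∧ r.val < r2 ∧ (c.val = c1 ∨ c.val = c2) then 1 else 0 := rfl

theorem rect_even (w : Fin (N + 1) → Fin k) {c1 c2 r1 r2 : ℕ} (hc : c1 < c2) (hc' : c2 ≤ N)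
    (hr : r1 < r2) (hr' : r2 ≤ M) : IsEven (tail w) (rect c1 c2 r1 r2 : Ed N M → K) := by
  apply isEven_of
  · rintro ⟨c, hcN⟩ ⟨r, hrM⟩
    simp only [rect_inl, rect_inr]
    split_ifs <;> first | rfl | (exfalso; omega)
  · intro l
    apply Finset.sum_eq_zero
    intro c _
    rw [rect_inr]
    have : ¬ (r1 ≤ (Fin.last M).val ∧ (Fin.last M).val < r2 ∧ (c.val = c1 ∨ c.val = c2)) := by
      simp only [Fin.val_last]; omega
    rw [if_neg this, ite_self]

def rowOf : Vt N M k → ℕ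
  | Sum.inl (_, r) => r.val
  | Sum.inr _ => M + 1

def Supp (w : Fin (N + 1) → Fin k) (y : Ed N M → K) (a b : ℕ) : Prop :=
  ∀ d, y d.1 ≠ 0 → a ≤ rowOf (tail w d) ∧ rowOf (tail w d) ≤ b

theorem rect_supp (w : Fin (N + 1) → Fin k) {c1 c2 r1 r2 : ℕ}
    (hr : r1 < r2) (hr' : r2 ≤ M) : Supp w (rect c1 c2 r1 r2 : Ed N M → K) r1 r2 := by
  rintro ⟨⟨c, r⟩ | ⟨c, r⟩, b⟩ h
  · rw [rect_inl] at h
    have h2 : c1 ≤ c.val ∧ c.val < c2 ∧ (r.val = r1 ∨ r.val = r2) := by
      by_contra h3; rw [if_neg h3] at h; exact h rfl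
    cases b
    · rw [tail_R]; simp only [rowOf]; omega
    · rw [tail_L]; simp only [rowOf]; omega
  · rw [rect_inr] at h
    have h2 : r1 ≤ r.val ∧ r.val < r2 ∧ (c.val = c1 ∨ c.val = c2) := by
      by_contra h3; rw [if_neg h3] at h; exact h rfl
    cases b
    · rw [tail_U]; simp only [rowOf]; omega
    · rw [tail_D' w c r (by omega)]; simp only [rowOf]; omega

theorem bb_supp (w : Fin (N + 1) → Fin k) (ord : Ed N M × Bool → ℕ) {y : Ed N M → K} {a b : ℕ}
    (hy : Supp w y a b) {d : Ed N M × Bool}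
    (hd : rowOf (tail w d) < a ∨ b < rowOf (tail w d)) : bb (tail w) ord y d = 0 := by
  apply bb_eq_zero
  intro d' hd'
  by_contra hne
  have := hy d' hne
  rw [hd'] at this
  omega

theorem gg_supp (w : Fin (N + 1) → Fin k) (ord : Ed N M × Bool → ℕ) {x y : Ed N M → K}
    {a b a' b' : ℕ} (hx : Supp w x a b) (hy : Supp w y a' b') (h : b < a' ∨ b' < a) :
    gg (tail w) ord x y = 0 := by
  rw [gg]
  apply Finset.sum_eq_zero
  intro e _
  by_cases hx0 : x e = 0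
  · rw [hx0, zero_mul]
  · have h1 := hx (e, false) hx0
    have h2 := hx (e, true) hx0
    have h3 : bb (tail w) ord y (e, false) = 0 := bb_supp w ord hy (by omega)
    have h4 : bb (tail w) ord y (e, true) = 0 := bb_supp w ord hy (by omega)
    have h5 : y e = 0 := by
      by_contra hne
      have := hy (e, false) hne
      omega
    rw [h3, h4, h5]; simp

/-- the cyclic orientation of the darts left, right, up at `(c, r)` -/
def eta (ord : Ed N M × Bool → ℕ) (r : Fin (M + 1)) (c : ℕ) : K :=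
  if h : 0 < c ∧ c < N then
    cmp ord (Sum.inl (⟨c - 1, by omega⟩, r), true) (Sum.inl (⟨c, h.2⟩, r), false) +
    cmp ord (Sum.inl (⟨c - 1, by omega⟩, r), true) (Sum.inr (⟨c, by omega⟩, r), false) +
    cmp ord (Sum.inl (⟨c, h.2⟩, r), false) (Sum.inr (⟨c, by omega⟩, r), false)
  else 0

theorem bb_rect_top (w : Fin (N + 1) → Fin k) (ord : Ed N M × Bool → ℕ) {t ρ c : ℕ}
    (hρ : 1 ≤ ρ) (hρM : ρ + 1 ≤ M) (ht : t + 3 ≤ N) (hc : t < c) (hc' : c < t + 3)
    (d : Ed N M × Bool)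
    (hd : tail w d = Sum.inl ((⟨c, by omega⟩ : Fin (N + 1)), (⟨ρ, by omega⟩ : Fin (M + 1)))) :
    bb (tail w) ord (rect t (t + 3) (ρ - 1) ρ) d =
      cmp ord (Sum.inl (⟨c, by omega⟩, ⟨ρ, by omega⟩), false) d +
      cmp ord (Sum.inl (⟨c - 1, by omega⟩, ⟨ρ, by omega⟩), true) d := by
  rw [bb_grid w ord _ d _ _ hd]
  have q1 : (rect t (t + 3) (ρ - 1) ρ : Ed N M → K) (Sum.inl (⟨c, by omega⟩, ⟨ρ, by omega⟩)) = 1 :=
    if_pos (show t ≤ c ∧ c < t + 3 ∧ (ρ = ρ - 1 ∨ ρ = ρ) by omega)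
  have q2 : (rect t (t + 3) (ρ - 1) ρ : Ed N M → K)
      (Sum.inl (⟨c - 1, by omega⟩, ⟨ρ, by omega⟩)) = 1 :=
    if_pos (show t ≤ c - 1 ∧ c - 1 < t + 3 ∧ (ρ = ρ - 1 ∨ ρ = ρ) by omega)
  have q3 : (rect t (t + 3) (ρ - 1) ρ : Ed N M → K) (Sum.inr (⟨c, by omega⟩, ⟨ρ, by omega⟩)) = 0 :=
    if_neg (show ¬ (ρ - 1 ≤ ρ ∧ ρ < ρ ∧ (c = t ∨ c = t + 3)) by omega)
  have q4 : (rect t (t + 3) (ρ - 1) ρ : Ed N M → K)
      (Sum.inr (⟨c, by omega⟩, ⟨ρ - 1, by omega⟩)) = 0 :=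
    if_neg (show ¬ (ρ - 1 ≤ ρ - 1 ∧ ρ - 1 < ρ ∧ (c = t ∨ c = t + 3)) by omega)
  rw [dif_pos (show c < N by omega), dif_pos (show 0 < c by omega),
    dif_pos (show 0 < ρ by omega), q1, q2, q3, q4]
  ring

theorem sum_two {ι : Type} [Fintype ι] [DecidableEq ι] (q g : ι → K) (x1 x2 : ι)
    (h : ∀ x, q x = (if x = x1 then 1 else 0) + (if x = x2 then 1 else 0)) :
    ∑ x, q x * g x = g x1 + g x2 := by
  simp only [h, add_mul, Finset.sum_add_distrib, ite_mul, one_mul, zero_mul, Finset.sum_ite_eq',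
    Finset.mem_univ, if_true]

theorem gg_QR {rot : Perm (Ed N M × Bool)} {w : Fin (N + 1) → Fin k}
    {ord : Ed N M × Bool → ℕ} (ho : IsOrd rot (tail w) ord) {t ρ : ℕ}
    (hρ : 1 ≤ ρ) (hρM : ρ + 1 ≤ M) (ht : t + 3 ≤ N) :
    gg (tail w) ord (rect (t + 1) (t + 2) ρ (ρ + 1)) (rect t (t + 3) (ρ - 1) ρ) =
      eta ord ⟨ρ, by omega⟩ (t + 1) + eta ord ⟨ρ, by omega⟩ (t + 2) := by
  have hsupp : Supp w (rect t (t + 3) (ρ - 1) ρ : Ed N M → K) (ρ - 1) ρ :=
    rect_supp w (by omega) (by omega)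
  rw [gg, Fintype.sum_sum_type]
  rw [sum_two (fun x => (rect (t + 1) (t + 2) ρ (ρ + 1) : Ed N M → K) (Sum.inl x)) _
    (⟨t + 1, by omega⟩, ⟨ρ, by omega⟩) (⟨t + 1, by omega⟩, ⟨ρ + 1, by omega⟩),
    sum_two (fun x => (rect (t + 1) (t + 2) ρ (ρ + 1) : Ed N M → K) (Sum.inr x)) _
    (⟨t + 1, by omega⟩, ⟨ρ, by omega⟩) (⟨t + 2, by omega⟩, ⟨ρ, by omega⟩)]
  · have a1 := bb_rect_top w ord hρ hρM ht (show t < t + 1 by omega) (by omega)
      (Sum.inl (⟨t + 1, by omega⟩, ⟨ρ, by omega⟩), false) rfl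
    have a2 := bb_rect_top w ord hρ hρM ht (show t < t + 2 by omega) (by omega)
      (Sum.inl (⟨t + 1, by omega⟩, ⟨ρ, by omega⟩), true) rfl
    have a3 := bb_rect_top w ord hρ hρM ht (show t < t + 1 by omega) (by omega)
      (Sum.inr (⟨t + 1, by omega⟩, ⟨ρ, by omega⟩), false) rfl
    have a4 := bb_rect_top w ord hρ hρM ht (show t < t + 2 by omega) (by omega)
      (Sum.inr (⟨t + 2, by omega⟩, ⟨ρ, by omega⟩), false) rfl
    have z1 : bb (tail w) ord (rect t (t + 3) (ρ - 1) ρ)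
        (Sum.inl (⟨t + 1, by omega⟩, ⟨ρ + 1, by omega⟩), false) = 0 :=
      bb_supp w ord hsupp (by rw [tail_R]; simp only [rowOf]; omega)
    have z2 : bb (tail w) ord (rect t (t + 3) (ρ - 1) ρ)
        (Sum.inl (⟨t + 1, by omega⟩, ⟨ρ + 1, by omega⟩), true) = 0 :=
      bb_supp w ord hsupp (by rw [tail_L]; simp only [rowOf]; omega)
    have z3 : bb (tail w) ord (rect t (t + 3) (ρ - 1) ρ)
        (Sum.inr (⟨t + 1, by omega⟩, ⟨ρ, by omega⟩), true) = 0 :=
      bb_supp w ord hsupp (by rw [tail_D' _ _ _ (by simp only; omega)]; simp only [rowOf]; omega)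
    have z4 : bb (tail w) ord (rect t (t + 3) (ρ - 1) ρ)
        (Sum.inr (⟨t + 2, by omega⟩, ⟨ρ, by omega⟩), true) = 0 :=
      bb_supp w ord hsupp (by rw [tail_D' _ _ _ (by simp only; omega)]; simp only [rowOf]; omega)
    have q1 : (rect t (t + 3) (ρ - 1) ρ : Ed N M → K)
        (Sum.inl (⟨t + 1, by omega⟩, ⟨ρ, by omega⟩)) = 1 :=
      if_pos (show t ≤ t + 1 ∧ t + 1 < t + 3 ∧ (ρ = ρ - 1 ∨ ρ = ρ) by omega)
    have q2 : (rect t (t + 3) (ρ - 1) ρ : Ed N M → K)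
        (Sum.inl (⟨t + 1, by omega⟩, ⟨ρ + 1, by omega⟩)) = 0 :=
      if_neg (show ¬ (t ≤ t + 1 ∧ t + 1 < t + 3 ∧ (ρ + 1 = ρ - 1 ∨ ρ + 1 = ρ)) by omega)
    have q3 : (rect t (t + 3) (ρ - 1) ρ : Ed N M → K)
        (Sum.inr (⟨t + 1, by omega⟩, ⟨ρ, by omega⟩)) = 0 :=
      if_neg (show ¬ (ρ - 1 ≤ ρ ∧ ρ < ρ ∧ (t + 1 = t ∨ t + 1 = t + 3)) by omega)
    have q4 : (rect t (t + 3) (ρ - 1) ρ : Ed N M → K)
        (Sum.inr (⟨t + 2, by omega⟩, ⟨ρ, by omega⟩)) = 0 :=
      if_neg (show ¬ (ρ - 1 ≤ ρ ∧ ρ < ρ ∧ (t + 2 = t ∨ t + 2 = t + 3)) by omega)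
    simp only [Nat.add_sub_cancel, show t + 2 - 1 = t + 1 by omega] at a1 a2 a3 a4
    rw [a1, a2, a3, a4, z1, z2, z3, z4, q1, q2, q3, q4, cmp_self, cmp_self]
    rw [eta, eta, dif_pos (by omega), dif_pos (by omega)]
    have hs : cmp ord (Sum.inl ((⟨t + 2, by omega⟩ : Fin N), (⟨ρ, by omega⟩ : Fin (M + 1))), false)
        (Sum.inl ((⟨t + 1, by omega⟩ : Fin N), (⟨ρ, by omega⟩ : Fin (M + 1))), true) =
        1 + cmp ord (Sum.inl ((⟨t + 1, by omega⟩ : Fin N), (⟨ρ, by omega⟩ : Fin (M + 1))), true)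
        (Sum.inl ((⟨t + 2, by omega⟩ : Fin N), (⟨ρ, by omega⟩ : Fin (M + 1))), false) :=
      cmp_swap ho rfl (by simp)
    simp only [Nat.add_sub_cancel, show t + 2 - 1 = t + 1 by omega]
    rw [hs]
    have h2 : (2 : K) = 0 := rfl
    linear_combination (1 : K) * h2
  · rintro ⟨⟨c, hcN⟩, ⟨r, hrM⟩⟩
    simp only [rect_inr, Prod.mk.injEq, Fin.mk.injEq]
    split_ifs <;> first | rfl | (exfalso; omega)
  · rintro ⟨⟨c, hcN⟩, ⟨r, hrM⟩⟩
    simp only [rect_inl, Prod.mk.injEq, Fin.mk.injEq]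
    split_ifs <;> first | rfl | (exfalso; omega)

/-- rows of the Gram matrix of `m` handles -/
def hrow (i : ℕ) : ℕ := 2 ^ (if i % 2 = 0 then i + 1 else i - 1)

theorem nonflat_bound {rot : Perm (Ed N M × Bool)} {w : Fin (N + 1) → Fin k}
    {ord : Ed N M × Bool → ℕ} (ho : IsOrd rot (tail w) ord) (hc : Conn rot) (m : ℕ)
    (hm : 3 * m ≤ M + 1) (hN : 0 < N)
    (h : ∀ s, s < m → ∃ t, t + 3 ≤ N ∧ ∀ h : 3 * s + 1 < M + 1,
      eta ord ⟨3 * s + 1, h⟩ (t + 1) ≠ eta ord ⟨3 * s + 1, h⟩ (t + 2)) :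
    elim (2 * m) ((List.range (2 * m)).map hrow) + numOrbits rot + numOrbits (rot * flip) ≤
      Fintype.card (Ed N M) + 2 := by
  have : Nonempty (Ed N M) := ⟨Sum.inl (⟨0, hN⟩, 0)⟩
  choose! t ht ht2 using h
  let y : ℕ → Ed N M → K := fun j => if j < 2 * m then
      (if j % 2 = 0 then rect (t (j / 2) + 1) (t (j / 2) + 2) (3 * (j / 2) + 1) (3 * (j / 2) + 2)
       else rect (t (j / 2)) (t (j / 2) + 3) (3 * (j / 2)) (3 * (j / 2) + 1)) else 0
  have hy : ∀ j, IsEven (tail w) (y j) := by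
    intro j
    simp only [y]
    by_cases hj : j < 2 * m
    · have h1 := ht (j / 2) (by omega)
      rw [if_pos hj]
      by_cases hj2 : j % 2 = 0
      · rw [if_pos hj2]
        exact rect_even w (by omega) (by omega) (by omega) (by omega)
      · rw [if_neg hj2]
        exact rect_even w (by omega) (by omega) (by omega) (by omega)
    · rw [if_neg hj]
      intro v
      simp
  have hsupp : ∀ j, j < 2 * m → Supp w (y j) (3 * (j / 2)) (3 * (j / 2) + 2) := by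
    intro j hj
    simp only [y]
    rw [if_pos hj]
    by_cases hj2 : j % 2 = 0
    · rw [if_pos hj2]
      intro d hd
      have := rect_supp w (c1 := t (j / 2) + 1) (c2 := t (j / 2) + 2)
        (show 3 * (j / 2) + 1 < 3 * (j / 2) + 2 by omega) (by omega) d hd
      omega
    · rw [if_neg hj2]
      intro d hd
      have := rect_supp w (c1 := t (j / 2)) (c2 := t (j / 2) + 3)
        (show 3 * (j / 2) < 3 * (j / 2) + 1 by omega) (by omega) d hd
      omega
  have hQR : ∀ s, s < m → gg (tail w) ord (y (2 * s)) (y (2 * s + 1)) = 1 := by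
    intro s hs
    have e1 : (2 * s) / 2 = s := by omega
    have e2 : (2 * s + 1) / 2 = s := by omega
    simp only [y]
    rw [if_pos (by omega), if_pos (by omega), if_pos (by omega), if_neg (by omega), e1, e2]
    have h1 := gg_QR (ord := ord) ho (t := t s) (ρ := 3 * s + 1) (by omega) (by omega) (ht s hs)
    have h2 := ht2 s hs (by omega)
    simp only [Nat.add_sub_cancel] at h1
    rw [h1]
    revert h2
    generalize eta ord _ (t s + 1) = a
    generalize eta ord _ (t s + 2) = b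
    revert a b
    decide
  refine rank_bound ho hc (2 * m) y hy hrow ?_ (2 * m)
  intro i hi j
  have hv : vec (hrow i) j = if (if i % 2 = 0 then i + 1 else i - 1) = j then 1 else 0 := by
    rw [vec, hrow, Nat.testBit_two_pow]
    simp
  rw [hv]
  by_cases hj : j < 2 * m
  · by_cases hij : i / 2 = j / 2
    · rcases Nat.mod_two_eq_zero_or_one i with hi2 | hi2 <;>
        rcases Nat.mod_two_eq_zero_or_one j with hj2 | hj2
      · have : i = j := by omega
        subst this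
        have hp : (if i % 2 = 0 then i + 1 else i - 1) = i + 1 := if_pos hi2
        rw [gg_self ho (hy i), hp, if_neg (by omega)]
      · have e1 : 2 * (i / 2) = i := by omega
        have e2 : 2 * (i / 2) + 1 = j := by omega
        have h3 := hQR (i / 2) (by omega)
        rw [e2, e1] at h3
        have hp : (if i % 2 = 0 then i + 1 else i - 1) = i + 1 := if_pos hi2
        rw [h3, hp, if_pos (by omega)]
      · have e1 : 2 * (j / 2) + 1 = i := by omega
        have e2 : 2 * (j / 2) = j := by omega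
        have h3 := hQR (j / 2) (by omega)
        rw [e1, e2, gg_symm ho (hy _) (hy _)] at h3
        have hp : (if i % 2 = 0 then i + 1 else i - 1) = i - 1 := if_neg (by omega)
        rw [h3, hp, if_pos (by omega)]
      · have : i = j := by omega
        subst this
        have hp : (if i % 2 = 0 then i + 1 else i - 1) = i - 1 := if_neg (by omega)
        rw [gg_self ho (hy i), hp, if_neg (by omega)]
    · rw [gg_supp w ord (hsupp i hi) (hsupp j hj) (by omega)]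
      have hp : (if i % 2 = 0 then i + 1 else i - 1) ≠ j := by
        split_ifs <;> omega
      rw [if_neg hp]
  · have : y j = 0 := by simp only [y]; rw [if_neg hj]
    rw [this]
    have h0 : gg (tail w) ord (y i) 0 = 0 := by
      rw [gg]
      apply Finset.sum_eq_zero
      intro e _
      rw [bb_eq_zero (fun _ _ => rfl), bb_eq_zero (fun _ _ => rfl)]
      simp
    have hp : (if i % 2 = 0 then i + 1 else i - 1) ≠ j := by
      split_ifs <;> omega
    rw [h0, if_neg hp]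

end TH482.HT
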