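import Mathlib
import Pool.Agent.KS6_39.HB.Strip

/-! # The intersection form of a flat strip -/

namespace TH482.HT

open Equiv Module

variable {N M k : ℕ}

def pre (x : Fin (N + 1) → K) (c : ℕ) : K := ∑ s : Fin (N + 1), if s.val < c then x s else 0

theorem pre_zero (x : Fin (N + 1) → K) : pre x 0 = 0 := by
  simp [pre]

theorem pre_succ (x : Fin (N + 1) → K) (c : Fin (N + 1)) :
    pre x (c.val + 1) = pre x c.val + x c := by
  have hx : x c = ∑ s : Fin (N + 1), if s = c then x s else 0 := by simp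
  rw [pre, pre, hx, ← Finset.sum_add_distrib]
  apply Finset.sum_congr rfl
  intro s _
  rcases Nat.lt_trichotomy s.val c.val with h | h | h
  · rw [if_pos (by omega), if_pos h, if_neg (by rintro rfl; omega), add_zero]
  · have : s = c := Fin.ext h
    subst this
    rw [if_pos (by omega), if_neg (by omega), if_pos rfl, zero_add]
  · rw [if_neg (by omega), if_neg (by omega), if_neg (by rintro rfl; omega), add_zero]

def LetterEven (w : Fin (N + 1) → Fin k) (x : Fin (N + 1) → K) : Prop :=
  ∀ l, (∑ c : Fin (N + 1), if w c = l then x c else 0) = 0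

theorem pre_last {w : Fin (N + 1) → Fin k} {x : Fin (N + 1) → K} (hx : LetterEven w x) :
    pre x (N + 1) = 0 := by
  have h1 : pre x (N + 1) = ∑ c, x c := by
    rw [pre]
    exact Finset.sum_congr rfl fun s _ => if_pos s.2
  have h2 : ∑ l, (∑ c : Fin (N + 1), if w c = l then x c else 0) = ∑ c, x c := by
    rw [Finset.sum_comm]
    exact Finset.sum_congr rfl fun c _ => by simp
  rw [h1, ← h2]
  exact Finset.sum_eq_zero fun l _ => hx l

/-- cycles through a flat row -/
def cyc (ρ : ℕ) (x : Fin (N + 1) → K) : Ed N M → K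
  | Sum.inl (c, r) => if r.val = ρ then pre x (c.val + 1) else 0
  | Sum.inr (c, r) => if ρ ≤ r.val then x c else 0

theorem cyc_inl (ρ : ℕ) (x : Fin (N + 1) → K) (c : Fin N) (r : Fin (M + 1)) :
    (cyc ρ x : Ed N M → K) (Sum.inl (c, r)) = if r.val = ρ then pre x (c.val + 1) else 0 := rfl

theorem cyc_inr (ρ : ℕ) (x : Fin (N + 1) → K) (c : Fin (N + 1)) (r : Fin (M + 1)) :
    (cyc ρ x : Ed N M → K) (Sum.inr (c, r)) = if ρ ≤ r.val then x c else 0 := rfl

theorem cyc_even {w : Fin (N + 1) → Fin k} {x : Fin (N + 1) → K} (hx : LetterEven w x) (ρ : ℕ)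
    (hρ : ρ ≤ M) : IsEven (tail w) (cyc ρ x : Ed N M → K) := by
  have h2 : (2 : K) = 0 := rfl
  apply isEven_of
  · rintro c r
    simp only [cyc_inl, cyc_inr]
    have e1 : (if h : c.val < N then (if r.val = ρ then pre x (c.val + 1) else 0) else 0) =
        if r.val = ρ then pre x (c.val + 1) else 0 := by
      by_cases h : c.val < N
      · rw [dif_pos h]
      · rw [dif_neg h]
        have : c.val = N := by have := c.2; omega
        rw [this, pre_last hx, ite_self]
    have e2 : (if h : 0 < c.val then (if r.val = ρ then pre x (c.val - 1 + 1) else 0) else 0) =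
        if r.val = ρ then pre x c.val else 0 := by
      by_cases h : 0 < c.val
      · rw [dif_pos h, Nat.sub_add_cancel h]
      · rw [dif_neg h]
        have : c.val = 0 := by omega
        rw [this, pre_zero, ite_self]
    rw [e1, e2, pre_succ]
    rcases Nat.lt_trichotomy r.val ρ with h | h | h
    · rw [if_neg (by omega), if_neg (by omega), if_neg (by omega)]
      by_cases hr : 0 < r.val
      · rw [dif_pos hr, if_neg (by omega)]; simp
      · rw [dif_neg hr]; simp
    · rw [if_pos h, if_pos h, if_pos (by omega)]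
      by_cases hr : 0 < r.val
      · rw [dif_pos hr, if_neg (by omega)]
        linear_combination (pre x c.val + x c) * h2
      · rw [dif_neg hr]
        linear_combination (pre x c.val + x c) * h2
    · rw [if_neg (by omega), if_neg (by omega), if_pos (by omega), dif_pos (by omega),
        if_pos (by omega)]
      linear_combination (x c) * h2
  · intro l
    refine Eq.trans (Finset.sum_congr rfl ?_) (hx l)
    intro c _
    have h3 : (cyc ρ x : Ed N M → K) (Sum.inr (c, Fin.last M)) = x c :=
      if_pos (show ρ ≤ (Fin.last M).val from hρ)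
    rw [h3]

theorem tele (a b : ℕ → K) (y : K) (ρ : ℕ) : ∀ M, ρ ≤ M →
    (∀ r, ρ ≤ r → r < M → b r + a (r + 1) = y) →
    ∑ r ∈ Finset.range (M + 1), (if ρ ≤ r then a r + b r + y else 0) = a ρ + b M + y := by
  intro M hM
  induction M, hM using Nat.le_induction with
  | base =>
    intro _
    rw [Finset.sum_range_succ, if_pos le_rfl, Finset.sum_eq_zero, zero_add]
    intro r hr
    rw [Finset.mem_range] at hr
    rw [if_neg (by omega)]
  | succ n hn ih =>
    intro h
    rw [Finset.sum_range_succ, ih (fun r h1 h2 => h r h1 (by omega)), if_pos (by omega)]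
    have h1 := h n hn (by omega)
    have h2 : (2 : K) = 0 := rfl
    linear_combination h1 + y * h2

theorem tele_fin (f g : Fin (M + 1) → K) (y : K) (ρ : Fin (M + 1))
    (h : ∀ (r : Fin (M + 1)) (hr : r.val + 1 < M + 1), ρ.val ≤ r.val →
      g r + f ⟨r.val + 1, hr⟩ = y) :
    ∑ r : Fin (M + 1), (if ρ.val ≤ r.val then f r + g r + y else 0) =
      f ρ + g (Fin.last M) + y := by
  let a : ℕ → K := fun n => if h : n < M + 1 then f ⟨n, h⟩ else 0
  let b : ℕ → K := fun n => if h : n < M + 1 then g ⟨n, h⟩ else 0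
  have h1 := tele a b y ρ.val M (by have := ρ.2; omega) (by
    intro r h1 h2
    simp only [a, b]
    rw [dif_pos (by omega), dif_pos (by omega)]
    exact h ⟨r, by omega⟩ (by simp only; omega) h1)
  rw [← Fin.sum_univ_eq_sum_range] at h1
  simp only [a, b, Fin.is_lt, dif_pos, Fin.eta] at h1
  rw [h1, dif_pos (by omega)]
  rfl

variable {rot : Perm (Ed N M × Bool)} {w : Fin (N + 1) → Fin k} {ord : Ed N M × Bool → ℕ}

/-- value of `bb` on a dart at the flat row -/
theorem bb_row (y : Fin (N + 1) → K) (ρ : Fin (M + 1)) (c : Fin (N + 1)) (d : Ed N M × Bool)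
    (hd : tail w d = Sum.inl (c, ρ)) :
    bb (tail w) ord (cyc ρ.val y) d =
      ((if h : c.val < N then cmp ord (Sum.inl (⟨c.val, h⟩, ρ), false) d *
          pre y (c.val + 1) else 0) +
      (if h : 0 < c.val then cmp ord (Sum.inl (⟨c.val - 1, by omega⟩, ρ), true) d *
          pre y c.val else 0)) +
      cmp ord (Sum.inr (c, ρ), false) d * y c := by
  rw [bb_grid w ord _ d c ρ hd]
  simp only [cyc_inl, cyc_inr, if_true, le_refl]
  have e2 : (if h : 0 < c.val then cmp ord (Sum.inl (⟨c.val - 1, by omega⟩, ρ), true) d *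
          pre y (c.val - 1 + 1) else 0) =
      (if h : 0 < c.val then cmp ord (Sum.inl (⟨c.val - 1, by omega⟩, ρ), true) d *
          pre y c.val else 0) := by
    by_cases h : 0 < c.val
    · rw [dif_pos h, dif_pos h, Nat.sub_add_cancel h]
    · rw [dif_neg h, dif_neg h]
  have e3 : (if h : 0 < ρ.val then cmp ord (Sum.inr (c, ⟨ρ.val - 1, by omega⟩), true) d *
          (if ρ.val ≤ ρ.val - 1 then y c else 0) else 0) = 0 := by
    by_cases h : 0 < ρ.val
    · rw [dif_pos h, if_neg (by omega), mul_zero]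
    · rw [dif_neg h]
  rw [e2, e3, add_zero]

theorem bb_col (ho : IsOrd rot (tail w) ord) (y : Fin (N + 1) → K) (ρ : Fin (M + 1))
    (c : Fin (N + 1)) (r : Fin (M + 1)) (hr : r.val + 1 < M + 1) (h : ρ.val ≤ r.val) :
    bb (tail w) ord (cyc ρ.val y) (Sum.inr (c, r), true) +
      bb (tail w) ord (cyc ρ.val y) (Sum.inr (c, ⟨r.val + 1, hr⟩), false) = y c := by
  have key : ∀ d : Ed N M × Bool, tail w d = Sum.inl (c, ⟨r.val + 1, hr⟩) →
      bb (tail w) ord (cyc ρ.val y) d = cmp ord (Sum.inr (c, ⟨r.val + 1, hr⟩), false) d * y c +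
        cmp ord (Sum.inr (c, r), true) d * y c := by
    intro d hd
    rw [bb_grid w ord _ d c ⟨r.val + 1, hr⟩ hd]
    have q1 : ∀ c' : Fin N, (cyc ρ.val y : Ed N M → K) (Sum.inl (c', ⟨r.val + 1, hr⟩)) = 0 :=
      fun c' => if_neg (show ¬ r.val + 1 = ρ.val by omega)
    have q2 : (cyc ρ.val y : Ed N M → K) (Sum.inr (c, ⟨r.val + 1, hr⟩)) = y c :=
      if_pos (show ρ.val ≤ r.val + 1 by omega)
    have q3 : (cyc ρ.val y : Ed N M → K) (Sum.inr (c, r)) = y c := if_pos h
    have q4 : 0 < (⟨r.val + 1, hr⟩ : Fin (M + 1)).val := Nat.succ_pos _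
    rw [dif_pos q4, q2]
    simp only [q1, mul_zero, dite_eq_ite, ite_self, zero_add]
    have e : (⟨r.val + 1 - 1, by omega⟩ : Fin (M + 1)) = r := rfl
    simp only [Nat.add_sub_cancel, Fin.eta, q3]
  rw [key _ (tail_D' w c r hr), key _ rfl, cmp_self, cmp_self,
    cmp_swap ho (d := (Sum.inr (c, r), true)) (d' := (Sum.inr (c, ⟨r.val + 1, hr⟩), false))
      (tail_D' w c r hr) (by simp)]
  have h2 : (2 : K) = 0 := rfl
  linear_combination (cmp ord (Sum.inr (c, (⟨r.val + 1, hr⟩ : Fin (M + 1))), false)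
    (Sum.inr (c, r), true) * y c) * h2

/-- the local contribution of the vertex `(c, ρ)` -/
theorem lam_eq (ho : IsOrd rot (tail w) ord) {x y : Fin (N + 1) → K} (hx : LetterEven w x)
    (hy : LetterEven w y) (ρ : Fin (M + 1)) (η : K) (hη : ∀ c, 0 < c → c < N → eta ord ρ c = η)
    (hN : 0 < N) (c : Fin (N + 1)) :
    x c * bb (tail w) ord (cyc ρ.val y) (Sum.inr (c, ρ), false) +
    (if h : c.val < N then pre x (c.val + 1) *
      bb (tail w) ord (cyc ρ.val y) (Sum.inl (⟨c.val, h⟩, ρ), false) else 0) +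
    (if h : 0 < c.val then pre x c.val *
      bb (tail w) ord (cyc ρ.val y) (Sum.inl (⟨c.val - 1, by omega⟩, ρ), true) else 0) =
    x c * y c + pre x c.val * pre y c.val + η * (x c * pre y c.val) +
      (1 + η) * (pre x c.val * y c) := by
  have h2 : (2 : K) = 0 := rfl
  by_cases hc : c.val < N
  · have tR : tail w (Sum.inl ((⟨c.val, hc⟩ : Fin N), ρ), false) = Sum.inl (c, ρ) := rfl
    rw [dif_pos hc, bb_row y ρ c _ rfl, bb_row y ρ c _ tR, dif_pos hc, dif_pos hc, cmp_self,
      cmp_self, pre_succ, pre_succ]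
    have hUR := cmp_swap ho (d := (Sum.inr (c, ρ), false))
      (d' := (Sum.inl ((⟨c.val, hc⟩ : Fin N), ρ), false)) rfl (by simp)
    by_cases hc0 : 0 < c.val
    · have hlt : c.val - 1 < N := by omega
      have tL : tail w (Sum.inl ((⟨c.val - 1, hlt⟩ : Fin N), ρ), true) = Sum.inl (c, ρ) := by
        rw [tail_L]
        congr 1
        rw [Prod.mk.injEq]
        refine ⟨?_, rfl⟩
        apply Fin.ext
        simp only [Fin.val_succ]
        omega
      rw [dif_pos hc0, dif_pos hc0, dif_pos hc0, bb_row y ρ c _ tL, dif_pos hc, dif_pos hc0,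
        cmp_self, pre_succ]
      have he := hη c.val hc0 hc
      rw [eta, dif_pos ⟨hc0, hc⟩] at he
      have hUL := cmp_swap ho (d := (Sum.inr (c, ρ), false))
        (d' := (Sum.inl ((⟨c.val - 1, hlt⟩ : Fin N), ρ), true)) (by rw [tL]; rfl) (by simp)
      have hRL := cmp_swap ho (d := (Sum.inl ((⟨c.val, hc⟩ : Fin N), ρ), false))
        (d' := (Sum.inl ((⟨c.val - 1, hlt⟩ : Fin N), ρ), true)) (by rw [tL, tR]) (by simp)
      rw [hUR, hUL, hRL, ← he]
      have hcc : (⟨c.val, by omega⟩ : Fin (N + 1)) = c := rfl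
      rw [hcc]
      generalize cmp ord (Sum.inl ((⟨c.val - 1, hlt⟩ : Fin N), ρ), true)
        (Sum.inl ((⟨c.val, hc⟩ : Fin N), ρ), false) = p
      generalize cmp ord (Sum.inl ((⟨c.val - 1, hlt⟩ : Fin N), ρ), true)
        (Sum.inr (c, ρ), false) = q
      generalize cmp ord (Sum.inl ((⟨c.val, hc⟩ : Fin N), ρ), false) (Sum.inr (c, ρ), false) = r
      linear_combination (r * x c * y c + p * pre x c.val * pre y c.val +
        pre x c.val * y c) * h2
    · have hc00 : c.val = 0 := by omega
      have p1 : pre x c.val = 0 := by rw [hc00]; exact pre_zero x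
      have p2 : pre y c.val = 0 := by rw [hc00]; exact pre_zero y
      rw [dif_neg hc0, dif_neg hc0, dif_neg hc0, hUR, p1, p2]
      generalize cmp ord (Sum.inl ((⟨c.val, hc⟩ : Fin N), ρ), false) (Sum.inr (c, ρ), false) = r
      linear_combination (r * x c * y c) * h2
  · have hcN : c.val = N := by have := c.2; omega
    have hc0 : 0 < c.val := by omega
    have hlt : c.val - 1 < N := by omega
    have tL : tail w (Sum.inl ((⟨c.val - 1, hlt⟩ : Fin N), ρ), true) = Sum.inl (c, ρ) := by
      rw [tail_L]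
      congr 1
      rw [Prod.mk.injEq]
      refine ⟨?_, rfl⟩
      apply Fin.ext
      simp only [Fin.val_succ]
      omega
    rw [dif_neg hc, dif_pos hc0, bb_row y ρ c _ rfl, bb_row y ρ c _ tL, dif_neg hc, dif_neg hc,
      dif_pos hc0, dif_pos hc0, cmp_self, cmp_self]
    have hUL := cmp_swap ho (d := (Sum.inr (c, ρ), false))
        (d' := (Sum.inl ((⟨c.val - 1, hlt⟩ : Fin N), ρ), true)) (by rw [tL]; rfl) (by simp)
    have hx1 : pre x c.val + x c = 0 := by
      rw [← pre_succ, hcN, pre_last hx]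
    have hy1 : pre y c.val + y c = 0 := by
      rw [← pre_succ, hcN, pre_last hy]
    have hx2 : pre x c.val = x c := by
      linear_combination hx1 - x c * h2
    have hy2 : pre y c.val = y c := by
      linear_combination hy1 - y c * h2
    rw [hUL, hx2, hy2]
    generalize cmp ord (Sum.inl ((⟨c.val - 1, hlt⟩ : Fin N), ρ), true)
        (Sum.inr (c, ρ), false) = q
    linear_combination (q * x c * y c - x c * y c - η * x c * y c) * h2

/-- The intersection form on the cycles through a flat row. -/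
theorem gg_cyc (ho : IsOrd rot (tail w) ord) {x y : Fin (N + 1) → K} (hx : LetterEven w x)
    (hy : LetterEven w y) (ρ : Fin (M + 1)) (η : K) (hη : ∀ c, 0 < c → c < N → eta ord ρ c = η)
    (hN : 0 < N) :
    gg (tail w) ord (cyc ρ.val x) (cyc ρ.val y) =
      (∑ c : Fin (N + 1), (η * (x c * pre y c.val) + (1 + η) * (pre x c.val * y c))) +
      ∑ c : Fin (N + 1), x c * ∑ c' : Fin (N + 1), if w c' = w c then
        cmp ord (Sum.inr (c', Fin.last M), true) (Sum.inr (c, Fin.last M), true) * y c' else 0 := by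
  have h2 : (2 : K) = 0 := rfl
  -- vertical part
  have hv : ∑ e : Fin (N + 1) × Fin (M + 1), (cyc ρ.val x : Ed N M → K) (Sum.inr e) *
      (bb (tail w) ord (cyc ρ.val y) (Sum.inr e, false) +
        bb (tail w) ord (cyc ρ.val y) (Sum.inr e, true) + cyc ρ.val y (Sum.inr e)) =
      ∑ c : Fin (N + 1), x c * (bb (tail w) ord (cyc ρ.val y) (Sum.inr (c, ρ), false) +
        bb (tail w) ord (cyc ρ.val y) (Sum.inr (c, Fin.last M), true) + y c) := by
    rw [Fintype.sum_prod_type]
    apply Finset.sum_congr rfl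
    intro c _
    have h3 := tele_fin (fun r => bb (tail w) ord (cyc ρ.val y) (Sum.inr (c, r), false))
      (fun r => bb (tail w) ord (cyc ρ.val y) (Sum.inr (c, r), true)) (y c) ρ
      (fun r hr h => bb_col ho y ρ c r hr h)
    rw [← h3, Finset.mul_sum]
    apply Finset.sum_congr rfl
    intro r _
    rw [cyc_inr, cyc_inr]
    by_cases h : ρ.val ≤ r.val
    · rw [if_pos h, if_pos h, if_pos h]
    · simp only [if_neg h, zero_mul, mul_zero]
  -- horizontal part
  have hh : ∑ e : Fin N × Fin (M + 1), (cyc ρ.val x : Ed N M → K) (Sum.inl e) *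
      (bb (tail w) ord (cyc ρ.val y) (Sum.inl e, false) +
        bb (tail w) ord (cyc ρ.val y) (Sum.inl e, true) + cyc ρ.val y (Sum.inl e)) =
      ∑ c : Fin N, pre x (c.val + 1) * (bb (tail w) ord (cyc ρ.val y) (Sum.inl (c, ρ), false) +
        bb (tail w) ord (cyc ρ.val y) (Sum.inl (c, ρ), true) + pre y (c.val + 1)) := by
    rw [Fintype.sum_prod_type]
    apply Finset.sum_congr rfl
    intro c _
    rw [Finset.sum_eq_single ρ]
    · rw [cyc_inl, cyc_inl, if_pos rfl, if_pos rfl]
    · intro r _ hr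
      rw [cyc_inl, if_neg (fun h => hr (Fin.ext h)), zero_mul]
    · intro h; exact absurd (Finset.mem_univ _) h
  have hR : ∑ c : Fin N, pre x (c.val + 1) *
      bb (tail w) ord (cyc ρ.val y) (Sum.inl (c, ρ), false) =
      ∑ c : Fin (N + 1), (if h : c.val < N then pre x (c.val + 1) *
      bb (tail w) ord (cyc ρ.val y) (Sum.inl (⟨c.val, h⟩, ρ), false) else 0) := by
    rw [Fin.sum_univ_castSucc, dif_neg (by simp), add_zero]
    apply Finset.sum_congr rfl
    intro c _
    rw [dif_pos (by simp)]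
    rfl
  have hL : ∑ c : Fin N, pre x (c.val + 1) *
      bb (tail w) ord (cyc ρ.val y) (Sum.inl (c, ρ), true) =
      ∑ c : Fin (N + 1), (if h : 0 < c.val then pre x c.val *
      bb (tail w) ord (cyc ρ.val y) (Sum.inl (⟨c.val - 1, by omega⟩, ρ), true) else 0) := by
    rw [Fin.sum_univ_succ, dif_neg (by simp), zero_add]
    apply Finset.sum_congr rfl
    intro c _
    rw [dif_pos (by simp)]
    rfl
  have hP : ∑ c : Fin N, pre x (c.val + 1) * pre y (c.val + 1) =
      ∑ c : Fin (N + 1), pre x c.val * pre y c.val := by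
    rw [Fin.sum_univ_succ]
    have : pre x ((0 : Fin (N + 1)).val) = 0 := pre_zero x
    rw [this, zero_mul, zero_add]
    rfl
  have hh2 : ∑ c : Fin N, pre x (c.val + 1) *
      (bb (tail w) ord (cyc ρ.val y) (Sum.inl (c, ρ), false) +
        bb (tail w) ord (cyc ρ.val y) (Sum.inl (c, ρ), true) + pre y (c.val + 1)) =
      ∑ c : Fin (N + 1), ((if h : c.val < N then pre x (c.val + 1) *
      bb (tail w) ord (cyc ρ.val y) (Sum.inl (⟨c.val, h⟩, ρ), false) else 0) +
      (if h : 0 < c.val then pre x c.val *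
      bb (tail w) ord (cyc ρ.val y) (Sum.inl (⟨c.val - 1, by omega⟩, ρ), true) else 0) +
      pre x c.val * pre y c.val) := by
    rw [Finset.sum_add_distrib, Finset.sum_add_distrib, ← hR, ← hL, ← hP,
      ← Finset.sum_add_distrib, ← Finset.sum_add_distrib]
    exact Finset.sum_congr rfl fun c _ => by ring
  rw [gg, Fintype.sum_sum_type, hv, hh, hh2, ← Finset.sum_add_distrib, ← Finset.sum_add_distrib]
  apply Finset.sum_congr rfl
  intro c _
  have h3 := lam_eq ho hx hy ρ η hη hN c
  have h4 := bb_letter w ord (cyc ρ.val y) c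
  have h5 : ∀ c' : Fin (N + 1), (cyc ρ.val y : Ed N M → K) (Sum.inr (c', Fin.last M)) = y c' := by
    intro c'
    exact if_pos (show ρ.val ≤ (Fin.last M).val from Nat.lt_succ_iff.mp ρ.2)
  simp only [h5] at h4
  rw [h4]
  linear_combination h3 + (x c * y c + pre x c.val * pre y c.val) * h2

end TH482.HT
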