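import Pool.Agent.KS6_39.HB.Side

/-! # Graphs and drawings joined by a bridge -/

set_option autoImplicit false

namespace Pool.Agent.KS6_39.HB

open Equiv TH482.HT Pool.Agent.N398.HT

/-- The disjoint union of two graphs together with an edge that joins `a` and `b`. -/
def bridgeGraph {V₁ V₂ : Type} (G₁ : SimpleGraph V₁) (G₂ : SimpleGraph V₂) (a : V₁) (b : V₂) :
    SimpleGraph (V₁ ⊕ V₂) where
  Adj u v := match u, v with
    | .inl u, .inl v => G₁.Adj u v
    | .inr u, .inr v => G₂.Adj u v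
    | .inl u, .inr v => u = a ∧ v = b
    | .inr u, .inl v => u = b ∧ v = a
  symm := ⟨by
    rintro (u | u) (v | v) h
    · exact SimpleGraph.Adj.symm (G := G₁) h
    · exact ⟨h.2, h.1⟩
    · exact ⟨h.2, h.1⟩
    · exact SimpleGraph.Adj.symm (G := G₂) h⟩
  loopless := ⟨by
    rintro (u | u) h
    · exact G₁.irrefl h
    · exact G₂.irrefl h⟩

section graph

variable {V₁ V₂ : Type} {G₁ : SimpleGraph V₁} {G₂ : SimpleGraph V₂} {a : V₁} {b : V₂}

theorem bridgeGraph_connected (h₁ : G₁.Connected) (h₂ : G₂.Connected) :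
    (bridgeGraph G₁ G₂ a b).Connected := by
  have hl : ∀ u v, (bridgeGraph G₁ G₂ a b).Reachable (Sum.inl u) (Sum.inl v) := fun u v =>
    (h₁.preconnected u v).map (⟨Sum.inl, fun h => h⟩ : G₁ →g bridgeGraph G₁ G₂ a b)
  have hr : ∀ u v, (bridgeGraph G₁ G₂ a b).Reachable (Sum.inr u) (Sum.inr v) := fun u v =>
    (h₂.preconnected u v).map (⟨Sum.inr, fun h => h⟩ : G₂ →g bridgeGraph G₁ G₂ a b)
  have hab : (bridgeGraph G₁ G₂ a b).Reachable (Sum.inl a) (Sum.inr b) :=
    SimpleGraph.Adj.reachable (⟨rfl, rfl⟩ : (bridgeGraph G₁ G₂ a b).Adj (Sum.inl a) (Sum.inr b))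
  have hall : ∀ u, (bridgeGraph G₁ G₂ a b).Reachable u (Sum.inl a) := by
    rintro (u | u)
    · exact hl _ _
    · exact (hr _ b).trans hab.symm
  exact { preconnected := fun u v => (hall u).trans (hall v).symm, nonempty := ⟨Sum.inl a⟩ }

/-- **Splitting an embedding along a bridge.** -/
theorem split (ha : ∃ u, G₁.Adj a u) (hb : ∃ u, G₂.Adj b u)
    (ℰ : Drawing (bridgeGraph G₁ G₂ a b)) (hE : ℰ.IsEmbedding) :
    ∃ (ℰ₁ : Drawing G₁) (ℰ₂ : Drawing G₂), ℰ₁.IsEmbedding ∧ ℰ₂.IsEmbedding ∧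
      ℰ.toSurfaceMap.euler = ℰ₁.toSurfaceMap.euler + ℰ₂.toSurfaceMap.euler - 2 := by
  have hadj : (bridgeGraph G₁ G₂ a b).Adj (Sum.inl a) (Sum.inr b) := ⟨rfl, rfl⟩
  obtain ⟨p, ⟨hp1, hp2, _⟩, hp4⟩ := ℰ.start _ _ hadj
  obtain ⟨q, ⟨hq1, hq2, _⟩, hq4⟩ := ℰ.start _ _ hadj.symm
  have hr1 : ℰ.src (ℰ.rev p) = Sum.inr b := by rw [ℰ.src_rev, hp2]
  have hr2 : ℰ.tgt (ℰ.rev p) = Sum.inl a := by rw [← ℰ.src_rev, ℰ.rev_rev, hp1]
  have hq : ℰ.rev p = q := hq4 _ ⟨hr1, hr2, hE _⟩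
  have hdart1 : ∀ d u, ℰ.src d = Sum.inl u → d = p ∨ ∃ v, G₁.Adj u v ∧ ℰ.tgt d = Sum.inl v := by
    intro d u h
    have h1 := ℰ.adj d
    rw [h] at h1
    rcases ht : ℰ.tgt d with v | v
    · rw [ht] at h1
      exact Or.inr ⟨v, h1, rfl⟩
    · rw [ht] at h1
      obtain ⟨h2, h3⟩ := h1
      exact Or.inl (hp4 d ⟨by rw [h, h2], by rw [ht, h3], hE _⟩)
  have hdart2 : ∀ d u, ℰ.src d = Sum.inr u → d = ℰ.rev p ∨
      ∃ v, G₂.Adj u v ∧ ℰ.tgt d = Sum.inr v := by
    intro d u h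
    have h1 := ℰ.adj d
    rw [h] at h1
    rcases ht : ℰ.tgt d with v | v
    · rw [ht] at h1
      obtain ⟨h2, h3⟩ := h1
      exact Or.inl ((hq4 d ⟨by rw [h, h2], by rw [ht, h3], hE _⟩).trans hq.symm)
    · rw [ht] at h1
      exact Or.inr ⟨v, h1, rfl⟩
  have S₁ : Side G₁ ℰ Sum.inl p :=
    { emb := hE
      inj := Sum.inl_injective
      adj := fun u v h => h
      dart := hdart1
      pend := fun v h => by rw [hp2] at h; cases h
      nbr := by obtain ⟨v, hv⟩ := ha; exact ⟨a, v, hp1, hv⟩ }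
  have S₂ : Side G₂ ℰ Sum.inr (ℰ.rev p) :=
    { emb := hE
      inj := Sum.inr_injective
      adj := fun u v h => h
      dart := hdart2
      pend := fun v h => by rw [hr2] at h; cases h
      nbr := by obtain ⟨v, hv⟩ := hb; exact ⟨b, v, hr1, hv⟩ }
  refine ⟨sideDrawing S₁, sideDrawing S₂, sideDrawing_emb S₁, sideDrawing_emb S₂, ?_⟩
  refine (sideBridge S₁ S₂ (fun x y h => by cases h) ?_).euler
  intro d
  rcases hs : ℰ.src d with u | u
  · rcases hdart1 d u hs with h | ⟨v, h1, h2⟩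
    · exact Or.inr (Or.inr (Or.inl h))
    · exact Or.inl ⟨u, v, h1, hs, h2⟩
  · rcases hdart2 d u hs with h | ⟨v, h1, h2⟩
    · exact Or.inr (Or.inr (Or.inr h))
    · exact Or.inr (Or.inl ⟨u, v, h1, hs, h2⟩)

end graph

/-- the darts of two maps and of a bridge -/
inductive GD (A B : Type) : Type
  | l : A → GD A B
  | r : B → GD A B
  | p : GD A B
  | q : GD A B

namespace GD

variable {A B : Type}

instance [Finite A] [Finite B] : Finite (GD A B) := by
  apply Finite.of_injective (fun x : GD A B => match x with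
    | l x => (Sum.inl x : A ⊕ B ⊕ Bool)
    | r x => Sum.inr (Sum.inl x)
    | p => Sum.inr (Sum.inr false)
    | q => Sum.inr (Sum.inr true))
  rintro (x | x | _ | _) (y | y | _ | _) h <;> simp_all

end GD

section glue

variable (M₁ M₂ : SurfaceMap) (c₁ : M₁.D) (c₂ : M₂.D)

open Classical in
/-- rotation of the glued map -/
noncomputable def glueRotF : GD M₁.D M₂.D → GD M₁.D M₂.D
  | .l x => if x = c₁ then .p else .l (M₁.rot x)
  | .r x => if x = c₂ then .q else .r (M₂.rot x)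
  | .p => .l (M₁.rot c₁)
  | .q => .r (M₂.rot c₂)

theorem glueRotF_inj : Function.Injective (glueRotF M₁ M₂ c₁ c₂) := by
  classical
  rintro (x | x | _ | _) (y | y | _ | _) h <;> simp only [glueRotF] at h
  · split_ifs at h with h1 h2 h2
    · rw [h1, h2]
    · rw [M₁.rot.injective (GD.l.inj h)]
  · split_ifs at h
  · split_ifs at h with h1
    exact absurd (M₁.rot.injective (GD.l.inj h)) h1
  · split_ifs at h
  · split_ifs at h
  · split_ifs at h with h1 h2 h2
    · rw [h1, h2]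
    · rw [M₂.rot.injective (GD.r.inj h)]
  · split_ifs at h
  · split_ifs at h with h1
    exact absurd (M₂.rot.injective (GD.r.inj h)) h1
  · split_ifs at h with h1
    exact absurd (M₁.rot.injective (GD.l.inj h)).symm h1
  · split_ifs at h
  · rfl
  · cases h
  · split_ifs at h
  · split_ifs at h with h1
    exact absurd (M₂.rot.injective (GD.r.inj h)).symm h1
  · cases h
  · rfl

noncomputable def glueRot : Perm (GD M₁.D M₂.D) :=
  Equiv.ofBijective _ (Finite.injective_iff_bijective.1 (glueRotF_inj M₁ M₂ c₁ c₂))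

/-- reversal in the glued map -/
def glueRevF : GD M₁.D M₂.D → GD M₁.D M₂.D
  | .l x => .l (M₁.rev x)
  | .r x => .r (M₂.rev x)
  | .p => .q
  | .q => .p

theorem glueRevF_invol (x : GD M₁.D M₂.D) : glueRevF M₁ M₂ (glueRevF M₁ M₂ x) = x := by
  rcases x with x | x | _ | _
  · exact congrArg GD.l (M₁.rev_rev x)
  · exact congrArg GD.r (M₂.rev_rev x)
  · rfl
  · rfl

def glueRev : Perm (GD M₁.D M₂.D) where
  toFun := glueRevF M₁ M₂
  invFun := glueRevF M₁ M₂
  left_inv := glueRevF_invol M₁ M₂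
  right_inv := glueRevF_invol M₁ M₂

theorem glueRot_l {x : M₁.D} (h : x ≠ c₁) : glueRot M₁ M₂ c₁ c₂ (.l x) = .l (M₁.rot x) := if_neg h
theorem glueRot_r {x : M₂.D} (h : x ≠ c₂) : glueRot M₁ M₂ c₁ c₂ (.r x) = .r (M₂.rot x) := if_neg h
theorem glueRot_c₁ : glueRot M₁ M₂ c₁ c₂ (.l c₁) = .p := if_pos rfl
theorem glueRot_c₂ : glueRot M₁ M₂ c₁ c₂ (.r c₂) = .q := if_pos rfl

/-- Two maps joined by a bridge. -/
noncomputable def glueMap : SurfaceMap where
  D := GD M₁.D M₂.D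
  fin := Fintype.ofFinite _
  rot := glueRot M₁ M₂ c₁ c₂
  rev := glueRev M₁ M₂
  rev_rev := glueRevF_invol M₁ M₂
  rev_ne := by
    rintro (x | x | _ | _) h
    · exact M₁.rev_ne x (GD.l.inj h)
    · exact M₂.rev_ne x (GD.r.inj h)
    · cases h
    · cases h
  conn := by
    intro s hne hs
    have hrot : ∀ d ∈ s, glueRot M₁ M₂ c₁ c₂ d ∈ s := fun d hd => (hs d hd).1
    have hrev : ∀ d ∈ s, glueRev M₁ M₂ d ∈ s := fun d hd => (hs d hd).2
    have hl : (∃ x, GD.l x ∈ s) → ∀ x, GD.l x ∈ s := by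
      intro h x
      have := M₁.conn {x | GD.l x ∈ s} h (by
        intro y hy
        refine ⟨?_, hrev _ hy⟩
        by_cases hc : y = c₁
        · subst hc
          have h1 := hrot _ hy
          rw [glueRot_c₁] at h1
          exact hrot _ h1
        · have h1 := hrot _ hy
          rwa [glueRot_l M₁ M₂ c₁ c₂ hc] at h1)
      have h2 : x ∈ (Set.univ : Set M₁.D) := trivial
      rw [← this] at h2
      exact h2
    have hr : (∃ x, GD.r x ∈ s) → ∀ x, GD.r x ∈ s := by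
      intro h x
      have := M₂.conn {x | GD.r x ∈ s} h (by
        intro y hy
        refine ⟨?_, hrev _ hy⟩
        by_cases hc : y = c₂
        · subst hc
          have h1 := hrot _ hy
          rw [glueRot_c₂] at h1
          exact hrot _ h1
        · have h1 := hrot _ hy
          rwa [glueRot_r M₁ M₂ c₁ c₂ hc] at h1)
      have h2 : x ∈ (Set.univ : Set M₂.D) := trivial
      rw [← this] at h2
      exact h2
    have hp : GD.p ∈ s → s = Set.univ := by
      intro h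
      have hq : GD.q ∈ s := hrev _ h
      have h1 := hl ⟨_, hrot _ h⟩
      have h2 := hr ⟨_, hrot _ hq⟩
      ext d
      rcases d with x | x | _ | _
      · simp [h1 x]
      · simp [h2 x]
      · simp [h]
      · simp [hq]
    obtain ⟨d, hd⟩ := hne
    rcases d with x | x | _ | _
    · apply hp
      rw [← glueRot_c₁ M₁ M₂ c₁ c₂]
      exact hrot _ (hl ⟨x, hd⟩ c₁)
    · apply hp
      have h1 : GD.q ∈ s := by
        rw [← glueRot_c₂ M₁ M₂ c₁ c₂]
        exact hrot _ (hr ⟨x, hd⟩ c₂)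
      exact hrev _ h1
    · exact hp hd
    · exact hp (hrev _ hd)

/-- The glued map is a map with a bridge. -/
noncomputable def glueBridge : Bridge (glueMap M₁ M₂ c₁ c₂) M₁ M₂ c₁ c₂ where
  i₁ := GD.l
  i₂ := GD.r
  p := GD.p
  inj₁ _ _ h := GD.l.inj h
  inj₂ _ _ h := GD.r.inj h
  ne12 _ _ h := by cases h
  np1 _ h := by cases h
  np2 _ h := by cases h
  cover d := by
    rcases d with x | x | _ | _
    · exact Or.inl ⟨x, rfl⟩
    · exact Or.inr (Or.inl ⟨x, rfl⟩)
    · exact Or.inr (Or.inr (Or.inl rfl))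
    · exact Or.inr (Or.inr (Or.inr rfl))
  rev1 _ := rfl
  rev2 _ := rfl
  rot1 _ h := glueRot_l _ _ _ _ h
  rotc1 := glueRot_c₁ _ _ _ _
  rotp1 := rfl
  rot2 _ h := glueRot_r _ _ _ _ h
  rotc2 := glueRot_c₂ _ _ _ _
  rotp2 := rfl

end glue

end Pool.Agent.KS6_39.HB
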