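import Pool.Agent.KS6_39.HB.Glue

/-! # Drawings joined by a bridge -/

set_option autoImplicit false

namespace Pool.Agent.KS6_39.HB

open Equiv TH482.HT Pool.Agent.N398.HT

section disc

/-- For every two adjacent edges there is a closed disc that contains the arcs of both and that
does not contain the face of the dart `e`. -/
def AdjInDiscAvoid {V : Type} {G : SimpleGraph V} (𝒟 : Drawing G) (e : 𝒟.D) : Prop :=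
  ∀ u v v', G.Adj u v → G.Adj u v' → v ≠ v' →
    ∃ Y : Subcomplex 𝒟.toSurfaceMap, Y.IsDisc ∧ e ∉ Y.fs ∧
      ∀ d, (𝒟.src d = u ∧ (𝒟.tgt d = v ∨ 𝒟.tgt d = v')) → d ∈ Y.es

theorem AdjInDiscAvoid.adjInDisc {V : Type} {G : SimpleGraph V} {𝒟 : Drawing G} {e : 𝒟.D}
    (h : AdjInDiscAvoid 𝒟 e) : AdjInDisc 𝒟 := by
  intro u v v' h1 h2 h3
  obtain ⟨Y, y1, _, y3⟩ := h u v v' h1 h2 h3
  exact ⟨Y, y1, y3⟩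

variable {V V' : Type} {G : SimpleGraph V} {G' : SimpleGraph V'} {𝒟 : Drawing G'} {𝒟₁ : Drawing G}
  {M₂ : SurfaceMap} {c₁ : 𝒟₁.D} {c₂ : M₂.D} (B : Bridge 𝒟.toSurfaceMap 𝒟₁.toSurfaceMap M₂ c₁ c₂)
  {j : V → V'}

theorem disc_side (hj : Function.Injective j) (hs : ∀ x, 𝒟.src (B.i₁ x) = j (𝒟₁.src x))
    (ht : ∀ x, 𝒟.tgt (B.i₁ x) = j (𝒟₁.tgt x))
    (hd : ∀ d u v, 𝒟.src d = j u → 𝒟.tgt d = j v → ∃ x, B.i₁ x = d)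
    (hA : AdjInDiscAvoid 𝒟₁ (𝒟₁.rev c₁)) {u v v' : V} (h1 : G.Adj u v) (h2 : G.Adj u v')
    (h3 : v ≠ v') : ∃ Y : Subcomplex 𝒟.toSurfaceMap, Y.IsDisc ∧
      (∀ d ∈ Y.fs, ∃ x, x ≠ B.e₁ ∧ B.i₁ x = d) ∧
      ∀ d, (𝒟.src d = j u ∧ (𝒟.tgt d = j v ∨ 𝒟.tgt d = j v')) → d ∈ Y.es := by
  obtain ⟨Y, y1, y2, y3⟩ := hA u v v' h1 h2 h3
  refine ⟨B.sub Y y2, B.sub_isDisc Y y2 y1, ?_, ?_⟩
  · rintro _ ⟨x, hx, rfl⟩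
    exact ⟨x, fun h => y2 (by subst h; exact hx), rfl⟩
  · rintro d ⟨d1, d2⟩
    obtain ⟨x, rfl⟩ : ∃ x, B.i₁ x = d := by
      rcases d2 with d2 | d2
      · exact hd d _ _ d1 d2
      · exact hd d _ _ d1 d2
    refine ⟨x, y3 x ⟨?_, ?_⟩, rfl⟩
    · exact hj ((hs x).symm.trans d1)
    · rcases d2 with d2 | d2
      · exact Or.inl (hj ((ht x).symm.trans d2))
      · exact Or.inr (hj ((ht x).symm.trans d2))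

theorem disc_bridge (hj : Function.Injective j) (hs : ∀ x, 𝒟.src (B.i₁ x) = j (𝒟₁.src x))
    (ht : ∀ x, 𝒟.tgt (B.i₁ x) = j (𝒟₁.tgt x)) (hc : 𝒟₁.pos c₁ = 0)
    (hA : AdjInDiscAvoid 𝒟₁ (𝒟₁.rev c₁)) (hdeg : ∀ v, ∃ v', v' ≠ v ∧ G.Adj (𝒟₁.src c₁) v')
    {v : V} (h1 : G.Adj (𝒟₁.src c₁) v) {w : V'} (hw : ∀ z, w ≠ j z)
    (hd : ∀ d, 𝒟.src d = j (𝒟₁.src c₁) → 𝒟.tgt d = w → d = B.p)
    (hd' : ∀ d u v, 𝒟.src d = j u → 𝒟.tgt d = j v → ∃ x, B.i₁ x = d) :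
    ∃ Y : Subcomplex 𝒟.toSurfaceMap, Y.IsDisc ∧
      (∀ d ∈ Y.fs, ∃ x, x ≠ B.e₁ ∧ B.i₁ x = d) ∧
      ∀ d, (𝒟.src d = j (𝒟₁.src c₁) ∧ (𝒟.tgt d = j v ∨ 𝒟.tgt d = w)) → d ∈ Y.es := by
  obtain ⟨v', hne, h2⟩ := hdeg v
  obtain ⟨Y, y1, y2, y3⟩ := hA _ v v' h1 h2 hne.symm
  have hcY : c₁ ∈ Y.vs := by
    obtain ⟨x, ⟨x1, x2, x3⟩, _⟩ := 𝒟₁.start _ _ h1
    exact closed_cycle Y.vs_rot (𝒟₁.vertex_cyclic _ _ x3 hc x1)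
      (Y.es_vs _ (y3 x ⟨x1, Or.inl x2⟩))
  refine ⟨B.subBridge Y y2 hcY, B.subBridge_isDisc Y y2 hcY y1, ?_, ?_⟩
  · rintro _ ⟨x, hx, rfl⟩
    exact ⟨x, fun h => y2 (by subst h; exact hx), rfl⟩
  · rintro d ⟨d1, d2 | d2⟩
    · obtain ⟨x, rfl⟩ := hd' d _ _ d1 d2
      refine Or.inl ⟨x, y3 x ⟨?_, Or.inl ?_⟩, rfl⟩
      · exact hj ((hs x).symm.trans d1)
      · exact hj ((ht x).symm.trans d2)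
    · exact Or.inr (Or.inl (hd d d1 d2))

end disc

section

variable {V₁ V₂ : Type} {G₁ : SimpleGraph V₁} {G₂ : SimpleGraph V₂} (𝒟₁ : Drawing G₁)
  (𝒟₂ : Drawing G₂) (c₁ : 𝒟₁.D) (c₂ : 𝒟₂.D)

/-- start of a directed edge -/
def gSrc : GD 𝒟₁.D 𝒟₂.D → V₁ ⊕ V₂
  | .l x => .inl (𝒟₁.src x)
  | .r x => .inr (𝒟₂.src x)
  | .p => .inl (𝒟₁.src c₁)
  | .q => .inr (𝒟₂.src c₂)

/-- end of a directed edge -/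
def gTgt : GD 𝒟₁.D 𝒟₂.D → V₁ ⊕ V₂
  | .l x => .inl (𝒟₁.tgt x)
  | .r x => .inr (𝒟₂.tgt x)
  | .p => .inr (𝒟₂.src c₂)
  | .q => .inl (𝒟₁.src c₁)

/-- number of crossings before the dart -/
def gPos : GD 𝒟₁.D 𝒟₂.D → ℕ
  | .l x => 𝒟₁.pos x
  | .r x => 𝒟₂.pos x
  | .p => 0
  | .q => 0

variable {c₁ c₂}

theorem rot_l_pos (h₁ : 𝒟₁.pos c₁ = 0) {x : 𝒟₁.D} (hx : 0 < 𝒟₁.pos x) :
    glueRot 𝒟₁.toSurfaceMap 𝒟₂.toSurfaceMap c₁ c₂ (.l x) = .l (𝒟₁.rot x) :=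
  glueRot_l _ _ _ _ (fun h => by rw [h, h₁] at hx; exact lt_irrefl _ hx)

theorem rot_r_pos (h₂ : 𝒟₂.pos c₂ = 0) {x : 𝒟₂.D} (hx : 0 < 𝒟₂.pos x) :
    glueRot 𝒟₁.toSurfaceMap 𝒟₂.toSurfaceMap c₁ c₂ (.r x) = .r (𝒟₂.rot x) :=
  glueRot_r _ _ _ _ (fun h => by rw [h, h₂] at hx; exact lt_irrefl _ hx)

/-- Two drawings joined by a bridge. -/
noncomputable def glueDrawing (h₁ : 𝒟₁.pos c₁ = 0) (h₂ : 𝒟₂.pos c₂ = 0) :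
    Drawing (bridgeGraph G₁ G₂ (𝒟₁.src c₁) (𝒟₂.src c₂)) where
  toSurfaceMap := glueMap 𝒟₁.toSurfaceMap 𝒟₂.toSurfaceMap c₁ c₂
  src := gSrc 𝒟₁ 𝒟₂ c₁ c₂
  tgt := gTgt 𝒟₁ 𝒟₂ c₁ c₂
  pos := gPos 𝒟₁ 𝒟₂
  adj := by
    rintro (x | x | _ | _)
    · exact 𝒟₁.adj x
    · exact 𝒟₂.adj x
    · exact ⟨rfl, rfl⟩
    · exact ⟨rfl, rfl⟩
  src_rev := by
    rintro (x | x | _ | _)
    · exact congrArg Sum.inl (𝒟₁.src_rev x)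
    · exact congrArg Sum.inr (𝒟₂.src_rev x)
    · rfl
    · rfl
  start := by
    rintro (u | u) (v | v) h
    · obtain ⟨x, ⟨x1, x2, x3⟩, x4⟩ := 𝒟₁.start u v h
      refine ⟨.l x, ⟨congrArg Sum.inl x1, congrArg Sum.inl x2, x3⟩, ?_⟩
      rintro (y | y | _ | _) ⟨y1, y2, y3⟩
      · exact congrArg GD.l (x4 y ⟨Sum.inl.inj y1, Sum.inl.inj y2, y3⟩)
      · cases y1
      · cases y2
      · cases y1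
    · obtain ⟨rfl, rfl⟩ := h
      refine ⟨.p, ⟨rfl, rfl, rfl⟩, ?_⟩
      rintro (y | y | _ | _) ⟨y1, y2, y3⟩
      · cases y2
      · cases y1
      · rfl
      · cases y1
    · obtain ⟨rfl, rfl⟩ := h
      refine ⟨.q, ⟨rfl, rfl, rfl⟩, ?_⟩
      rintro (y | y | _ | _) ⟨y1, y2, y3⟩
      · cases y1
      · cases y2
      · cases y1
      · rfl
    · obtain ⟨x, ⟨x1, x2, x3⟩, x4⟩ := 𝒟₂.start u v h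
      refine ⟨.r x, ⟨congrArg Sum.inr x1, congrArg Sum.inr x2, x3⟩, ?_⟩
      rintro (y | y | _ | _) ⟨y1, y2, y3⟩
      · cases y1
      · exact congrArg GD.r (x4 y ⟨Sum.inr.inj y1, Sum.inr.inj y2, y3⟩)
      · cases y1
      · cases y2
  vertex := by
    change ∀ d, gPos 𝒟₁ 𝒟₂ d = 0 →
      gPos 𝒟₁ 𝒟₂ (glueRot 𝒟₁.toSurfaceMap 𝒟₂.toSurfaceMap c₁ c₂ d) = 0 ∧
      gSrc 𝒟₁ 𝒟₂ c₁ c₂ (glueRot 𝒟₁.toSurfaceMap 𝒟₂.toSurfaceMap c₁ c₂ d) = gSrc 𝒟₁ 𝒟₂ c₁ c₂ d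
    rintro (x | x | _ | _) hx
    · by_cases hc : x = c₁
      · subst hc
        rw [glueRot_c₁]
        exact ⟨rfl, rfl⟩
      · rw [glueRot_l _ _ _ _ hc]
        exact ⟨(𝒟₁.vertex x hx).1, congrArg Sum.inl (𝒟₁.vertex x hx).2⟩
    · by_cases hc : x = c₂
      · subst hc
        rw [glueRot_c₂]
        exact ⟨rfl, rfl⟩
      · rw [glueRot_r _ _ _ _ hc]
        exact ⟨(𝒟₂.vertex x hx).1, congrArg Sum.inr (𝒟₂.vertex x hx).2⟩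
    · exact ⟨(𝒟₁.vertex c₁ h₁).1, congrArg Sum.inl (𝒟₁.vertex c₁ h₁).2⟩
    · exact ⟨(𝒟₂.vertex c₂ h₂).1, congrArg Sum.inr (𝒟₂.vertex c₂ h₂).2⟩
  vertex_cyclic := by
    have B := glueBridge 𝒟₁.toSurfaceMap 𝒟₂.toSurfaceMap c₁ c₂
    have key : ∀ d, gPos 𝒟₁ 𝒟₂ d = 0 →
        (∀ x, gSrc 𝒟₁ 𝒟₂ c₁ c₂ d = Sum.inl (𝒟₁.src x) → 𝒟₁.pos x = 0 →
          (glueRot 𝒟₁.toSurfaceMap 𝒟₂.toSurfaceMap c₁ c₂).SameCycle (.l x) d) ∧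
        (∀ x, gSrc 𝒟₁ 𝒟₂ c₁ c₂ d = Sum.inr (𝒟₂.src x) → 𝒟₂.pos x = 0 →
          (glueRot 𝒟₁.toSurfaceMap 𝒟₂.toSurfaceMap c₁ c₂).SameCycle (.r x) d) := by
      rintro (y | y | _ | _) hy
      · refine ⟨fun x h hx => ?_, fun x h hx => by cases h⟩
        exact (glueBridge 𝒟₁.toSurfaceMap 𝒟₂.toSurfaceMap c₁ c₂).rot_same
          (𝒟₁.vertex_cyclic _ _ hx hy (Sum.inl.inj h).symm)
      · refine ⟨fun x h hx => (by cases h), fun x h hx => ?_⟩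
        exact (glueBridge 𝒟₁.toSurfaceMap 𝒟₂.toSurfaceMap c₁ c₂).symm.rot_same
          (𝒟₂.vertex_cyclic _ _ hx hy (Sum.inr.inj h).symm)
      · refine ⟨fun x h hx => ?_, fun x h hx => by cases h⟩
        exact ((glueBridge 𝒟₁.toSurfaceMap 𝒟₂.toSurfaceMap c₁ c₂).rot_same
          (𝒟₁.vertex_cyclic _ _ hx h₁ (Sum.inl.inj h).symm)).trans
          (glueBridge 𝒟₁.toSurfaceMap 𝒟₂.toSurfaceMap c₁ c₂).rot_p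
      · refine ⟨fun x h hx => (by cases h), fun x h hx => ?_⟩
        exact ((glueBridge 𝒟₁.toSurfaceMap 𝒟₂.toSurfaceMap c₁ c₂).symm.rot_same
          (𝒟₂.vertex_cyclic _ _ hx h₂ (Sum.inr.inj h).symm)).trans
          (glueBridge 𝒟₁.toSurfaceMap 𝒟₂.toSurfaceMap c₁ c₂).symm.rot_p
    change ∀ d d', gPos 𝒟₁ 𝒟₂ d = 0 → gPos 𝒟₁ 𝒟₂ d' = 0 → gSrc 𝒟₁ 𝒟₂ c₁ c₂ d =
      gSrc 𝒟₁ 𝒟₂ c₁ c₂ d' → (glueRot 𝒟₁.toSurfaceMap 𝒟₂.toSurfaceMap c₁ c₂).SameCycle d d'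
    rintro (x | x | _ | _) d' hx hd' h
    · exact (key d' hd').1 x h.symm hx
    · exact (key d' hd').2 x h.symm hx
    · exact ((key .p rfl).1 c₁ rfl h₁).symm.trans ((key d' hd').1 c₁ h.symm h₁)
    · exact ((key .q rfl).2 c₂ rfl h₂).symm.trans ((key d' hd').2 c₂ h.symm h₂)
  cross := by
    change ∀ d, 0 < gPos 𝒟₁ 𝒟₂ d →
      0 < gPos 𝒟₁ 𝒟₂ (glueRot 𝒟₁.toSurfaceMap 𝒟₂.toSurfaceMap c₁ c₂ d) ∧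
      glueRot 𝒟₁.toSurfaceMap 𝒟₂.toSurfaceMap c₁ c₂
        (glueRot 𝒟₁.toSurfaceMap 𝒟₂.toSurfaceMap c₁ c₂
          (glueRot 𝒟₁.toSurfaceMap 𝒟₂.toSurfaceMap c₁ c₂
            (glueRot 𝒟₁.toSurfaceMap 𝒟₂.toSurfaceMap c₁ c₂ d))) = d
    rintro (x | x | _ | _) hx
    · have e1 := (𝒟₁.cross x hx).1
      have e2 := (𝒟₁.cross _ e1).1
      have e3 := (𝒟₁.cross _ e2).1
      rw [rot_l_pos _ _ h₁ hx, rot_l_pos _ _ h₁ e1, rot_l_pos _ _ h₁ e2, rot_l_pos _ _ h₁ e3,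
        (𝒟₁.cross x hx).2]
      exact ⟨e1, rfl⟩
    · have e1 := (𝒟₂.cross x hx).1
      have e2 := (𝒟₂.cross _ e1).1
      have e3 := (𝒟₂.cross _ e2).1
      rw [rot_r_pos _ _ h₂ hx, rot_r_pos _ _ h₂ e1, rot_r_pos _ _ h₂ e2, rot_r_pos _ _ h₂ e3,
        (𝒟₂.cross x hx).2]
      exact ⟨e1, rfl⟩
    · exact absurd hx (lt_irrefl _)
    · exact absurd hx (lt_irrefl _)
  cross_prev := by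
    change ∀ d, 0 < gPos 𝒟₁ 𝒟₂ d →
      gSrc 𝒟₁ 𝒟₂ c₁ c₂ (glueRev 𝒟₁.toSurfaceMap 𝒟₂.toSurfaceMap
        (glueRot 𝒟₁.toSurfaceMap 𝒟₂.toSurfaceMap c₁ c₂
          (glueRot 𝒟₁.toSurfaceMap 𝒟₂.toSurfaceMap c₁ c₂ d))) = gSrc 𝒟₁ 𝒟₂ c₁ c₂ d ∧
      gTgt 𝒟₁ 𝒟₂ c₁ c₂ (glueRev 𝒟₁.toSurfaceMap 𝒟₂.toSurfaceMap
        (glueRot 𝒟₁.toSurfaceMap 𝒟₂.toSurfaceMap c₁ c₂
          (glueRot 𝒟₁.toSurfaceMap 𝒟₂.toSurfaceMap c₁ c₂ d))) = gTgt 𝒟₁ 𝒟₂ c₁ c₂ d ∧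
      gPos 𝒟₁ 𝒟₂ (glueRev 𝒟₁.toSurfaceMap 𝒟₂.toSurfaceMap
        (glueRot 𝒟₁.toSurfaceMap 𝒟₂.toSurfaceMap c₁ c₂
          (glueRot 𝒟₁.toSurfaceMap 𝒟₂.toSurfaceMap c₁ c₂ d))) + 1 = gPos 𝒟₁ 𝒟₂ d
    rintro (x | x | _ | _) hx
    · have e1 := (𝒟₁.cross x hx).1
      rw [rot_l_pos _ _ h₁ hx, rot_l_pos _ _ h₁ e1]
      obtain ⟨q1, q2, q3⟩ := 𝒟₁.cross_prev x hx
      exact ⟨congrArg Sum.inl q1, congrArg Sum.inl q2, q3⟩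
    · have e1 := (𝒟₂.cross x hx).1
      rw [rot_r_pos _ _ h₂ hx, rot_r_pos _ _ h₂ e1]
      obtain ⟨q1, q2, q3⟩ := 𝒟₂.cross_prev x hx
      exact ⟨congrArg Sum.inr q1, congrArg Sum.inr q2, q3⟩
    · exact absurd hx (lt_irrefl _)
    · exact absurd hx (lt_irrefl _)
  cross_ne := by
    change ∀ d, 0 < gPos 𝒟₁ 𝒟₂ d →
      ¬ (gSrc 𝒟₁ 𝒟₂ c₁ c₂ (glueRot 𝒟₁.toSurfaceMap 𝒟₂.toSurfaceMap c₁ c₂ d) =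
          gSrc 𝒟₁ 𝒟₂ c₁ c₂ d ∧
        gTgt 𝒟₁ 𝒟₂ c₁ c₂ (glueRot 𝒟₁.toSurfaceMap 𝒟₂.toSurfaceMap c₁ c₂ d) =
          gTgt 𝒟₁ 𝒟₂ c₁ c₂ d) ∧
      ¬ (gSrc 𝒟₁ 𝒟₂ c₁ c₂ (glueRot 𝒟₁.toSurfaceMap 𝒟₂.toSurfaceMap c₁ c₂ d) =
          gTgt 𝒟₁ 𝒟₂ c₁ c₂ d ∧
        gTgt 𝒟₁ 𝒟₂ c₁ c₂ (glueRot 𝒟₁.toSurfaceMap 𝒟₂.toSurfaceMap c₁ c₂ d) =
          gSrc 𝒟₁ 𝒟₂ c₁ c₂ d)
    rintro (x | x | _ | _) hx
    · rw [rot_l_pos _ _ h₁ hx]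
      obtain ⟨q1, q2⟩ := 𝒟₁.cross_ne x hx
      exact ⟨fun h => q1 ⟨Sum.inl.inj h.1, Sum.inl.inj h.2⟩,
        fun h => q2 ⟨Sum.inl.inj h.1, Sum.inl.inj h.2⟩⟩
    · rw [rot_r_pos _ _ h₂ hx]
      obtain ⟨q1, q2⟩ := 𝒟₂.cross_ne x hx
      exact ⟨fun h => q1 ⟨Sum.inr.inj h.1, Sum.inr.inj h.2⟩,
        fun h => q2 ⟨Sum.inr.inj h.1, Sum.inr.inj h.2⟩⟩
    · exact absurd hx (lt_irrefl _)
    · exact absurd hx (lt_irrefl _)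

end

end Pool.Agent.KS6_39.HB
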