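import Pool.Agent.KS6_39.HB.GlueD

/-! # Properties of the drawings joined by a bridge -/

set_option autoImplicit false

namespace Pool.Agent.KS6_39.HB

open Equiv TH482.HT Pool.Agent.N398.HT

variable {V₁ V₂ : Type} {G₁ : SimpleGraph V₁} {G₂ : SimpleGraph V₂} (𝒟₁ : Drawing G₁)
  (𝒟₂ : Drawing G₂) {c₁ : 𝒟₁.D} {c₂ : 𝒟₂.D} (h₁ : 𝒟₁.pos c₁ = 0) (h₂ : 𝒟₂.pos c₂ = 0)

theorem glue_euler : (glueDrawing 𝒟₁ 𝒟₂ h₁ h₂).toSurfaceMap.euler =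
    𝒟₁.toSurfaceMap.euler + 𝒟₂.toSurfaceMap.euler - 2 :=
  (glueBridge 𝒟₁.toSurfaceMap 𝒟₂.toSurfaceMap c₁ c₂).euler

theorem left_eq_l (u v u' v' : V₁) :
    (glueDrawing 𝒟₁ 𝒟₂ h₁ h₂).leftCrossings (.inl u) (.inl v) (.inl u') (.inl v') =
      GD.l '' 𝒟₁.leftCrossings u v u' v' := by
  ext d
  constructor
  · rintro ⟨d1, d2, d3, d4, d5⟩
    change 0 < gPos 𝒟₁ 𝒟₂ d at d1
    change gSrc 𝒟₁ 𝒟₂ c₁ c₂ d = _ at d2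
    change gTgt 𝒟₁ 𝒟₂ c₁ c₂ d = _ at d3
    change gSrc 𝒟₁ 𝒟₂ c₁ c₂ (glueRot 𝒟₁.toSurfaceMap 𝒟₂.toSurfaceMap c₁ c₂ d) = _ at d4
    change gTgt 𝒟₁ 𝒟₂ c₁ c₂ (glueRot 𝒟₁.toSurfaceMap 𝒟₂.toSurfaceMap c₁ c₂ d) = _ at d5
    rcases d with x | x | _ | _
    · rw [rot_l_pos _ _ h₁ d1] at d4 d5
      exact ⟨x, ⟨d1, Sum.inl.inj d2, Sum.inl.inj d3, Sum.inl.inj d4, Sum.inl.inj d5⟩, rfl⟩
    · cases d2
    · exact absurd d1 (lt_irrefl _)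
    · exact absurd d1 (lt_irrefl _)
  · rintro ⟨x, ⟨d1, d2, d3, d4, d5⟩, rfl⟩
    refine ⟨d1, congrArg Sum.inl d2, congrArg Sum.inl d3, ?_, ?_⟩
    · change gSrc 𝒟₁ 𝒟₂ c₁ c₂ (glueRot 𝒟₁.toSurfaceMap 𝒟₂.toSurfaceMap c₁ c₂ (.l x)) = _
      rw [rot_l_pos _ _ h₁ d1]
      exact congrArg Sum.inl d4
    · change gTgt 𝒟₁ 𝒟₂ c₁ c₂ (glueRot 𝒟₁.toSurfaceMap 𝒟₂.toSurfaceMap c₁ c₂ (.l x)) = _
      rw [rot_l_pos _ _ h₁ d1]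
      exact congrArg Sum.inl d5

theorem left_eq_r (u v u' v' : V₂) :
    (glueDrawing 𝒟₁ 𝒟₂ h₁ h₂).leftCrossings (.inr u) (.inr v) (.inr u') (.inr v') =
      GD.r '' 𝒟₂.leftCrossings u v u' v' := by
  ext d
  constructor
  · rintro ⟨d1, d2, d3, d4, d5⟩
    change 0 < gPos 𝒟₁ 𝒟₂ d at d1
    change gSrc 𝒟₁ 𝒟₂ c₁ c₂ d = _ at d2
    change gTgt 𝒟₁ 𝒟₂ c₁ c₂ d = _ at d3
    change gSrc 𝒟₁ 𝒟₂ c₁ c₂ (glueRot 𝒟₁.toSurfaceMap 𝒟₂.toSurfaceMap c₁ c₂ d) = _ at d4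
    change gTgt 𝒟₁ 𝒟₂ c₁ c₂ (glueRot 𝒟₁.toSurfaceMap 𝒟₂.toSurfaceMap c₁ c₂ d) = _ at d5
    rcases d with x | x | _ | _
    · cases d2
    · rw [rot_r_pos _ _ h₂ d1] at d4 d5
      exact ⟨x, ⟨d1, Sum.inr.inj d2, Sum.inr.inj d3, Sum.inr.inj d4, Sum.inr.inj d5⟩, rfl⟩
    · exact absurd d1 (lt_irrefl _)
    · exact absurd d1 (lt_irrefl _)
  · rintro ⟨x, ⟨d1, d2, d3, d4, d5⟩, rfl⟩
    refine ⟨d1, congrArg Sum.inr d2, congrArg Sum.inr d3, ?_, ?_⟩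
    · change gSrc 𝒟₁ 𝒟₂ c₁ c₂ (glueRot 𝒟₁.toSurfaceMap 𝒟₂.toSurfaceMap c₁ c₂ (.r x)) = _
      rw [rot_r_pos _ _ h₂ d1]
      exact congrArg Sum.inr d4
    · change gTgt 𝒟₁ 𝒟₂ c₁ c₂ (glueRot 𝒟₁.toSurfaceMap 𝒟₂.toSurfaceMap c₁ c₂ (.r x)) = _
      rw [rot_r_pos _ _ h₂ d1]
      exact congrArg Sum.inr d5

theorem card_left_l (u v u' v' : V₁) : Nat.card ((glueDrawing 𝒟₁ 𝒟₂ h₁ h₂).leftCrossings
    (.inl u) (.inl v) (.inl u') (.inl v')) = Nat.card (𝒟₁.leftCrossings u v u' v') := by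
  rw [left_eq_l]
  exact Nat.card_image_of_injective (f := (GD.l : 𝒟₁.D → GD 𝒟₁.D 𝒟₂.D))
    (fun _ _ h => GD.l.inj h) _

theorem card_left_r (u v u' v' : V₂) : Nat.card ((glueDrawing 𝒟₁ 𝒟₂ h₁ h₂).leftCrossings
    (.inr u) (.inr v) (.inr u') (.inr v')) = Nat.card (𝒟₂.leftCrossings u v u' v') := by
  rw [left_eq_r]
  exact Nat.card_image_of_injective (f := (GD.r : 𝒟₂.D → GD 𝒟₁.D 𝒟₂.D))
    (fun _ _ h => GD.r.inj h) _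

/-- At a crossing all four ends are on the same side. -/
theorem left_nonempty {u v u' v' : V₁ ⊕ V₂}
    (h : ((glueDrawing 𝒟₁ 𝒟₂ h₁ h₂).leftCrossings u v u' v').Nonempty) :
    (∃ a b c d, u = .inl a ∧ v = .inl b ∧ u' = .inl c ∧ v' = .inl d) ∨
    (∃ a b c d, u = .inr a ∧ v = .inr b ∧ u' = .inr c ∧ v' = .inr d) := by
  obtain ⟨d, d1, d2, d3, d4, d5⟩ := h
  change 0 < gPos 𝒟₁ 𝒟₂ d at d1
  change gSrc 𝒟₁ 𝒟₂ c₁ c₂ d = _ at d2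
  change gTgt 𝒟₁ 𝒟₂ c₁ c₂ d = _ at d3
  change gSrc 𝒟₁ 𝒟₂ c₁ c₂ (glueRot 𝒟₁.toSurfaceMap 𝒟₂.toSurfaceMap c₁ c₂ d) = _ at d4
  change gTgt 𝒟₁ 𝒟₂ c₁ c₂ (glueRot 𝒟₁.toSurfaceMap 𝒟₂.toSurfaceMap c₁ c₂ d) = _ at d5
  rcases d with x | x | _ | _
  · rw [rot_l_pos _ _ h₁ d1] at d4 d5
    exact Or.inl ⟨_, _, _, _, d2.symm, d3.symm, d4.symm, d5.symm⟩
  · rw [rot_r_pos _ _ h₂ d1] at d4 d5
    exact Or.inr ⟨_, _, _, _, d2.symm, d3.symm, d4.symm, d5.symm⟩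
  · exact absurd d1 (lt_irrefl _)
  · exact absurd d1 (lt_irrefl _)

theorem glue_indepEven (e₁ : 𝒟₁.IndepEven) (e₂ : 𝒟₂.IndepEven) :
    (glueDrawing 𝒟₁ 𝒟₂ h₁ h₂).IndepEven := by
  intro u v u' v' hu hu' hi
  by_cases hne : ((glueDrawing 𝒟₁ 𝒟₂ h₁ h₂).leftCrossings u v u' v').Nonempty ∨
      ((glueDrawing 𝒟₁ 𝒟₂ h₁ h₂).leftCrossings u v v' u').Nonempty
  · have hcase : (∃ a b c d, u = .inl a ∧ v = .inl b ∧ u' = .inl c ∧ v' = .inl d) ∨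
        (∃ a b c d, u = .inr a ∧ v = .inr b ∧ u' = .inr c ∧ v' = .inr d) := by
      rcases hne with h | h
      · exact left_nonempty _ _ h₁ h₂ h
      · rcases left_nonempty _ _ h₁ h₂ h with ⟨a, b, c, d, q1, q2, q3, q4⟩ |
          ⟨a, b, c, d, q1, q2, q3, q4⟩
        · exact Or.inl ⟨a, b, d, c, q1, q2, q4, q3⟩
        · exact Or.inr ⟨a, b, d, c, q1, q2, q4, q3⟩
    rcases hcase with ⟨a, b, c, d, rfl, rfl, rfl, rfl⟩ | ⟨a, b, c, d, rfl, rfl, rfl, rfl⟩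
    · have hi' : Indep a b c d := ⟨fun h => hi.1 (congrArg _ h), fun h => hi.2.1 (congrArg _ h),
        fun h => hi.2.2.1 (congrArg _ h), fun h => hi.2.2.2 (congrArg _ h)⟩
      have := e₁ a b c d hu hu' hi'
      rw [card_left_l, card_left_l]
      exact this
    · have hi' : Indep a b c d := ⟨fun h => hi.1 (congrArg _ h), fun h => hi.2.1 (congrArg _ h),
        fun h => hi.2.2.1 (congrArg _ h), fun h => hi.2.2.2 (congrArg _ h)⟩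
      have := e₂ a b c d hu hu' hi'
      rw [card_left_r, card_left_r]
      exact this
  · push Not at hne
    rw [hne.1, hne.2]
    simp

/-- the corner of the glued drawing -/
theorem glue_avoid (A₁ : AdjInDiscAvoid 𝒟₁ (𝒟₁.rev c₁)) (A₂ : AdjInDiscAvoid 𝒟₂ (𝒟₂.rev c₂))
    (d₁ : ∀ v, ∃ v', v' ≠ v ∧ G₁.Adj (𝒟₁.src c₁) v')
    (d₂ : ∀ v, ∃ v', v' ≠ v ∧ G₂.Adj (𝒟₂.src c₂) v') :
    AdjInDiscAvoid (glueDrawing 𝒟₁ 𝒟₂ h₁ h₂) ((glueDrawing 𝒟₁ 𝒟₂ h₁ h₂).rev (GD.l c₁)) := by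
  let B := glueBridge 𝒟₁.toSurfaceMap 𝒟₂.toSurfaceMap c₁ c₂
  have hdl : ∀ (d : (glueDrawing 𝒟₁ 𝒟₂ h₁ h₂).D) (u v : V₁),
      (glueDrawing 𝒟₁ 𝒟₂ h₁ h₂).src d = .inl u → (glueDrawing 𝒟₁ 𝒟₂ h₁ h₂).tgt d = .inl v →
      ∃ x, B.i₁ x = d := by
    rintro (x | x | _ | _) u v e1 e2
    · exact ⟨x, rfl⟩
    · cases e1
    · cases e2
    · cases e1
  have hdr : ∀ (d : (glueDrawing 𝒟₁ 𝒟₂ h₁ h₂).D) (u v : V₂),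
      (glueDrawing 𝒟₁ 𝒟₂ h₁ h₂).src d = .inr u → (glueDrawing 𝒟₁ 𝒟₂ h₁ h₂).tgt d = .inr v →
      ∃ x, B.symm.i₁ x = d := by
    rintro (x | x | _ | _) u v e1 e2
    · cases e1
    · exact ⟨x, rfl⟩
    · cases e1
    · cases e2
  have hpl : ∀ d : (glueDrawing 𝒟₁ 𝒟₂ h₁ h₂).D,
      (glueDrawing 𝒟₁ 𝒟₂ h₁ h₂).src d = .inl (𝒟₁.src c₁) →
      (glueDrawing 𝒟₁ 𝒟₂ h₁ h₂).tgt d = .inr (𝒟₂.src c₂) → d = B.p := by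
    rintro (x | x | _ | _) e1 e2
    · cases e2
    · cases e1
    · rfl
    · cases e1
  have hpr : ∀ d : (glueDrawing 𝒟₁ 𝒟₂ h₁ h₂).D,
      (glueDrawing 𝒟₁ 𝒟₂ h₁ h₂).src d = .inr (𝒟₂.src c₂) →
      (glueDrawing 𝒟₁ 𝒟₂ h₁ h₂).tgt d = .inl (𝒟₁.src c₁) → d = B.symm.p := by
    rintro (x | x | _ | _) e1 e2
    · cases e1
    · cases e2
    · cases e1
    · rfl
  have fin1 : ∀ (Y : Subcomplex (glueDrawing 𝒟₁ 𝒟₂ h₁ h₂).toSurfaceMap),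
      (∀ d ∈ Y.fs, ∃ x, x ≠ B.e₁ ∧ B.i₁ x = d) →
      (glueDrawing 𝒟₁ 𝒟₂ h₁ h₂).rev (GD.l c₁) ∉ Y.fs := by
    intro Y hY h
    obtain ⟨x, hx, he⟩ := hY _ h
    exact hx (GD.l.inj he)
  have fin2 : ∀ (Y : Subcomplex (glueDrawing 𝒟₁ 𝒟₂ h₁ h₂).toSurfaceMap),
      (∀ d ∈ Y.fs, ∃ x, x ≠ B.symm.e₁ ∧ B.symm.i₁ x = d) →
      (glueDrawing 𝒟₁ 𝒟₂ h₁ h₂).rev (GD.l c₁) ∉ Y.fs := by
    intro Y hY h
    obtain ⟨x, hx, he⟩ := hY _ h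
    cases he
  rintro (u | u) v v' hv hv' hne
  · rcases v with v | v <;> rcases v' with v' | v'
    · obtain ⟨Y, y1, y2, y3⟩ := disc_side (𝒟 := glueDrawing 𝒟₁ 𝒟₂ h₁ h₂) (𝒟₁ := 𝒟₁) B
        Sum.inl_injective (fun _ => rfl) (fun _ => rfl) hdl A₁ (u := u) (v := v) (v' := v')
        hv hv' (fun h => hne (congrArg _ h))
      exact ⟨Y, y1, fin1 Y y2, y3⟩
    · obtain ⟨rfl, rfl⟩ := hv'
      obtain ⟨Y, y1, y2, y3⟩ := disc_bridge (𝒟 := glueDrawing 𝒟₁ 𝒟₂ h₁ h₂) (𝒟₁ := 𝒟₁) B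
        Sum.inl_injective (fun _ => rfl) (fun _ => rfl) h₁ A₁ d₁ (v := v) hv
        (w := Sum.inr (𝒟₂.src c₂)) (fun z h => by cases h) hpl hdl
      exact ⟨Y, y1, fin1 Y y2, y3⟩
    · obtain ⟨rfl, rfl⟩ := hv
      obtain ⟨Y, y1, y2, y3⟩ := disc_bridge (𝒟 := glueDrawing 𝒟₁ 𝒟₂ h₁ h₂) (𝒟₁ := 𝒟₁) B
        Sum.inl_injective (fun _ => rfl) (fun _ => rfl) h₁ A₁ d₁ (v := v') hv'
        (w := Sum.inr (𝒟₂.src c₂)) (fun z h => by cases h) hpl hdl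
      exact ⟨Y, y1, fin1 Y y2, fun d hd => y3 d ⟨hd.1, hd.2.symm⟩⟩
    · obtain ⟨rfl, rfl⟩ := hv
      obtain ⟨_, rfl⟩ := hv'
      exact absurd rfl hne
  · rcases v with v | v <;> rcases v' with v' | v'
    · obtain ⟨rfl, rfl⟩ := hv
      obtain ⟨_, rfl⟩ := hv'
      exact absurd rfl hne
    · obtain ⟨rfl, rfl⟩ := hv
      obtain ⟨Y, y1, y2, y3⟩ := disc_bridge (𝒟 := glueDrawing 𝒟₁ 𝒟₂ h₁ h₂) (𝒟₁ := 𝒟₂) B.symm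
        Sum.inr_injective (fun _ => rfl) (fun _ => rfl) h₂ A₂ d₂ (v := v') hv'
        (w := Sum.inl (𝒟₁.src c₁)) (fun z h => by cases h) hpr hdr
      exact ⟨Y, y1, fin2 Y y2, fun d hd => y3 d ⟨hd.1, hd.2.symm⟩⟩
    · obtain ⟨rfl, rfl⟩ := hv'
      obtain ⟨Y, y1, y2, y3⟩ := disc_bridge (𝒟 := glueDrawing 𝒟₁ 𝒟₂ h₁ h₂) (𝒟₁ := 𝒟₂) B.symm
        Sum.inr_injective (fun _ => rfl) (fun _ => rfl) h₂ A₂ d₂ (v := v) hv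
        (w := Sum.inl (𝒟₁.src c₁)) (fun z h => by cases h) hpr hdr
      exact ⟨Y, y1, fin2 Y y2, y3⟩
    · obtain ⟨Y, y1, y2, y3⟩ := disc_side (𝒟 := glueDrawing 𝒟₁ 𝒟₂ h₁ h₂) (𝒟₁ := 𝒟₂) B.symm
        Sum.inr_injective (fun _ => rfl) (fun _ => rfl) hdr A₂ (u := u) (v := v) (v' := v')
        hv hv' (fun h => hne (congrArg _ h))
      exact ⟨Y, y1, fin2 Y y2, y3⟩

/-- `G` has a drawing of genus `g` in which independent edges cross evenly and adjacent edges lie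
in discs (avoiding a corner at a vertex of degree at least two), and every embedding of `G` has
genus larger than `h`. -/
def Good (g h : ℤ) : Prop :=
  ∃ (V : Type) (_ : Fintype V) (G : SimpleGraph V), G.Connected ∧
    (∃ (𝒟 : Drawing G) (c : 𝒟.D), 𝒟.toSurfaceMap.euler = 2 - 2 * g ∧ 𝒟.IndepEven ∧
      𝒟.pos c = 0 ∧ AdjInDiscAvoid 𝒟 (𝒟.rev c) ∧
      ∀ v, ∃ v', v' ≠ v ∧ G.Adj (𝒟.src c) v') ∧
    ∀ ℰ : Drawing G, ℰ.IsEmbedding → ℰ.toSurfaceMap.euler ≤ - 2 * h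

theorem Good.add {g h g' h' : ℤ} (H : Good g h) (H' : Good g' h') :
    Good (g + g') (h + h' + 1) := by
  obtain ⟨V₁, f₁, G₁, k₁, ⟨𝒟₁, c₁, a1, a2, a3, a4, a5⟩, a6⟩ := H
  obtain ⟨V₂, f₂, G₂, k₂, ⟨𝒟₂, c₂, b1, b2, b3, b4, b5⟩, b6⟩ := H'
  refine ⟨V₁ ⊕ V₂, inferInstance, bridgeGraph G₁ G₂ (𝒟₁.src c₁) (𝒟₂.src c₂),
    bridgeGraph_connected k₁ k₂, ⟨glueDrawing 𝒟₁ 𝒟₂ a3 b3, GD.l c₁, ?_, ?_, a3, ?_, ?_⟩, ?_⟩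
  · rw [glue_euler, a1, b1]
    ring
  · exact glue_indepEven _ _ _ _ a2 b2
  · exact glue_avoid _ _ _ _ a4 b4 a5 b5
  · rintro (v | v)
    · obtain ⟨v', h1, h2⟩ := a5 v
      exact ⟨.inl v', fun h => h1 (Sum.inl.inj h), h2⟩
    · obtain ⟨v', h1, h2⟩ := a5 (𝒟₁.src c₁)
      exact ⟨.inl v', fun h => by (cases h), h2⟩
  · intro ℰ hℰ
    obtain ⟨ℰ₁, ℰ₂, e1, e2, e3⟩ := split (by obtain ⟨v, _, h⟩ := a5 (𝒟₁.src c₁); exact ⟨v, h⟩)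
      (by obtain ⟨v, _, h⟩ := b5 (𝒟₂.src c₂); exact ⟨v, h⟩) ℰ hℰ
    have := a6 ℰ₁ e1
    have := b6 ℰ₂ e2
    rw [e3]
    linarith

end Pool.Agent.KS6_39.HB
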