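import Mathlib
import Pool.Agent.KS6_39.HB.Flat
import Pool.Agent.KS6_39.HB.Check

/-! # Lower bound for the genus of the grid with letter vertices -/

namespace TH482.HT

open Equiv Module

theorem mkRow_succ (f : ℕ → Bool) (n : ℕ) :
    mkRow f (n + 1) = cond (f n) (mkRow f n + 2 ^ n) (mkRow f n) := rfl

theorem mkRow_lt (f : ℕ → Bool) (n : ℕ) : mkRow f n < 2 ^ n := by
  induction n with
  | zero => exact Nat.one_pos
  | succ n ih =>
    rw [mkRow_succ, pow_succ]
    cases f n
    · rw [cond_false]; omega
    · rw [cond_true]; omega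

theorem mkRow_testBit (f : ℕ → Bool) (n j : ℕ) :
    (mkRow f n).testBit j = (decide (j < n) && f j) := by
  induction n with
  | zero =>
    have : mkRow f 0 = 0 := rfl
    rw [this]; simp
  | succ n ih =>
    have hlt := mkRow_lt f n
    rw [mkRow_succ]
    cases hf : f n
    · rw [cond_false, ih]
      rcases Nat.lt_trichotomy j n with h | h | h
      · have : j < n + 1 := by omega
        simp [h, this]
      · subst h; simp [hf]
      · have h1 : ¬ j < n := by omega
        have h2 : ¬ j < n + 1 := by omega
        simp [h1, h2]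
    · rw [cond_true, Nat.add_comm]
      rcases Nat.lt_trichotomy j n with h | h | h
      · have : j < n + 1 := by omega
        rw [Nat.testBit_two_pow_add_gt h, ih]
        simp [h, this]
      · subst h
        rw [Nat.testBit_two_pow_add_eq, ih]
        simp [hf]
      · have h1 : ¬ j < n + 1 := by omega
        rw [Nat.testBit_lt_two_pow]
        · simp [h1]
        · calc 2 ^ n + mkRow f n < 2 ^ n + 2 ^ n := by omega
            _ = 2 ^ (n + 1) := by ring
            _ ≤ 2 ^ j := Nat.pow_le_pow_right (by norm_num) (by omega)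

theorem allB_spec {n : ℕ} {p : ℕ → Bool} (h : allB n p = true) : ∀ j < n, p j = true := by
  induction n with
  | zero => intro j hj; omega
  | succ n ih =>
    have h0 : allB (n + 1) p = cond (p n) (allB n p) false := rfl
    rw [h0] at h
    intro j hj
    cases hp : p n
    · rw [hp, cond_false] at h; exact absurd h (by decide)
    · rw [hp, cond_true] at h
      rcases Nat.lt_or_ge j n with h1 | h1
      · exact ih h j h1
      · have : j = n := by omega
        rw [this]; exact hp

theorem allB_intro {n : ℕ} {p : ℕ → Bool} (h : ∀ j < n, p j = true) : allB n p = true := by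
  induction n with
  | zero => rfl
  | succ n ih =>
    have h0 : allB (n + 1) p = cond (p n) (allB n p) false := rfl
    rw [h0, h n (by omega), cond_true]
    exact ih fun j hj => h j (by omega)

/-- Data of a word and of its Gram matrix. -/
structure WData (N k : ℕ) where
  w : Fin (N + 1) → Fin k
  bcol : Fin k → Fin (N + 1)
  hb : ∀ l, w (bcol l) = l
  nc : ℕ
  P : ℕ → Fin (N + 1)
  hP : ∀ i < nc, bcol (w (P i)) < P i
  hmono : ∀ j < nc, ∀ i < j, w (P i) = w (P j) → P i < P j
  np : ℕ
  sm : ℕ → ℕ → Bool
  nb : ℕ → ℕ → Bool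
  pidx : ℕ → ℕ → ℕ
  pI : ℕ → ℕ
  pJ : ℕ → ℕ
  hsm : ∀ i < nc, ∀ j < nc, sm i j = decide (w (P i) = w (P j))
  hnb : ∀ i < nc, ∀ j < nc, w (P i) ≠ w (P j) →
    nb i j = Bool.xor (Bool.xor (decide (bcol (w (P j)) < bcol (w (P i))))
      (decide (P j < bcol (w (P i))))) (Bool.xor (decide (bcol (w (P j)) < P i))
      (decide (P j < P i)))
  hpi : ∀ j < nc, ∀ i < j, w (P i) = w (P j) → pidx i j < np ∧ pI (pidx i j) = i ∧
    pJ (pidx i j) = j

namespace WData

variable {N M k : ℕ} (D : WData N k)

theorem rowsB_congr {nc : ℕ} {sm nb u u' : ℕ → ℕ → Bool}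
    (h : ∀ j < nc, ∀ i < j, sm i j = true → u i j = u' i j)
    (hs : ∀ i < nc, ∀ j < nc, sm i j = sm j i) :
    rowsB nc sm nb u = rowsB nc sm nb u' := by
  apply List.map_congr_left
  intro i hi
  rw [List.mem_range] at hi
  have : ∀ n, n ≤ nc → mkRow (entB sm nb u i) n = mkRow (entB sm nb u' i) n := by
    intro n
    induction n with
    | zero => intro _; rfl
    | succ n ih =>
      intro hn
      rw [mkRow_succ, mkRow_succ, ih (by omega)]
      have : entB sm nb u i n = entB sm nb u' i n := by
        simp only [entB]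
        cases hsm : sm i n
        · rfl
        · simp only [cond_true]
          cases h1 : Nat.blt i n
          · cases h2 : Nat.blt n i
            · rfl
            · simp only [cond_false, cond_true]
              have h3 : n < i := by
                rw [Nat.blt, Nat.ble_eq] at h2; exact h2
              exact h i hi n h3 (by rw [hs n (by omega) i hi]; exact hsm)
          · simp only [cond_true]
            have h3 : i < n := by
              rw [Nat.blt, Nat.ble_eq] at h1; exact h1
            exact h n (by omega) i h3 hsm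
      rw [this]
  exact this nc le_rfl

theorem check_all {g2 : ℕ} (hf : finalB D.nc D.np g2 D.sm D.nb D.pidx = true)
    (u : ℕ → ℕ → Bool)
    (hu : ∀ l < D.nc, ∀ j < l, ∀ i < j, D.w (D.P i) = D.w (D.P j) → D.w (D.P j) = D.w (D.P l) →
      u i j = u j l → u i j = u i l) :
    g2 ≤ elim D.nc (rowsB D.nc D.sm D.nb u) := by
  set code := mkRow (fun b => u (D.pI b) (D.pJ b)) D.np with hcode
  have hcl : code < 2 ^ D.np := mkRow_lt _ _
  have huc : ∀ j < D.nc, ∀ i < j, D.sm i j = true → uB D.pidx code i j = u i j := by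
    intro j hj i hi hs
    rw [D.hsm i (by omega) j hj, decide_eq_true_eq] at hs
    obtain ⟨h1, h2, h3⟩ := D.hpi j hj i hi hs
    rw [uB, bit_eq, hcode, mkRow_testBit, h2, h3]
    simp [h1]
  have hsym : ∀ i < D.nc, ∀ j < D.nc, D.sm i j = D.sm j i := by
    intro i hi j hj
    rw [D.hsm i hi j hj, D.hsm j hj i hi]
    exact decide_eq_decide.mpr eq_comm
  have h1 := allB_spec hf code hcl
  have hvalid : validB D.nc D.sm (uB D.pidx code) = true := by
    apply allB_intro
    intro l hl
    apply allB_intro
    intro j hj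
    cases hs : D.sm j l
    · rfl
    · rw [cond_true]
      apply allB_intro
      intro i hi
      cases hs2 : D.sm i j
      · rfl
      · rw [cond_true]
        have e1 := huc j (by omega) i hi hs2
        have e2 := huc l hl j hj hs
        have q1 : D.w (D.P i) = D.w (D.P j) := by
          have := D.hsm i (by omega) j (by omega)
          rw [hs2] at this
          exact of_decide_eq_true this.symm
        have q2 : D.w (D.P j) = D.w (D.P l) := by
          have := D.hsm j (by omega) l hl
          rw [hs] at this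
          exact of_decide_eq_true this.symm
        have q3 : D.sm i l = true := by
          rw [D.hsm i (by omega) l hl, decide_eq_true_eq, q1, q2]
        have e3 := huc l hl i (by omega) q3
        rw [e1, e2, e3]
        have hh := hu l hl j hj i hi q1 q2
        cases h4 : u i j <;> cases h5 : u j l <;> cases h6 : u i l <;>
          first | rfl | (rw [h4, h5, h6] at hh; exact absurd (hh rfl) (by decide))
  rw [hvalid, cond_true, Nat.ble_eq] at h1
  rw [rowsB_congr (u := u) (u' := uB D.pidx code) (fun j hj i hi hs => (huc j hj i hi hs).symm)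
    hsym]
  exact h1

/-- the column vector of the `i`-th cycle -/
def xv (i : ℕ) : Fin (N + 1) → K := fun c =>
  (if c = D.bcol (D.w (D.P i)) then 1 else 0) + (if c = D.P i then 1 else 0)

theorem xv_sum (i : ℕ) (f : Fin (N + 1) → K) :
    ∑ c, D.xv i c * f c = f (D.bcol (D.w (D.P i))) + f (D.P i) := by
  simp only [xv, add_mul, Finset.sum_add_distrib, ite_mul, one_mul, zero_mul, Finset.sum_ite_eq',
    Finset.mem_univ, if_true]

theorem xv_even (i : ℕ) : LetterEven D.w (D.xv i) := by
  intro l
  have h1 : (∑ c : Fin (N + 1), if D.w c = l then D.xv i c else 0) =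
      ∑ c, D.xv i c * (if D.w c = l then 1 else 0) := by
    apply Finset.sum_congr rfl
    intro c _
    by_cases h : D.w c = l <;> simp [h]
  rw [h1, xv_sum, D.hb]
  exact CharTwo.add_self_eq_zero _

theorem pre_xv (i : ℕ) (c : ℕ) : pre (D.xv i) c =
    (if (D.bcol (D.w (D.P i))).val < c then 1 else 0) + (if (D.P i).val < c then 1 else 0) := by
  have h1 : pre (D.xv i) c = ∑ s : Fin (N + 1), D.xv i s * (if s.val < c then 1 else 0) := by
    rw [pre]
    apply Finset.sum_congr rfl
    intro s _
    by_cases h : s.val < c <;> simp [h]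
  rw [h1, xv_sum]

/-- the dart at the letter vertex in column `c` -/
abbrev T (M : ℕ) (c : Fin (N + 1)) : Ed N M × Bool := (Sum.inr (c, Fin.last M), true)

def tb (b : Bool) : K := if b then 1 else 0

theorem tb_xor (a b : Bool) : tb (Bool.xor a b) = tb a + tb b := by
  cases a <;> cases b <;> rfl

theorem ite_tb (p : Prop) [Decidable p] : (if p then (1 : K) else 0) = tb (decide p) := by
  by_cases h : p <;> simp [h, tb]

/-- the order bits -/
def ub (ord : Ed N M × Bool → ℕ) (η : K) (i j : ℕ) : Bool :=
  decide (η + cmp ord (T M (D.P i)) (T M (D.P j)) = 1)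

variable {rot : Perm (Ed N M × Bool)} {ord : Ed N M × Bool → ℕ}

theorem T_ne {c c' : Fin (N + 1)} (h : c ≠ c') : T M c ≠ T M c' := by
  intro he
  apply h
  simp only [T, Prod.mk.injEq, Sum.inr.injEq, and_true] at he
  exact he

theorem K_cases (a : K) : a = 0 ∨ a = 1 := by revert a; decide

theorem ub_trans (ho : IsOrd rot (tail D.w) ord) (η : K) :
    ∀ l < D.nc, ∀ j < l, ∀ i < j, D.w (D.P i) = D.w (D.P j) → D.w (D.P j) = D.w (D.P l) →
      D.ub ord η i j = D.ub ord η j l → D.ub ord η i j = D.ub ord η i l := by
  intro l hl j hj i hi h1 h2 h3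
  have key : cmp ord (T M (D.P i)) (T M (D.P j)) = cmp ord (T M (D.P j)) (T M (D.P l)) →
      cmp ord (T M (D.P i)) (T M (D.P j)) = cmp ord (T M (D.P i)) (T M (D.P l)) := by
    intro h
    have n1 : ord (T M (D.P i)) ≠ ord (T M (D.P j)) := by
      intro he
      have := ho.inj _ _ (by rw [tail_T, tail_T, h1]) he
      exact T_ne (ne_of_lt (D.hmono j (by omega) i hi h1)) this
    have n2 : ord (T M (D.P j)) ≠ ord (T M (D.P l)) := by
      intro he
      have := ho.inj _ _ (by rw [tail_T, tail_T, h2]) he
      exact T_ne (ne_of_lt (D.hmono l hl j hj h2)) this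
    simp only [cmp] at h ⊢
    by_cases a1 : ord (T M (D.P i)) < ord (T M (D.P j))
    · by_cases a2 : ord (T M (D.P j)) < ord (T M (D.P l))
      · rw [if_pos a1, if_pos (by omega)]
      · rw [if_pos a1, if_neg a2] at h; exact absurd h (by decide)
    · by_cases a2 : ord (T M (D.P j)) < ord (T M (D.P l))
      · rw [if_neg a1, if_pos a2] at h; exact absurd h (by decide)
      · rw [if_neg a1, if_neg (by omega)]
  have inj : ∀ η a b : K, decide (η + a = 1) = decide (η + b = 1) → a = b := by
    decide
  have h4 := inj η _ _ h3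
  rw [ub, ub, key h4]

theorem flat_entry (ho : IsOrd rot (tail D.w) ord)
    (h0 : ∀ l, ord (T M (D.bcol l)) = 0) (ρ : Fin (M + 1)) (η : K)
    (hη : ∀ c, 0 < c → c < N → eta ord ρ c = η) (hN : 0 < N) (i j : ℕ) (hi : i < D.nc)
    (hj : j < D.nc) :
    gg (tail D.w) ord (cyc ρ.val (D.xv i)) (cyc ρ.val (D.xv j)) =
      tb (entB D.sm D.nb (D.ub ord η) i j) := by
  have h2 : (2 : K) = 0 := rfl
  rw [gg_cyc ho (D.xv_even i) (D.xv_even j) ρ η hη hN]
  have e1 : ∑ c : Fin (N + 1), (η * (D.xv i c * pre (D.xv j) c.val) +
      (1 + η) * (pre (D.xv i) c.val * D.xv j c)) =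
      η * (pre (D.xv j) (D.bcol (D.w (D.P i))).val + pre (D.xv j) (D.P i).val) +
      (1 + η) * (pre (D.xv i) (D.bcol (D.w (D.P j))).val + pre (D.xv i) (D.P j).val) := by
    rw [← D.xv_sum i (fun c => pre (D.xv j) c.val), ← D.xv_sum j (fun c => pre (D.xv i) c.val),
      Finset.mul_sum, Finset.mul_sum, ← Finset.sum_add_distrib]
    exact Finset.sum_congr rfl fun c _ => by ring
  have e3 : ∀ c : Fin (N + 1), (∑ c' : Fin (N + 1), if D.w c' = D.w c then
        cmp ord (T M c') (T M c) * D.xv j c' else 0) =
      (if D.w (D.P j) = D.w c then cmp ord (T M (D.bcol (D.w (D.P j)))) (T M c) else 0) +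
      (if D.w (D.P j) = D.w c then cmp ord (T M (D.P j)) (T M c) else 0) := by
    intro c
    have := D.xv_sum j (fun c' => if D.w c' = D.w c then cmp ord (T M c') (T M c) else 0)
    simp only [D.hb] at this
    rw [← this]
    apply Finset.sum_congr rfl
    intro c' _
    by_cases h : D.w c' = D.w c
    · rw [if_pos h, if_pos h, mul_comm]
    · rw [if_neg h, if_neg h, mul_zero]
  rw [e1, D.xv_sum i, e3, e3, D.hb]
  by_cases hs : D.w (D.P i) = D.w (D.P j)
  · -- same letter
    have hsm : D.sm i j = true := by rw [D.hsm i hi j hj, hs]; simp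
    have hBi := D.hP i hi
    have hBj := D.hP j hj
    rw [if_pos hs.symm, if_pos hs.symm, if_pos hs.symm, if_pos hs.symm]
    rw [hs] at hBi ⊢
    set B := D.bcol (D.w (D.P j)) with hB
    have c1 : cmp ord (T M B) (T M B) = 0 := cmp_self _ _
    have c2 : cmp ord (T M (D.P j)) (T M B) = 0 := by
      rw [cmp, h0 (D.w (D.P j)), if_neg (Nat.not_lt_zero _)]
    have c3 : cmp ord (T M B) (T M (D.P i)) = 1 := by
      have hne : ord (T M B) ≠ ord (T M (D.P i)) := by
        intro he
        have := ho.inj _ _ (by rw [tail_T, tail_T, hB, D.hb, hs]) he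
        exact T_ne (ne_of_lt hBi) this
      have h00 := h0 (D.w (D.P j))
      rw [← hB] at h00
      rw [cmp, if_pos (by omega)]
    have p1 : pre (D.xv j) B.val = 0 := by
      rw [D.pre_xv, ← hB, if_neg (by omega), if_neg (by have : B < D.P j := hBj; omega), add_zero]
    have p2 : pre (D.xv i) B.val = 0 := by
      rw [D.pre_xv, hs, ← hB, if_neg (by omega), if_neg (by have : B < D.P i := hBi; omega),
        add_zero]
    have p3 : pre (D.xv j) (D.P i).val = 1 + (if (D.P j).val < (D.P i).val then 1 else 0) := by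
      rw [D.pre_xv, ← hB, if_pos (by have : B < D.P i := hBi; omega)]
    have p4 : pre (D.xv i) (D.P j).val = 1 + (if (D.P i).val < (D.P j).val then 1 else 0) := by
      rw [D.pre_xv, hs, ← hB, if_pos (by have : B < D.P j := hBj; omega)]
    rw [c1, c2, c3, p1, p2, p3, p4]
    rcases Nat.lt_trichotomy i j with h | h | h
    · have hlt := D.hmono j hj i h hs
      have hblt : Nat.blt i j = true := by rw [Nat.blt, Nat.ble_eq]; omega
      rw [entB, hsm, cond_true, hblt, cond_true, ub]
      have hsw := cmp_swap ho (d := T M (D.P j)) (d' := T M (D.P i))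
        (by rw [tail_T, tail_T, hs]) (T_ne (ne_of_gt hlt))
      rw [hsw, if_neg (by have : D.P i < D.P j := hlt; omega),
        if_pos (by have : D.P i < D.P j := hlt; omega)]
      have key : ∀ η a : K, η * (0 + (1 + 0)) + (1 + η) * (0 + (1 + 1)) + (0 + 0 + (1 + (1 + a))) =
          tb (decide (η + a = 1)) := by decide
      exact key η _
    · subst h
      have hblt : Nat.blt i i = false := by
        cases h : Nat.blt i i
        · rfl
        · rw [Nat.blt, Nat.ble_eq] at h; omega
      rw [entB, hsm, cond_true, hblt, cond_false, cond_false, cmp_self, if_neg (by omega)]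
      have : tb false = 0 := rfl
      rw [this]
      linear_combination (1 + η) * h2
    · have hlt := D.hmono i hi j h hs.symm
      have hblt : Nat.blt i j = false := by
        cases h' : Nat.blt i j
        · rfl
        · rw [Nat.blt, Nat.ble_eq] at h'; omega
      have hblt2 : Nat.blt j i = true := by rw [Nat.blt, Nat.ble_eq]; omega
      rw [entB, hsm, cond_true, hblt, cond_false, hblt2, cond_true, ub]
      rw [if_pos (by have : D.P j < D.P i := hlt; omega),
        if_neg (by have : D.P j < D.P i := hlt; omega)]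
      have key : ∀ η a : K, η * (0 + (1 + 1)) + (1 + η) * (0 + (1 + 0)) + (0 + 0 + (1 + a)) =
          tb (decide (η + a = 1)) := by decide
      exact key η _
  · -- different letters
    have hsm : D.sm i j = false := by rw [D.hsm i hi j hj]; simp [hs]
    have hs' : D.w (D.P j) ≠ D.w (D.P i) := fun h => hs h.symm
    rw [if_neg hs', if_neg hs', if_neg hs', if_neg hs', entB, hsm, cond_false,
      D.hnb i hi j hj hs, D.pre_xv, D.pre_xv, D.pre_xv, D.pre_xv, tb_xor, tb_xor, tb_xor,
      ← ite_tb, ← ite_tb, ← ite_tb, ← ite_tb]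
    have flip1 : ∀ a b : Fin (N + 1), D.w a ≠ D.w b →
        (if a.val < b.val then (1 : K) else 0) = 1 + (if b.val < a.val then 1 else 0) := by
      intro a b hab
      have hne : a.val ≠ b.val := fun h => hab (by rw [Fin.ext h])
      rcases Nat.lt_or_ge a.val b.val with h | h
      · rw [if_pos h, if_neg (by omega), add_zero]
      · rw [if_neg (by omega), if_pos (by omega)]
        rfl
    rw [flip1 (D.bcol (D.w (D.P i))) (D.bcol (D.w (D.P j))) (by rw [D.hb, D.hb]; exact hs),
      flip1 (D.P i) (D.bcol (D.w (D.P j))) (by rw [D.hb]; exact hs),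
      flip1 (D.bcol (D.w (D.P i))) (D.P j) (by rw [D.hb]; exact hs),
      flip1 (D.P i) (D.P j) hs]
    simp only [Fin.lt_def]
    generalize (if (D.bcol (D.w (D.P j))).val < (D.bcol (D.w (D.P i))).val then (1 : K) else 0) = a
    generalize (if (D.P j).val < (D.bcol (D.w (D.P i))).val then (1 : K) else 0) = b
    generalize (if (D.bcol (D.w (D.P j))).val < (D.P i).val then (1 : K) else 0) = c
    generalize (if (D.P j).val < (D.P i).val then (1 : K) else 0) = d
    linear_combination (2 * (1 + η) + η * (a + b + c + d)) * h2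

theorem flat_bound [Nonempty (Ed N M)] (ho : IsOrd rot (tail D.w) ord) (hc : Conn rot)
    (h0 : ∀ l, ord (T M (D.bcol l)) = 0) (ρ : Fin (M + 1)) (η : K)
    (hη : ∀ c, 0 < c → c < N → eta ord ρ c = η) (hN : 0 < N) {g2 : ℕ}
    (hf : finalB D.nc D.np g2 D.sm D.nb D.pidx = true) :
    g2 + numOrbits rot + numOrbits (rot * flip) ≤ Fintype.card (Ed N M) + 2 := by
  have h1 := D.check_all hf (D.ub ord η) (D.ub_trans ho η)
  have h3 := rank_bound ho hc D.nc (fun j => if j < D.nc then cyc ρ.val (D.xv j) else 0)
    (by
      intro j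
      by_cases h : j < D.nc
      · rw [if_pos h]
        exact cyc_even (D.xv_even j) ρ.val (Nat.lt_succ_iff.mp ρ.2)
      · rw [if_neg h]
        intro v
        simp)
    (fun i => mkRow (entB D.sm D.nb (D.ub ord η) i) D.nc)
    (by
      intro i hi j
      rw [if_pos hi, vec, mkRow_testBit]
      by_cases h : j < D.nc
      · rw [if_pos h, D.flat_entry ho h0 ρ η hη hN i j hi h]
        simp [h, tb]
      · rw [if_neg h]
        have : gg (tail D.w) ord (cyc ρ.val (D.xv i)) 0 = 0 := by
          rw [gg]
          apply Finset.sum_eq_zero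
          intro e _
          rw [bb_eq_zero (fun _ _ => rfl), bb_eq_zero (fun _ _ => rfl)]
          simp
        rw [this]
        simp [h]) D.nc
  have h4 : (List.range D.nc).map (fun i => mkRow (entB D.sm D.nb (D.ub ord η) i) D.nc) =
      rowsB D.nc D.sm D.nb (D.ub ord η) := rfl
  rw [h4] at h3
  omega

/-- The genus of every rotation system of the grid with letter vertices is large. -/
theorem genus_bound (hT : IsTail rot (tail D.w)) (hc : Conn rot) (hN : 3 ≤ N) (m : ℕ)
    (hm : 3 * m ≤ M + 1) (hel : 2 * m ≤ elim (2 * m) ((List.range (2 * m)).map hrow))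
    (hf : finalB D.nc D.np (2 * m) D.sm D.nb D.pidx = true) :
    2 * m + numOrbits rot + numOrbits (rot * flip) ≤ Fintype.card (Ed N M) + 2 := by
  have : Nonempty (Ed N M) := ⟨Sum.inl (⟨0, by omega⟩, 0)⟩
  let base : Vt N M k → Ed N M × Bool := fun v => match v with
    | Sum.inl (c, r) => (Sum.inr (c, r), false)
    | Sum.inr l => T M (D.bcol l)
  have hbase : ∀ v, tail D.w (base v) = v := by
    intro v
    rcases v with ⟨c, r⟩ | l
    · rfl
    · change tail D.w (T M (D.bcol l)) = _
      rw [tail_T, D.hb]
  obtain ⟨ord, ho, hord0⟩ := exists_ord hT base (fun d => hbase _)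
  have h0 : ∀ l, ord (T M (D.bcol l)) = 0 := by
    intro l
    have := hord0 (T M (D.bcol l))
    rw [tail_T, D.hb] at this
    exact this
  by_cases hflat : ∀ s, s < m → ∃ t, t + 3 ≤ N ∧ ∀ h : 3 * s + 1 < M + 1,
      eta ord ⟨3 * s + 1, h⟩ (t + 1) ≠ eta ord ⟨3 * s + 1, h⟩ (t + 2)
  · have := nonflat_bound ho hc m hm (by omega) hflat
    omega
  · push Not at hflat
    obtain ⟨s, hs, hall⟩ := hflat
    have hlt : 3 * s + 1 < M + 1 := by omega
    have hconst : ∀ c, 0 < c → c < N → eta ord ⟨3 * s + 1, hlt⟩ c = eta ord ⟨3 * s + 1, hlt⟩ 1 := by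
      intro c hc0
      induction c, hc0 using Nat.le_induction with
      | base => intro _; rfl
      | succ n hn ih =>
        intro hnN
        obtain ⟨h, he⟩ := hall (n - 1) (by omega)
        have e1 : n - 1 + 1 = n := by omega
        have e2 : n - 1 + 2 = n + 1 := by omega
        rw [e1, e2] at he
        rw [← he]
        exact ih (by omega)
    exact D.flat_bound ho hc h0 ⟨3 * s + 1, hlt⟩ _ hconst (by omega) hf

end WData

end TH482.HT
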