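import Pool.Agent.KS6_39.HB.SubC

/-! # One side of a bridge in an embedded graph -/

set_option autoImplicit false

namespace Pool.Agent.KS6_39.HB

open Equiv TH482.HT Pool.Agent.N398.HT

variable {V V' : Type} {G : SimpleGraph V} {G' : SimpleGraph V'}

/-- `G` is joined to the rest of `G'` only by the edge with the dart `p`. -/
structure Side (G : SimpleGraph V) (ℰ : Drawing G') (j : V → V') (p : ℰ.D) : Prop where
  emb : ℰ.IsEmbedding
  inj : Function.Injective j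
  adj : ∀ u v, G.Adj u v → G'.Adj (j u) (j v)
  dart : ∀ d u, ℰ.src d = j u → d = p ∨ ∃ v, G.Adj u v ∧ ℰ.tgt d = j v
  pend : ∀ v, ℰ.tgt p ≠ j v
  nbr : ∃ a v, ℰ.src p = j a ∧ G.Adj a v

/-- the darts of the side -/
def InSide (G : SimpleGraph V) (ℰ : Drawing G') (j : V → V') (d : ℰ.D) : Prop :=
  ∃ u v, G.Adj u v ∧ ℰ.src d = j u ∧ ℰ.tgt d = j v

namespace Side

variable {ℰ : Drawing G'} {j : V → V'} {p : ℰ.D} (S : Side G ℰ j p)

include S

theorem not_p : ¬ InSide G ℰ j p := by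
  rintro ⟨u, v, _, _, h⟩
  exact S.pend v h

theorem tgt_rev (d : ℰ.D) : ℰ.tgt (ℰ.rev d) = ℰ.src d := by
  rw [← ℰ.src_rev, ℰ.rev_rev]

theorem rev_mem {d : ℰ.D} (h : InSide G ℰ j d) : InSide G ℰ j (ℰ.rev d) := by
  obtain ⟨u, v, h1, h2, h3⟩ := h
  exact ⟨v, u, h1.symm, (ℰ.src_rev d).trans h3, (S.tgt_rev d).trans h2⟩

theorem src_rot (d : ℰ.D) : ℰ.src (ℰ.rot d) = ℰ.src d := (ℰ.vertex d (S.emb d)).2

theorem rot_mem {d : ℰ.D} (h : InSide G ℰ j d) (hp : ℰ.rot d ≠ p) : InSide G ℰ j (ℰ.rot d) := by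
  obtain ⟨u, v, h1, h2, h3⟩ := h
  have h4 : ℰ.src (ℰ.rot d) = j u := (S.src_rot d).trans h2
  rcases S.dart _ _ h4 with h | ⟨w, h5, h6⟩
  · exact absurd h hp
  · exact ⟨u, w, h5, h4, h6⟩

theorem mem_of_src {d : ℰ.D} {u : V} (h : ℰ.src d = j u) (hp : d ≠ p) : InSide G ℰ j d := by
  rcases S.dart _ _ h with h' | ⟨w, h5, h6⟩
  · exact absurd h' hp
  · exact ⟨u, w, h5, h, h6⟩

theorem rot_p_ne : ℰ.rot p ≠ p := by
  intro h
  obtain ⟨a, v, ha, hv⟩ := S.nbr
  obtain ⟨d, ⟨hd1, hd2, hd3⟩, _⟩ := ℰ.start _ _ (S.adj _ _ hv)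
  have hc := ℰ.vertex_cyclic p d (S.emb p) (S.emb d) (ha.trans hd1.symm)
  have h2 : d ∈ ({p} : Set ℰ.D) := closed_cycle (s := {p}) (by rintro _ rfl; exact h) hc rfl
  rw [h2] at hd2
  exact S.pend _ hd2

theorem rot_p_mem : InSide G ℰ j (ℰ.rot p) := by
  obtain ⟨a, v, ha, hv⟩ := S.nbr
  exact S.mem_of_src ((S.src_rot p).trans ha) S.rot_p_ne

theorem rot_inv_mem : InSide G ℰ j (ℰ.rot⁻¹ p) := by
  obtain ⟨a, v, ha, hv⟩ := S.nbr
  have h1 : ℰ.rot (ℰ.rot⁻¹ p) = p := ℰ.rot.apply_symm_apply p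
  refine S.mem_of_src (u := a) ?_ ?_
  · rw [← ha, ← S.src_rot (ℰ.rot⁻¹ p), h1]
  · intro h
    rw [h] at h1
    exact S.rot_p_ne h1

end Side

open Classical in
/-- the next dart of the side around the vertex -/
noncomputable def sideRotF {ℰ : Drawing G'} {j : V → V'} {p : ℰ.D} (S : Side G ℰ j p)
    (x : {d // InSide G ℰ j d}) : {d // InSide G ℰ j d} :=
  if h : ℰ.rot x.1 = p then ⟨ℰ.rot p, S.rot_p_mem⟩ else ⟨ℰ.rot x.1, S.rot_mem x.2 h⟩

section

variable {ℰ : Drawing G'} {j : V → V'} {p : ℰ.D} (S : Side G ℰ j p)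

include S

theorem sideRotF_of_ne {x : {d // InSide G ℰ j d}} (h : ℰ.rot x.1 ≠ p) :
    (sideRotF S x).1 = ℰ.rot x.1 := by
  unfold sideRotF
  rw [dif_neg h]

theorem sideRotF_of_eq {x : {d // InSide G ℰ j d}} (h : ℰ.rot x.1 = p) :
    (sideRotF S x).1 = ℰ.rot p := by
  unfold sideRotF
  rw [dif_pos h]

theorem sideRotF_inj : Function.Injective (sideRotF S) := by
  intro x y hxy
  have h := congrArg Subtype.val hxy
  apply Subtype.ext
  by_cases hx : ℰ.rot x.1 = p <;> by_cases hy : ℰ.rot y.1 = p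
  · exact ℰ.rot.injective (hx.trans hy.symm)
  · rw [sideRotF_of_eq S hx, sideRotF_of_ne S hy] at h
    have := ℰ.rot.injective h
    exact absurd (this ▸ y.2) S.not_p
  · rw [sideRotF_of_ne S hx, sideRotF_of_eq S hy] at h
    have := ℰ.rot.injective h
    exact absurd (this ▸ x.2) S.not_p
  · rw [sideRotF_of_ne S hx, sideRotF_of_ne S hy] at h
    exact ℰ.rot.injective h

end

/-- the rotation of the side -/
noncomputable def sideRot {ℰ : Drawing G'} {j : V → V'} {p : ℰ.D} (S : Side G ℰ j p) :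
    Perm {d // InSide G ℰ j d} :=
  Equiv.ofBijective (sideRotF S) (Finite.injective_iff_bijective.1 (sideRotF_inj S))

/-- the reversal of the side -/
def sideRev {ℰ : Drawing G'} {j : V → V'} {p : ℰ.D} (S : Side G ℰ j p) :
    Perm {d // InSide G ℰ j d} where
  toFun x := ⟨ℰ.rev x.1, S.rev_mem x.2⟩
  invFun x := ⟨ℰ.rev x.1, S.rev_mem x.2⟩
  left_inv x := Subtype.ext (ℰ.rev_rev _)
  right_inv x := Subtype.ext (ℰ.rev_rev _)

section

variable {ℰ : Drawing G'} {j : V → V'} {p : ℰ.D} (S : Side G ℰ j p)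

theorem sideRot_of_ne {x : {d // InSide G ℰ j d}} (h : ℰ.rot x.1 ≠ p) :
    (sideRot S x).1 = ℰ.rot x.1 := sideRotF_of_ne S h

theorem sideRot_of_eq {x : {d // InSide G ℰ j d}} (h : ℰ.rot x.1 = p) :
    (sideRot S x).1 = ℰ.rot p := sideRotF_of_eq S h

/-- A set of darts of the side that is closed under the rotation of the side, together with `p` if
it contains a dart at the vertex of `p`, is closed under the rotation. -/
theorem side_cycle (s : Set {d // InSide G ℰ j d}) (hs : ∀ x ∈ s, sideRot S x ∈ s) {x : ℰ.D}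
    {y : {d // InSide G ℰ j d}} (hx : ∃ h : InSide G ℰ j x, (⟨x, h⟩ : {d // InSide G ℰ j d}) ∈ s)
    (hxy : ℰ.rot.SameCycle x y.1) : y ∈ s := by
  have := closed_cycle (s := {d | (∃ h : InSide G ℰ j d, (⟨d, h⟩ : {d // InSide G ℰ j d}) ∈ s) ∨
    (d = p ∧ (⟨ℰ.rot p, S.rot_p_mem⟩ : {d // InSide G ℰ j d}) ∈ s)}) ?_ hxy (Or.inl hx)
  · rcases this with ⟨_, h⟩ | ⟨h, _⟩
    · exact h
    · exact absurd (h ▸ y.2) S.not_p
  · rintro d (⟨h, hd⟩ | ⟨rfl, hd⟩)
    · by_cases hp : ℰ.rot d = p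
      · refine Or.inr ⟨hp, ?_⟩
        have h1 := hs _ hd
        have h2 : sideRot S ⟨d, h⟩ = ⟨ℰ.rot p, S.rot_p_mem⟩ :=
          Subtype.ext (sideRot_of_eq S (x := ⟨d, h⟩) hp)
        rwa [h2] at h1
      · refine Or.inl ⟨S.rot_mem h hp, ?_⟩
        have h1 := hs _ hd
        have h2 : sideRot S ⟨d, h⟩ = ⟨ℰ.rot d, S.rot_mem h hp⟩ :=
          Subtype.ext (sideRot_of_ne S (x := ⟨d, h⟩) hp)
        rwa [h2] at h1
    · exact Or.inl ⟨S.rot_p_mem, hd⟩

theorem side_conn (s : Set {d // InSide G ℰ j d}) (hne : s.Nonempty)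
    (hs : ∀ x ∈ s, sideRot S x ∈ s ∧ sideRev S x ∈ s) : s = Set.univ := by
  have hrot : ∀ x ∈ s, sideRot S x ∈ s := fun x hx => (hs x hx).1
  by_cases hc : (⟨ℰ.rot p, S.rot_p_mem⟩ : {d // InSide G ℰ j d}) ∈ s
  · have h1 := ℰ.conn {d | ∀ h : InSide G ℰ j d, (⟨d, h⟩ : {d // InSide G ℰ j d}) ∈ s}
      ⟨p, fun h => absurd h S.not_p⟩ (by
        intro d hd
        constructor
        · intro h
          by_cases hp : d = p
          · subst hp
            exact hc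
          · obtain ⟨u, v, h1, h2, h3⟩ := h
            have h4 : InSide G ℰ j d := S.mem_of_src ((S.src_rot d).symm.trans h2) hp
            exact side_cycle S s hrot ⟨h4, hd h4⟩ (same_step d)
        · intro h
          have h4 : InSide G ℰ j d := by
            have := S.rev_mem h
            rwa [ℰ.rev_rev] at this
          exact (hs _ (hd h4)).2)
    ext ⟨d, h⟩
    have : d ∈ (Set.univ : Set ℰ.D) := trivial
    rw [← h1] at this
    simp [this h]
  · exfalso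
    have h1 := ℰ.conn {d | ∃ h : InSide G ℰ j d, (⟨d, h⟩ : {d // InSide G ℰ j d}) ∈ s}
      (by obtain ⟨⟨d, h⟩, hd⟩ := hne; exact ⟨d, h, hd⟩) (by
        rintro d ⟨h, hd⟩
        constructor
        · by_cases hp : ℰ.rot d = p
          · exfalso
            apply hc
            have h1 := hrot _ hd
            have h2 : sideRot S ⟨d, h⟩ = ⟨ℰ.rot p, S.rot_p_mem⟩ :=
              Subtype.ext (sideRot_of_eq S (x := ⟨d, h⟩) hp)
            rwa [h2] at h1
          · refine ⟨S.rot_mem h hp, ?_⟩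
            have h1 := hrot _ hd
            have h2 : sideRot S ⟨d, h⟩ = ⟨ℰ.rot d, S.rot_mem h hp⟩ :=
              Subtype.ext (sideRot_of_ne S (x := ⟨d, h⟩) hp)
            rwa [h2] at h1
        · exact ⟨S.rev_mem h, (hs _ hd).2⟩)
    have : p ∈ (Set.univ : Set ℰ.D) := trivial
    rw [← h1] at this
    exact S.not_p this.1

/-- the start of a dart of the side -/
noncomputable def sideSrc (x : {d // InSide G ℰ j d}) : V := x.2.choose
/-- the end of a dart of the side -/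
noncomputable def sideTgt (x : {d // InSide G ℰ j d}) : V := x.2.choose_spec.choose

theorem side_spec (x : {d // InSide G ℰ j d}) : G.Adj (sideSrc x) (sideTgt x) ∧
    ℰ.src x.1 = j (sideSrc x) ∧ ℰ.tgt x.1 = j (sideTgt x) := x.2.choose_spec.choose_spec

/-- the side as an embedded graph -/
noncomputable def sideDrawing : Drawing G where
  D := {d // InSide G ℰ j d}
  fin := Fintype.ofFinite _
  rot := sideRot S
  rev := sideRev S
  rev_rev x := Subtype.ext (ℰ.rev_rev _)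
  rev_ne x h := ℰ.rev_ne _ (congrArg Subtype.val h)
  conn := side_conn S
  src := sideSrc
  tgt := sideTgt
  pos _ := 0
  adj x := (side_spec x).1
  src_rev x := by
    apply S.inj
    rw [← (side_spec (sideRev S x)).2.1, ← (side_spec x).2.2]
    exact ℰ.src_rev x.1
  start u v h := by
    obtain ⟨d, ⟨h1, h2, _⟩, h4⟩ := ℰ.start _ _ (S.adj _ _ h)
    have hd : InSide G ℰ j d := ⟨u, v, h, h1, h2⟩
    refine ⟨⟨d, hd⟩, ⟨?_, ?_, rfl⟩, ?_⟩
    · apply S.inj
      exact (side_spec (⟨d, hd⟩ : {d // InSide G ℰ j d})).2.1.symm.trans h1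
    · apply S.inj
      exact (side_spec (⟨d, hd⟩ : {d // InSide G ℰ j d})).2.2.symm.trans h2
    · rintro y ⟨e1, e2, _⟩
      apply Subtype.ext
      apply h4
      refine ⟨?_, ?_, S.emb _⟩
      · rw [(side_spec y).2.1, e1]
      · rw [(side_spec y).2.2, e2]
  vertex x _ := by
    refine ⟨rfl, ?_⟩
    apply S.inj
    have e1 := (side_spec (sideRot S x)).2.1
    have e2 := (side_spec x).2.1
    rw [← e1, ← e2]
    by_cases h : ℰ.rot x.1 = p
    · rw [sideRot_of_eq S h, S.src_rot, ← h, S.src_rot]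
    · rw [sideRot_of_ne S h, S.src_rot]
  vertex_cyclic x y _ _ h := by
    have h1 : ℰ.rot.SameCycle x.1 y.1 := by
      apply ℰ.vertex_cyclic _ _ (S.emb _) (S.emb _)
      rw [(side_spec _).2.1, (side_spec _).2.1, h]
    exact side_cycle S {z | (sideRot S).SameCycle x z}
      (fun z hz => Perm.SameCycle.trans hz (same_step z)) ⟨x.2, Perm.SameCycle.refl _ _⟩ h1
  cross x h := absurd h (lt_irrefl _)
  cross_prev x h := absurd h (lt_irrefl _)
  cross_ne x h := absurd h (lt_irrefl _)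

theorem sideDrawing_emb : (sideDrawing S).IsEmbedding := fun _ => rfl

end

/-- An embedded graph with a bridge. -/
def sideBridge {V₁ V₂ : Type} {G₁ : SimpleGraph V₁} {G₂ : SimpleGraph V₂} {ℰ : Drawing G'}
    {j₁ : V₁ → V'} {j₂ : V₂ → V'} {p : ℰ.D} (S₁ : Side G₁ ℰ j₁ p) (S₂ : Side G₂ ℰ j₂ (ℰ.rev p))
    (hdis : ∀ x y, j₁ x ≠ j₂ y) (hcov : ∀ d, InSide G₁ ℰ j₁ d ∨ InSide G₂ ℰ j₂ d ∨ d = p ∨
      d = ℰ.rev p) :
    Bridge ℰ.toSurfaceMap (sideDrawing S₁).toSurfaceMap (sideDrawing S₂).toSurfaceMap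
      ⟨ℰ.rot⁻¹ p, S₁.rot_inv_mem⟩ ⟨ℰ.rot⁻¹ (ℰ.rev p), S₂.rot_inv_mem⟩ where
  i₁ := Subtype.val
  i₂ := Subtype.val
  p := p
  inj₁ := Subtype.val_injective
  inj₂ := Subtype.val_injective
  ne12 x y h := by
    have hx := x.2
    obtain ⟨u, v, _, h1, _⟩ := hx
    obtain ⟨u', v', _, h1', _⟩ := y.2
    rw [h, h1'] at h1
    exact hdis _ _ h1.symm
  np1 x h := S₁.not_p (h ▸ x.2)
  np2 y h := S₂.not_p (h ▸ y.2)
  cover d := by
    rcases hcov d with h | h | h | h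
    · exact Or.inl ⟨⟨d, h⟩, rfl⟩
    · exact Or.inr (Or.inl ⟨⟨d, h⟩, rfl⟩)
    · exact Or.inr (Or.inr (Or.inl h))
    · exact Or.inr (Or.inr (Or.inr h))
  rev1 x := rfl
  rev2 x := rfl
  rot1 x hx := by
    refine (sideRot_of_ne S₁ (x := x) ?_).symm
    intro h
    apply hx
    apply Subtype.ext
    have h2 : ℰ.rot⁻¹ (ℰ.rot x.1) = x.1 := ℰ.rot.symm_apply_apply _
    rw [← h2, h]
  rotc1 := ℰ.rot.apply_symm_apply p
  rotp1 := (sideRot_of_eq S₁ (x := ⟨ℰ.rot⁻¹ p, S₁.rot_inv_mem⟩) (ℰ.rot.apply_symm_apply p)).symm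
  rot2 x hx := by
    refine (sideRot_of_ne S₂ (x := x) ?_).symm
    intro h
    apply hx
    apply Subtype.ext
    have h2 : ℰ.rot⁻¹ (ℰ.rot x.1) = x.1 := ℰ.rot.symm_apply_apply _
    rw [← h2, h]
  rotc2 := ℰ.rot.apply_symm_apply _
  rotp2 := (sideRot_of_eq S₂ (x := ⟨ℰ.rot⁻¹ (ℰ.rev p), S₂.rot_inv_mem⟩)
    (ℰ.rot.apply_symm_apply _)).symm

end Pool.Agent.KS6_39.HB
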