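import Pool.Agent.KS6_39.HB.Bridge

/-! # Discs in a map with a bridge -/

set_option autoImplicit false

namespace Pool.Agent.KS6_39.HB

open Equiv TH482.HT Pool.Agent.N398.HT

theorem numOrbitsIn_map {D D' : Type} {σ : Perm D} {τ : Perm D'} (i : D → D') {s : Set D}
    {t : Set D'} (h1 : ∀ x ∈ s, ∀ y ∈ s, σ.SameCycle x y ↔ τ.SameCycle (i x) (i y))
    (h2 : ∀ x ∈ s, i x ∈ t) (h3 : ∀ d ∈ t, ∃ x ∈ s, τ.SameCycle (i x) d) :
    numOrbitsIn τ t = numOrbitsIn σ s := by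
  unfold numOrbitsIn
  symm
  have hc : ∀ q ∈ ((Quotient.mk (Perm.SameCycle.setoid σ)) '' s), ∃ x ∈ s,
      Quotient.mk (Perm.SameCycle.setoid σ) x = q := by
    rintro _ ⟨x, hx, rfl⟩
    exact ⟨x, hx, rfl⟩
  choose g hg1 hg2 using hc
  refine Set.ncard_congr (fun q hq => Quotient.mk (Perm.SameCycle.setoid τ) (i (g q hq))) ?_ ?_ ?_
  · intro q hq
    exact ⟨_, h2 _ (hg1 q hq), rfl⟩
  · intro a b ha hb hab
    rw [← hg2 a ha, ← hg2 b hb]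
    exact mk_eq_iff.2 ((h1 _ (hg1 a ha) _ (hg1 b hb)).2 (mk_eq_iff.1 hab))
  · rintro _ ⟨d, hd, rfl⟩
    obtain ⟨x, hx, hxd⟩ := h3 d hd
    have hq : Quotient.mk (Perm.SameCycle.setoid σ) x ∈
      (Quotient.mk (Perm.SameCycle.setoid σ)) '' s := ⟨x, hx, rfl⟩
    refine ⟨_, hq, mk_eq_iff.2 (Perm.SameCycle.trans ?_ hxd)⟩
    exact (h1 _ (hg1 _ hq) _ hx).1 (mk_eq_iff.1 (hg2 _ hq))

theorem numOrbitsIn_insert {D : Type} [Finite D] {σ : Perm D} {s t : Set D} {a : D}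
    (h1 : ∀ x ∈ s, ¬ σ.SameCycle a x) (h2 : a ∈ t) (h3 : ∀ x ∈ t, σ.SameCycle a x) :
    numOrbitsIn σ (s ∪ t) = numOrbitsIn σ s + 1 := by
  unfold numOrbitsIn
  have ht : (Quotient.mk (Perm.SameCycle.setoid σ)) '' t = {Quotient.mk _ a} := by
    ext q
    constructor
    · rintro ⟨x, hx, rfl⟩
      exact mk_eq_iff.2 (h3 x hx).symm
    · rintro rfl
      exact ⟨a, h2, rfl⟩
  rw [Set.image_union, ht, Set.union_singleton, Set.ncard_insert_of_notMem]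
  rintro ⟨x, hx, h⟩
  exact h1 x hx (mk_eq_iff.1 h).symm

/-- `es_vs` also for the other end -/
theorem sub_rot_inv {M : SurfaceMap} (Y : Subcomplex M) {x x' : M.D} (h : M.rot.SameCycle x x')
    (hx : x ∈ Y.vs) : x' ∈ Y.vs := closed_cycle Y.vs_rot h hx

namespace Bridge

variable {M M₁ M₂ : SurfaceMap} {c₁ : M₁.D} {c₂ : M₂.D} (B : Bridge M M₁ M₂ c₁ c₂)

/-- The subcomplex of the map with the bridge that is given by a subcomplex of the first map. -/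
def sub (Y : Subcomplex M₁) (hY : B.e₁ ∉ Y.fs) : Subcomplex M where
  vs := B.starV Y.vs
  es := B.i₁ '' Y.es
  fs := B.i₁ '' Y.fs
  vs_rot := B.starV_closed Y.vs_rot
  es_rev := by
    rintro _ ⟨x, hx, rfl⟩
    exact ⟨_, Y.es_rev x hx, (B.rev1 x).symm⟩
  fs_face := by
    rintro _ ⟨x, hx, rfl⟩
    exact ⟨_, Y.fs_face x hx, (B.face1 (fun h => hY (h ▸ hx))).symm⟩
  es_vs := by
    rintro _ ⟨x, hx, rfl⟩
    exact B.mem_starV.2 (Y.es_vs x hx)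
  fs_es := by
    rintro _ ⟨x, hx, rfl⟩
    exact ⟨x, Y.fs_es x hx, rfl⟩

theorem count_vs {s : Set M₁.D} : numOrbitsIn M.rot (B.starV s) = numOrbitsIn M₁.rot s := by
  refine numOrbitsIn_map B.i₁ (fun x _ y _ => ⟨B.rot_same, B.rot_reflect⟩)
    (fun x hx => B.mem_starV.2 hx) ?_
  rintro d (⟨x, hx, rfl⟩ | ⟨rfl, hc⟩)
  · exact ⟨x, hx, Perm.SameCycle.refl _ _⟩
  · exact ⟨c₁, hc, B.rot_p⟩

theorem count_es {s : Set M₁.D} : numOrbitsIn M.rev (B.i₁ '' s) = numOrbitsIn M₁.rev s := by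
  refine numOrbitsIn_map B.i₁ (fun x _ y _ => ⟨B.rev_same, B.rev_reflect⟩)
    (fun x hx => ⟨x, hx, rfl⟩) ?_
  rintro _ ⟨x, hx, rfl⟩
  exact ⟨x, hx, Perm.SameCycle.refl _ _⟩

theorem count_fs {s : Set M₁.D} :
    numOrbitsIn (M.rot * M.rev) (B.i₁ '' s) = numOrbitsIn (M₁.rot * M₁.rev) s := by
  refine numOrbitsIn_map B.i₁ (fun x _ y _ => ⟨B.face_same, B.face_reflect⟩)
    (fun x hx => ⟨x, hx, rfl⟩) ?_
  rintro _ ⟨x, hx, rfl⟩
  exact ⟨x, hx, Perm.SameCycle.refl _ _⟩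

theorem conn_aux {Y : Subcomplex M₁} (hc : Y.Connected) {T : Set M.D}
    (h1 : ∀ x, B.i₁ x ∈ T → x ∈ Y.vs) (h2 : ∃ x, B.i₁ x ∈ T) (h3 : ∀ d ∈ T, M.rot d ∈ T)
    (h4 : ∀ x ∈ Y.es, B.i₁ x ∈ T → M.rev (B.i₁ x) ∈ T) : ∀ x ∈ Y.vs, B.i₁ x ∈ T := by
  have := hc.2 {x | B.i₁ x ∈ T} h1 h2 (by
      intro x hx
      change B.i₁ (M₁.rot x) ∈ T
      by_cases h : x = c₁
      · subst h
        have := h3 _ (h3 _ hx)
        rwa [B.rotc1, B.rotp1] at this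
      · rw [← B.rot1 x h]
        exact h3 _ hx) (by
      intro x hx hxe
      change B.i₁ (M₁.rev x) ∈ T
      rw [← B.rev1]
      exact h4 x hxe hx)
  intro x hx
  rw [← this] at hx
  exact hx

theorem sub_isDisc (Y : Subcomplex M₁) (hY : B.e₁ ∉ Y.fs) (hd : Y.IsDisc) :
    (B.sub Y hY).IsDisc := by
  obtain ⟨hc, _, he⟩ := hd
  refine ⟨⟨?_, ?_⟩, ?_, ?_⟩
  · obtain ⟨x, hx⟩ := hc.1
    exact ⟨_, B.mem_starV.2 hx⟩
  · intro T hT hne hrot hrev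
    have h1 : ∀ x, B.i₁ x ∈ T → x ∈ Y.vs := fun x hx => B.mem_starV.1 (hT hx)
    have h2 : ∃ x, B.i₁ x ∈ T := by
      obtain ⟨d, hd⟩ := hne
      rcases hT hd with ⟨x, _, rfl⟩ | ⟨rfl, _⟩
      · exact ⟨x, hd⟩
      · exact ⟨_, by rw [← B.rotp1]; exact hrot _ hd⟩
    have h5 := B.conn_aux hc h1 h2 hrot (fun x hx hxT => hrev _ hxT ⟨x, hx, rfl⟩)
    apply Set.Subset.antisymm hT
    rintro d (⟨x, hx, rfl⟩ | ⟨rfl, hcc⟩)
    · exact h5 x hx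
    · rw [← B.rotc1]
      exact hrot _ (h5 _ hcc)
  · intro h
    have : B.p ∈ (B.sub Y hY).fs := by rw [h]; trivial
    obtain ⟨x, _, hx⟩ := this
    exact B.np1 x hx
  · change (numOrbitsIn M.rot (B.starV Y.vs) : ℤ) - (numOrbitsIn M.rev (B.i₁ '' Y.es) : ℤ) +
      (numOrbitsIn (M.rot * M.rev) (B.i₁ '' Y.fs) : ℤ) = 1
    rw [B.count_vs, B.count_es, B.count_fs]
    exact he

/-- the vertex at the other end of the bridge -/
def endV : Set M.D := {d | M.rot.SameCycle (M.rev B.p) d}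

theorem starV_endV {s : Set M₁.D} {d : M.D} (hd : d ∈ B.starV s) :
    ¬ M.rot.SameCycle (M.rev B.p) d := by
  intro h
  rcases hd with ⟨x, _, rfl⟩ | ⟨rfl, _⟩
  · exact B.symm.rot_cross _ _ ((B.symm.rot_p).trans h)
  · exact B.symm.rot_cross _ _ (((B.symm.rot_p).trans h).trans B.rot_p.symm)

/-- The subcomplex with the bridge. -/
def subBridge (Y : Subcomplex M₁) (hY : B.e₁ ∉ Y.fs) (hc : c₁ ∈ Y.vs) : Subcomplex M where
  vs := B.starV Y.vs ∪ B.endV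
  es := B.i₁ '' Y.es ∪ {B.p, M.rev B.p}
  fs := B.i₁ '' Y.fs
  vs_rot := by
    rintro d (hd | hd)
    · exact Or.inl (B.starV_closed Y.vs_rot d hd)
    · exact Or.inr (Perm.SameCycle.trans hd (same_step d))
  es_rev := by
    rintro _ (⟨x, hx, rfl⟩ | rfl | rfl)
    · exact Or.inl ⟨_, Y.es_rev x hx, (B.rev1 x).symm⟩
    · exact Or.inr (Or.inr rfl)
    · exact Or.inr (Or.inl (M.rev_rev _))
  fs_face := by
    rintro _ ⟨x, hx, rfl⟩
    exact ⟨_, Y.fs_face x hx, (B.face1 (fun h => hY (h ▸ hx))).symm⟩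
  es_vs := by
    rintro _ (⟨x, hx, rfl⟩ | rfl | rfl)
    · exact Or.inl (B.mem_starV.2 (Y.es_vs x hx))
    · exact Or.inl (Or.inr ⟨rfl, hc⟩)
    · exact Or.inr (Perm.SameCycle.refl _ _)
  fs_es := by
    rintro _ ⟨x, hx, rfl⟩
    exact Or.inl ⟨x, Y.fs_es x hx, rfl⟩

theorem subBridge_isDisc (Y : Subcomplex M₁) (hY : B.e₁ ∉ Y.fs) (hc₁ : c₁ ∈ Y.vs)
    (hd : Y.IsDisc) : (B.subBridge Y hY hc₁).IsDisc := by
  obtain ⟨hc, _, he⟩ := hd
  refine ⟨⟨?_, ?_⟩, ?_, ?_⟩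
  · obtain ⟨x, hx⟩ := hc.1
    exact ⟨_, Or.inl (B.mem_starV.2 hx)⟩
  · intro T hT hne hrot hrev
    have h1 : ∀ x, B.i₁ x ∈ T → x ∈ Y.vs := by
      intro x hx
      rcases hT hx with h | h
      · exact B.mem_starV.1 h
      · exact absurd ((B.symm.rot_p).trans h) (B.symm.rot_cross _ _)
    have hpT : M.rev B.p ∈ T → B.p ∈ T := by
      intro h
      have := hrev _ h (Or.inr (Or.inr rfl))
      rwa [M.rev_rev] at this
    have hpT' : B.p ∈ T → M.rev B.p ∈ T := fun h => hrev _ h (Or.inr (Or.inl rfl))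
    have h2 : ∃ x, B.i₁ x ∈ T := by
      obtain ⟨d, hd⟩ := hne
      rcases hT hd with (⟨x, _, rfl⟩ | ⟨rfl, _⟩) | hq
      · exact ⟨x, hd⟩
      · exact ⟨_, by rw [← B.rotp1]; exact hrot _ hd⟩
      · have h6 : M.rev B.p ∈ T := closed_cycle hrot (Perm.SameCycle.symm hq) hd
        exact ⟨_, by rw [← B.rotp1]; exact hrot _ (hpT h6)⟩
    have h5 := B.conn_aux hc h1 h2 hrot (fun x hx hxT => hrev _ hxT (Or.inl ⟨x, hx, rfl⟩))
    have hp : B.p ∈ T := by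
      rw [← B.rotc1]
      exact hrot _ (h5 _ hc₁)
    apply Set.Subset.antisymm hT
    rintro d ((⟨x, hx, rfl⟩ | ⟨rfl, hcc⟩) | hq)
    · exact h5 x hx
    · exact hp
    · exact closed_cycle hrot hq (hpT' hp)
  · intro h
    have : B.p ∈ (B.subBridge Y hY hc₁).fs := by rw [h]; trivial
    obtain ⟨x, _, hx⟩ := this
    exact B.np1 x hx
  · change (numOrbitsIn M.rot (B.starV Y.vs ∪ B.endV) : ℤ) -
      (numOrbitsIn M.rev (B.i₁ '' Y.es ∪ {B.p, M.rev B.p}) : ℤ) +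
      (numOrbitsIn (M.rot * M.rev) (B.i₁ '' Y.fs) : ℤ) = 1
    rw [numOrbitsIn_insert (a := M.rev B.p) (t := B.endV) (fun x hx => B.starV_endV hx)
      (Perm.SameCycle.refl _ _) (fun x hx => hx),
      numOrbitsIn_insert (a := B.p) (t := {B.p, M.rev B.p}) ?_ (Or.inl rfl) ?_,
      B.count_vs, B.count_es, B.count_fs]
    · have : Y.euler = (numOrbitsIn M₁.rot Y.vs : ℤ) - (numOrbitsIn M₁.rev Y.es : ℤ) +
        (numOrbitsIn (M₁.rot * M₁.rev) Y.fs : ℤ) := rfl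
      push_cast
      omega
    · rintro _ ⟨x, _, rfl⟩ h
      obtain ⟨z, hz⟩ := B.rev_cross x h.symm
      exact B.np1 z hz
    · rintro x (rfl | rfl)
      · exact Perm.SameCycle.refl _ _
      · exact same_step _

end Bridge

end Pool.Agent.KS6_39.HB
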