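import Pool.Agent.KS6_39.HB.CertA
import Pool.Agent.KS6_39.HB.T3

/-! # The word `abcabcabcdabcd`: a graph of genus at least four -/

set_option autoImplicit false

namespace Pool.Agent.KS6_39.HB.W14A

open TH482.HT Pool.Agent.N398.HT

theorem face_one : TH482.HT.get T3.t.FACE (Tab.oth (T3.t.enc (⟨0, by decide⟩, false))) = 1 := by
  decide +kernel

theorem face_cert (x y : ℕ) : 1 ∉ (T3.cert x y).2.2 := by
  unfold T3.cert
  cases Nat.beq (x + y) 1242 && (Nat.beq x 545 || Nat.beq x 697) <;>
    cases Nat.beq (x + y) 1240 && (Nat.beq x 569 || Nat.beq x 671) <;>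
    cases Nat.beq (x + y) 1200 && (Nat.beq x 573 || Nat.beq x 627) <;>
    simp [T3.disc1, T3.disc2, T3.disc3, T3.plain]

/-- The graph of the word `abcabcabcdabcd` has a drawing of genus three, and no embedding of
genus three. -/
theorem good_three : Good 3 (3 : ℕ) :=
  Good.of_tab W14.D T3.good T3.idx T3.kV T3.kR T3.kF T3.kT T3.cert T3.kP T3.chkE (g := 3)
    (by norm_num) (by norm_num) W14.el W14.final
    (⟨0, by decide⟩, false) (by decide +kernel) (by decide +kernel)
    (fun x y => by rw [face_one]; exact face_cert x y) 3 (by decide)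

end Pool.Agent.KS6_39.HB.W14A
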