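import Pool.Agent.KS6_39.HB.CertA

/-! # The word `abab`: a graph of genus one (generated tables) -/

set_option autoImplicit false

namespace Pool.Agent.KS6_39.HB.W4

open TH482.HT Pool.Agent.N398.HT

/-- the letter of a column -/
def w (c : Fin 4) : Fin 2 := Fin.ofNat 2 c.val
/-- the first column of a letter -/
def bcol (l : Fin 2) : Fin 4 := Fin.ofNat 4 l.val
def P (i : ℕ) : Fin 4 := Fin.ofNat 4 (i + 2)

/-- the data of the word -/
def D : WData 3 2 where
  w := w
  bcol := bcol
  hb := by decide +kernel
  nc := 2
  P := P
  hP := by decide +kernel
  hmono := by decide +kernel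
  np := 0
  sm := fun i j => Nat.beq i j
  nb := fun _ _ => true
  pidx := fun _ _ => 0
  pI := fun _ => 0
  pJ := fun _ => 0
  hsm := by decide +kernel
  hnb := by decide +kernel
  hpi := by decide +kernel

theorem final : finalB D.nc D.np (2 * (0 + 1)) D.sm D.nb D.pidx = true := by decide +kernel

theorem el : 2 * (0 + 1) ≤ elim (2 * (0 + 1)) ((List.range (2 * (0 + 1))).map TH482.HT.hrow) := by
  decide +kernel

/-- the tables of the drawing -/
def t : Tab where
  En := 21
  ROT := 0x1281f04606c1481704e054140110420980f00d03a0900d0090320880b0070400140981c02000c07818018004058140100000900e00802801006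
  ROTI := 0x128210460781481a04e0580f8130500740d81004c0640b80c048054110080220141000f01a0100e00b0120080c0070280000900301c00405006
  LAB := 0x1482804e09812824046088108200220400f81e01e0380e81c01a0300d81a0320600580a02e0580480802a050038060260480280400600800800
  POS := 0x0
  START := 0x1482804e098128240460881082003a0700c81802a0500981201e0380580a00e0180f81e0360680b8160220400680c0120200280400600800800
  BASE := 0x14827050098120220400700c01402403805006
  Vn := 14
  VLAB := 0x680b018028068090180200580701602805006014024048050120200400400e00c0380600c0080300500a004028040080000180200400400800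
  VREP := 0x14827050098120220400700c01402403805006
  Fn := 7
  FACE := 0x30000000180280600001402005000010000040060000300300400c02802002008020010000040180000400000800
  FREP := 0x440680900a00c00800
  MU := 0x0

/-- the position of a dart in its face -/
def idx : ℕ := 0x60050120380300b01e0200180401a008018010140080180100e0080800100600c0000200600400002006004000020220040000200000400000

/-- the union of two adjacent edges -/
def plain (x y : ℕ) : List ℕ × List ℕ × List ℕ :=
  (get t.VLAB x :: ((trail t (get t.LAB x)) ++ (trail t (get t.LAB y))).map
      (fun c => get t.VLAB (Tab.oth c)),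
    ((trail t (get t.LAB x)) ++ (trail t (get t.LAB y))).map (fun c => c / 2), [])

theorem good : GoodTab 3 2 2 D.w t where
  pos := by decide +kernel
  c1 := by decide +kernel
  c2 := by decide +kernel
  c3 := by decide +kernel
  c4 := by decide +kernel
  c5 := by decide +kernel
  c6 := by decide +kernel
  c7 := by decide +kernel
  c8 := by decide +kernel

theorem chkE : allB (2 * t.En) (TH482.HT.chkE D.w 2 t) = true := by decide +kernel
theorem kV : allB (2 * t.En) (chkV t) = true := by decide +kernel
theorem kR : allB (2 * t.En) (chkR t) = true := by decide +kernel
theorem kF : allB (2 * t.En) (chkF t idx) = true := by decide +kernel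
theorem kT : allB (2 * t.En) (chkT t) = true := by decide +kernel
theorem kP : allB t.Vn (pairsB t plain) = true := by decide +kernel

/-- The graph of the word `abab` has an embedding of genus one, and no embedding of genus zero. -/
theorem good_one : Good 1 (0 : ℕ) :=
  Good.of_tab D good idx kV kR kF kT plain kP chkE (g := 0) (by norm_num) (by norm_num) el final
    (⟨0, by decide⟩, false) (by decide +kernel) (by decide +kernel)
    (fun x y => List.not_mem_nil) 1 (by decide)

end Pool.Agent.KS6_39.HB.W4
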